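import Pool.Agent.Work.MP_64ea0f_cs.InterfaceB

set_option autoImplicit false

/-! # Stage F: elements of infinite order (affine-free case)

Overview. `x` of infinite order, `PC x y`. `H` deep, `h = x ^ m ∈ H`, with parabolic closure of all powers of `h` equal to `par J` (after
conjugation). `RTW` reduces to `x ^ m = y ^ m = h` and congruent conjugation inside the centraliser of `h`, which lies in
`par J × par (perp J)`. The second components are torsion (stage E, root system of `perp J`); the centraliser of `h` in `par J` is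
virtually free abelian with the full profinite topology (GAM, from the axis of `h` in the right-angled Coxeter group, AX, and F3). -/

namespace Pool.CS

namespace Rd
variable (D : Rd)

/-- connected subset of the Coxeter graph -/
def Conn (K : Set D.S) : Prop := ∀ K' ⊆ K, K'.Nonempty → (∀ s ∈ K', ∀ t ∈ K \ K', D.k s t = 0) → K' = K

/-- no union of components of `J` is finite -/
def NoFin (J : Set D.S) : Prop := ∀ K ⊆ J, K.Nonempty → (∀ s ∈ K, ∀ t ∈ J \ K, D.k s t = 0) → ¬ Finite (D.par K)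

/-- `par J` is the parabolic closure of all powers of `h` -/
def Ess (J : Set D.S) (h : D.W) : Prop :=
  h ∈ D.par J ∧ ∀ n : ℕ, 0 < n → ∀ (g : D.W) (J' : Set D.S), h ^ n ∈ D.cp g J' → D.par J ≤ D.cp g J'

/-- `h` translates the root `φ`, in the positive direction -/
def Trn (h : D.W) (φ : D.V) : Prop := ∀ n : ℕ, 0 < n → D.Sub φ (D.ρ (h ^ n) φ) ∧ D.ρ (h ^ n) φ ≠ φ

end Rd

/-- minimal length of all powers under conjugation -/
def Ax1 {Λ : Type} (G : SimpleGraph Λ) (w : List Λ) : Prop :=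
  ∀ (n : ℕ) (b : RC G) (l : List Λ), wp G l = b * (wp G w) ^ n * b⁻¹ → n * w.length ≤ l.length

/-- AX: part C (PAPER_C.md, AX) -/
def Stmt_AX : Prop :=
  ∀ (Λ : Type) [Finite Λ] (G : SimpleGraph Λ) (I : Set Λ), ∀ g ∈ rsub G I,
    ∃ a ∈ rsub G I, ∃ w : List Λ, (∀ s ∈ w, s ∈ I) ∧ g ^ 2 = a * wp G w * a⁻¹ ∧ Ax1 G w ∧
      ∃ (L : Subgroup (RC G)) (_ : L.FiniteIndex) (χ : L →* Multiplicative (Λ → ℤ)),
        ∀ g' : L, (g' : RC G) * wp G w = wp G w * g' → χ g' = 1 →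
          (g' : RC G) ∈ rsub G {b | ∀ s ∈ w, G.Adj b s}

/-! ## F1. Root systems -/

/-- CMP: components of the Coxeter graph (`Relation.ReflTransGen (fun a b => b ∈ J ∧ k a b ≠ 0)`) -/
def Stmt_CMP : Prop :=
  ∀ (D : Rd) (J : Set D.S), ∀ s ∈ J, ∃ K ⊆ J, s ∈ K ∧ D.Conn K ∧ ∀ s ∈ K, ∀ t ∈ J \ K, D.k s t = 0

/-- CSU (uses BAS, PAR): the support of a root is connected. `φ = ρ w (e s)` with `w ∈ par (J1 ∪ J2)`, `s ∈ J1 ∪ J2` (PAR), and `σ t`, `t ∈ J1`,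
preserves the vectors supported in `J1` and fixes those supported in `J2`, and conversely. -/
def Stmt_CSU : Prop :=
  ∀ (D : Rd) (J1 J2 : Set D.S), (∀ s ∈ J1, ∀ t ∈ J2, D.k s t = 0) → ∀ φ ∈ D.Rt, D.In (J1 ∪ J2) φ →
    D.In J1 φ ∨ D.In J2 φ

/-- CVX (uses BAS, SGN, PAR): convexity. Suppose `¬ In J ν`. If `ν ∈ Ps`, then `On w ν` for all `w ∈ par J` (PAR, last item), so `On w γ` for all
`w ∈ par J`, but `w = rf γ ∈ par J` is not on the positive side of `γ`. If `-ν ∈ Ps`: no `w ∈ par J` is on the positive side of `ν`, nor of `μ`, but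
`rf μ` is. -/
def Stmt_CVX : Prop :=
  ∀ (D : Rd) (J : Set D.S), ∀ μ ∈ D.Rt, ∀ ν ∈ D.Rt, ∀ γ ∈ D.Rt, D.Sub μ ν → D.Sub ν γ → D.In J μ → D.In J γ →
    μ ∉ D.Ps → γ ∈ D.Ps → D.In J ν

/-- TRN (uses BAS, SGN, LEN, NST): translated roots. The roots `h ^ n φ` (`n ∈ ℤ`) are pairwise different. Let `On u φ` (SGN). Then `On u (h ^ n φ)` for
`n ≥ 0`, and only finitely many roots are positive at `u` and negative at `w⁻¹` (LEN). Same for `-h ^ (-n) φ`, as `Sub (h ^ (-n) φ) φ`. Third item (second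
item for `w = 1`, PAR (3)): for `n` large `h ^ n φ ∈ Ps` and `- h ^ (-n) φ ∈ Ps`, but for `s ∉ J` both `h ^ (± n) φ` have the same `s`-coordinate as `φ`. -/
def Stmt_TRN : Prop :=
  ∀ (D : Rd) (h : D.W), ∀ φ ∈ D.Rt, D.Trn h φ →
    (∀ m n : ℕ, m ≠ n → D.ρ (h ^ m) φ ≠ D.ρ (h ^ n) φ) ∧
    (∀ w, ∃ n0 : ℕ, ∀ n, n0 ≤ n → D.ρ (w * h ^ n) φ ∈ D.Ps ∧ -D.ρ (w * h⁻¹ ^ n) φ ∈ D.Ps) ∧
    (∀ J, h ∈ D.par J → D.In J φ)

/-- KCZ (uses BAS, CSU, CMP, PFF, FPR): `0 = B u μ = ∑ μ s * B u (e s)` and all terms are `≤ 0`, so `μ_i` is supported in `Z(u) = {s | B u (e s) = 0}`. For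
`s ∈ Z(u)` with `u s = 0`: `∑ u t * k t s = 0`, terms `≤ 0`, so `s ∈ perp (supp u)`. So `Z(u) = (supp u ∩ Z(u)) ∪ perp (supp u)`, by CSU each `μ_i` is in one of the two
parts, and as `B μ1 μ2 ≠ 0` both are in the same part. Suppose both are supported in `supp u ∩ Z(u)`; let `Z` be the component of `supp u ∩ Z(u)` containing the
support of `μ1` (CMP, CSU); as `B μ1 μ2 ≠ 0` also `μ2` is supported in `Z`. Let `u'` be the restriction of `u` to `Z`; for `t ∈ Z`: `B u' (e t) = B u (e t) - ∑_{r ∉ Z} u r * k r t ≥ 0`.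
If it is `> 0` for some `t ∈ Z` then `par Z` is finite (PFF), and FPR gives `|B μ1 μ2| < 1`. If it is `0` for all `t ∈ Z` then `u' ∈ Kc`, `B u' u' = 0`, so `u' = 0` by `AF`:
impossible. -/
def Stmt_KCZ : Prop :=
  ∀ D : Rd, D.AF → ∀ u ∈ D.Kc, ∀ μ1 ∈ D.Ps, ∀ μ2 ∈ D.Ps, D.B u μ1 = 0 → D.B u μ2 = 0 → D.B μ1 μ2 ≤ -1 →
    D.In (D.perp {s | u s ≠ 0}) μ1 ∧ D.In (D.perp {s | u s ≠ 0}) μ2

/-- NFC (uses BAS, SGN, CMP, PFF). Wlog `β ∈ Ps`. Let `u` = restriction of `β` to `J`: for `s ∈ J`, `B u (e s) = - B (β - u) (e s) ≥ 0`. If `u ≠ 0`, let `Z` be a component of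
`J` meeting the support of `u`, `u'` the restriction of `u` to `Z`: `B u' (e s) = B u (e s) ≥ 0` for `s ∈ Z`. If some is `> 0` then `par Z` is finite (PFF), against `NoFin`. Otherwise
`u' ∈ Kc` is isotropic, `u' = 0`, contradiction. So `u = 0`, and `0 = B β (e s) = ∑ β t * k t s` with all terms `≤ 0` for `s ∈ J`. -/
def Stmt_NFC : Prop :=
  ∀ D : Rd, D.AF → ∀ J : Set D.S, D.NoFin J → ∀ β ∈ D.Rt, (∀ s ∈ J, D.B β (D.e s) = 0) → D.In (D.perp J) β

/-- F3C (uses stage A, CSU, CVX, TRN, KCZ, NFC): the core. Assume all hypotheses. Put `α_i = h ^ i α`, `β_j = g ^ j β` (`i, j ∈ ℤ`). `g α_i = α_i`, `h β_j = β_j`. `B α_i α_j ≥ 1`,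
`B β_i β_j ≥ 1` for `i ≠ j` (NST).
(1) Let `R` be the subgroup generated by all `rf α_i`, `Q = cp w1 JQ` its parabolic closure (PCL). `h` normalises `R`, so also `Q`. `NoFin JQ`: let `K' ⊆ JQ` be a nonempty union of
components with `par K'` finite; the roots `w1⁻¹ α_i` are supported in `JQ` (PAR), so in `K'` or in `JQ \ K'` (CSU), all in the same as `B α_i α_j ≠ 0`; not in `K'` by FPR; so
`R ≤ cp w1 (JQ \ K')`, against the minimality of `Q` (RNK).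
(2) There is `n` such that the parabolic closure of `{rf α_i | -n ≤ i ≤ n}` is `Q` (ranks, RNK), `α_n ∈ Ps`, `-α_{-n} ∈ Ps` (TRN). By IMC there is `w` with `w α_n ∈ Ps`, `-w α_{-n} ∈ Ps`,
`u = w (α_n - α_{-n}) ∈ Kc`. Let `J'` = support of `u`. `w α_n`, `w α_{-n}` are supported in `J'`, so by CVX all `w α_i`, `-n ≤ i ≤ n`, are, and `Q ≤ cp w⁻¹ J'`.
(3) `B (α_n - α_{-n}) β_j = B (h ^ n α) β_j - B (h ^ (-n) α) β_j = B α β_j - B α β_j = 0`. For `m` large `w β_m, -w β_{-m} ∈ Ps` (TRN). KCZ: they are supported in `perp J'`. CVX: `w β` is supported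
in `perp J'`. So `β` is orthogonal to `w⁻¹ V_{J'}`, which contains `w1 V_{JQ}` (RNK (3)). NFC: `w1⁻¹ β` is supported in `perp JQ`.
(4) NRM, DEO: `w1⁻¹ h w1` normalises `par JQ`, so it is in `par (JQ ∪ perp JQ)`, `h ∈ cp w1 (JQ ∪ perp JQ)`, so `par J ≤ cp w1 (JQ ∪ perp JQ)` by `Ess`. For `s ∈ K`, `w1⁻¹ (e s)` is supported in
`JQ ∪ perp JQ`, so in one of them (CSU); `K` is connected, so it is the same for all `s ∈ K` (if `k s t ≠ 0`...). `w1⁻¹ α` is supported in `JQ`, `α ≠ 0` is supported in `K`, so it is `JQ`; then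
`w1⁻¹ β` is supported in `JQ` and in `perp JQ`, so `β = 0`: contradiction. -/
def Stmt_F3C : Prop :=
  ∀ D : Rd, D.AF → ∀ (J K : Set D.S) (h g : D.W), D.Ess J h → K ⊆ J → D.Conn K →
    (∀ s ∈ K, ∀ t ∈ J \ K, D.k s t = 0) → h * g = g * h → ∀ α ∈ D.Rt, ∀ β ∈ D.Rt, D.In K α → D.In K β →
    D.Trn h α → D.ρ g α = α → D.Trn g β → D.ρ h β = β → False

/-! ## F2. Axes -/

/-- F3H (uses BAS, FINO, NST, VX1-VX4, LSX, DEV): the axis. `x0 = b · a`; `h x0 = x0 · wp w`, so `h ^ n x0 = x0 · (wp w) ^ n` and `(x0 \ h ^ n x0).ncard ≤ n * |w|`. By VX4 there is a word `l` of length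
`(x0 \ h ^ n x0).ncard` all of whose letters move, from `x0` to `h ^ n x0`; so `κ (h ^ n x0) = κ x0 * wp l`, and it is `c h ^ n * κ x0`: `wp l = (κ x0)⁻¹ a (wp w) ^ n a⁻¹ κ x0`, and `Ax1` gives
`n * |w| ≤ (x0 \ h ^ n x0).ncard`. So `(x0 \ h ^ n x0).ncard = n * (x0 \ h x0).ncard` for all `n`, and since `x0 \ h ^ n x0 ⊆ ⋃_{i < n} h ^ i (x0 \ h x0)`, this is an equality of sets. So for
`α ∈ x0 \ h x0`: `h ^ i α ∈ x0` for `i ≥ 0` and `h ^ (-i) α ∉ x0` for `i ≥ 1`. In particular `h ^ n α ≠ α`. `rf α * rf (h ^ n α) ∈ H` is not of finite order, so `|B α (h ^ n α)| ≥ 1` (FINO). The vertices `x0`,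
`h x0`, `h ^ (n+1) x0` contain `{α, h ^ n α}`, `{-α, h ^ n α}`, `{-α, -h ^ n α}`. So (NST (2), `Vx.cmp`) `B ≥ 1` and `Sub α (h ^ n α)`. -/
def Stmt_F3H : Prop :=
  ∀ (D : Rd) (H : Subgroup D.W), D.Deep H → ∀ L : LS (D.lg H) D.X, D.IsFlip H L → ∀ b κ c, D.Dev H L b κ c →
    ∀ (h : H) (a : RC (D.lg H)) (w : List (D.Lb H)), c h = a * wp (D.lg H) w * a⁻¹ → Ax1 (D.lg H) w →
      ∀ α ∈ (L.r b a).1, α ∉ D.act h.1 (L.r b a).1 → D.Trn h.1 α

/-- F3G (uses VX1-VX3, LSX, DEV): the grid. If `s, t` are adjacent labels and `s` moves `x` by `φ` (`Mn x φ`, `φ ∈ s`), then `s` moves `τ_t x` by `φ` (clear if `τ_t x = x`; otherwise `t` moves `x` by `ψ`,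
`|B φ ψ| < 1` by `Deep.osc`, VX3 (2)). So if `s` is adjacent to all letters of `l`, then `s` moves `x · wp l` by `φ`. Let `x_i = x0 · w_1 ... w_i`; a root in `x0 \ x0 · wp w` is flipped at some step:
`w_{i+1}` moves `x_i` by `α`. Then `w_{i+1}` moves `x_i · wp l = x0 · wp l · w_1 ... w_i = g x0 · w_1 ... w_i = g x_i` by `α`; but it moves `g x_i` by `g α`. -/
def Stmt_F3G : Prop :=
  ∀ (D : Rd) (H : Subgroup D.W), D.Deep H → ∀ L : LS (D.lg H) D.X, D.IsFlip H L → ∀ b κ c, D.Dev H L b κ c →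
    ∀ (h g : H) (a : RC (D.lg H)) (w l : List (D.Lb H)), c h = a * wp (D.lg H) w * a⁻¹ →
      c g = a * wp (D.lg H) l * a⁻¹ → (∀ s ∈ w, ∀ t ∈ l, (D.lg H).Adj s t) →
      ∀ α ∈ (L.r b a).1, α ∉ D.act h.1 (L.r b a).1 → D.ρ g.1 α = α

/-- F3J (uses BAS, LEN, HGT?, PAR, RNK, VX1): components of the axis. `h = p q`, `p ∈ par K`, `q ∈ par (J \ K)`, commuting; `q` is trivial on `V_K`. If there is no such `α`: `x ∩ V_K ⊆ p (x ∩ V_K)`, so
they are equal (count the differences to `Ps`), so `p ^ n` preserves `x ∩ V_K` for all `n`, so the number of inversions of `p ^ n` (all in `V_K`) is bounded (by twice the number of elements of `x \ Ps`); there are finitely many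
elements of bounded length, so `p ^ n = 1` for some `n > 0`, `h ^ n ∈ par (J \ K)`, `par J ≤ par (J \ K)` by `Ess`: against RNK. -/
def Stmt_F3J : Prop :=
  ∀ (D : Rd) (J K : Set D.S) (h : D.W), D.Ess J h → K ⊆ J → K.Nonempty → (∀ s ∈ K, ∀ t ∈ J \ K, D.k s t = 0) →
    ∀ x, D.Vx x → ∃ α ∈ x, α ∉ D.act h x ∧ D.In K α

/-- F3 (uses AX, CMP, CSU, TRN, F3C, F3H, F3G, F3J, LBF, RNK). AX for `I = {b | ∀ s ∈ w, Adj b s}` and `a⁻¹ * c g * a`: `(a⁻¹ * c g * a) ^ 2 = a1 * wp l * a1⁻¹`, `a1 ∈ rsub I`, letters of `l` in `I`, `Ax1 l`. `a1` commutes with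
`wp w`. With `a2 = a * a1`: `c (h ^ 2) = a2 * wp w * a2⁻¹`, `c (g ^ 2) = a2 * wp l * a2⁻¹`. Suppose `g ≠ 1`. `x0 = b · a2`. `g ^ 2 ≠ 1` (`Deep.tf`), `g ^ 2 x0 ≠ x0` (otherwise `κ x0 = c (g ^ 2) κ x0`), so there is
`β ∈ x0 \ g ^ 2 x0`; F3H: `Trn (g ^ 2) β`; TRN: `β` is supported in `J`; `K` = the component of `J` containing its support (CMP, CSU). `Ess J (h ^ 2)`. F3J: `α ∈ x0 \ h ^ 2 x0` supported in `K`, F3H: `Trn (h ^ 2) α`.
F3G twice: `g ^ 2 α = α`, `h ^ 2 β = β`. `h ^ 2`, `g ^ 2` commute as `c` is injective. F3C. -/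
def Stmt_F3 : Prop :=
  ∀ (D : Rd), D.AF → ∀ (H : Subgroup D.W), D.Deep H → ∀ L : LS (D.lg H) D.X, D.IsFlip H L →
    ∀ b κ c, D.Dev H L b κ c → Function.Injective c →
    ∀ (J : Set D.S) (h : H) (a : RC (D.lg H)) (w : List (D.Lb H)), D.Ess J h.1 →
      c (h ^ 2) = a * wp (D.lg H) w * a⁻¹ → Ax1 (D.lg H) w →
      ∀ g : H, g.1 ∈ D.par J → a⁻¹ * c g * a ∈ rsub (D.lg H) {b | ∀ s ∈ w, (D.lg H).Adj b s} → g = 1

/-! ## F3. Centralisers -/

/-- GAM (uses AX, F3, LBF, LSX, DEV): AX for `c h`, `I = univ`: `a, w, L', χ`. `A = {g ∈ H | g ∈ par J, g h = h g, a⁻¹ * c g * a ∈ L'}`; `M0` = a normal finite index subgroup of `W` inside `{g ∈ H | a⁻¹ * c g * a ∈ L'}`.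
`g ↦ χ (a⁻¹ * c g * a)` is injective on `A` by AX and F3; so `A` is commutative and finitely generated (a subgroup of `Λ → ℤ`). Let `N ≤ A` be of finite index, `B'` = image of `A` in `Λ → ℤ`, `B''` = image of `N`; there is `k > 0` with
`B' ∩ k (Λ → ℤ) ≤ B''` (`(Λ → ℤ) / B''` is a finitely generated abelian group, `B' / B''` is in its torsion subgroup `T`, take `k = |T|`). `M` = a normal finite index subgroup of `W` inside `{g ∈ H | a⁻¹ * c g * a ∈ L', χ (..) ∈ k (Λ → ℤ)}`. -/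
def Stmt_GAM : Prop :=
  ∀ (D : Rd), D.AF → ∀ (H : Subgroup D.W), D.Deep H → ∀ (J : Set D.S), ∀ h ∈ H, D.Ess J h →
    ∃ A : Subgroup D.W, A ≤ D.par J ⊓ Subgroup.centralizer {h} ∧
      (∃ M0 : Subgroup D.W, M0.Normal ∧ M0.FiniteIndex ∧ M0 ⊓ (D.par J ⊓ Subgroup.centralizer {h}) ≤ A) ∧
      (∀ x ∈ A, ∀ y ∈ A, x * y = y * x) ∧ A.FG ∧
      ∀ N ≤ A, N.relIndex A ≠ 0 → ∃ M : Subgroup D.W, M.Normal ∧ M.FiniteIndex ∧ M ⊓ A ≤ N

/-- VAC: virtually abelian groups are conjugacy separable. Wlog `A` is normal (core; finite index subgroups of f.g. groups are f.g.). Coset representatives `t_i`, `y_i = t_i y t_i⁻¹`. `D_i = {a * (y_i * a⁻¹ * y_i⁻¹) | a ∈ A}` is a subgroup of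
`A`, and the conjugates of `y` are the elements of the `D_i * y_i`. If `x` is in none of them: for every `i` with `x * y_i⁻¹ ∈ A` there is `k_i > 0` with `x * y_i⁻¹ ∉ D_i * A ^ {k_i}` (`A / D_i` is a f.g. abelian group, so it is residually finite). `N` = set of `k`-th
powers of elements of `A`, `k` the product of the `k_i`: normal of finite index. -/
def Stmt_VAC : Prop :=
  ∀ (Γ : Type) [Group Γ] (A : Subgroup Γ), A.FiniteIndex → A.FG → (∀ x ∈ A, ∀ y ∈ A, x * y = y * x) → CSep Γ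

/-- ESS (uses PCL, RNK): choose `m` (positive multiple of `n0`), `g`, `J` such that `cp g J` is the parabolic closure of `x ^ m` (PCL for the subgroup generated by `x ^ m`), with `J.ncard` minimal. Then the parabolic closure of `x ^ (m n)` is contained in `cp g J`,
and has the same rank, so it is equal (RNK). -/
def Stmt_ESS : Prop :=
  ∀ (D : Rd) (x : D.W) (n0 : ℕ), 0 < n0 → ∃ m : ℕ, 0 < m ∧ n0 ∣ m ∧ ∃ (g : D.W) (J : Set D.S), D.Ess J (g⁻¹ * x ^ m * g)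

/-- ESN (uses PAR, RNK): if `K ⊆ J` is a nonempty union of components with `par K` finite, `h = p q`, `p ∈ par K`, `q ∈ par (J \ K)`, so `h ^ n ∈ par (J \ K)` for `n = |par K|`, `par J ≤ par (J \ K)`, against RNK. -/
def Stmt_ESN : Prop := ∀ (D : Rd) (J : Set D.S) (h : D.W), D.Ess J h → D.NoFin J

/-- PER (uses BAS, PAR): `par J` and `par (perp J)`: commute, intersect trivially, and generate `par (J ∪ perp J)`. -/
def Stmt_PER : Prop :=
  ∀ (D : Rd) (J : Set D.S), (∀ x ∈ D.par J, ∀ y ∈ D.par (D.perp J), x * y = y * x) ∧ D.par J ⊓ D.par (D.perp J) = ⊥ ∧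
    (∀ z ∈ D.par (J ∪ D.perp J), ∃ x ∈ D.par J, ∃ y ∈ D.par (D.perp J), z = x * y) ∧ D.par J ≤ D.par (J ∪ D.perp J) ∧
    D.par (D.perp J) ≤ D.par (J ∪ D.perp J)

/-- CEN (uses RNK, NRM, DEO, ESN): the parabolic `cp g J` contains `g h g⁻¹ = h`, so `par J ≤ cp g J`, equal by RNK; NRM, DEO. -/
def Stmt_CEN : Prop :=
  ∀ (D : Rd) (J : Set D.S) (h : D.W), D.Ess J h → ∀ g, g * h = h * g → ∃ g1 ∈ D.par J, ∃ g2 ∈ D.par (D.perp J), g = g1 * g2

/-- TOR: the torsion theorem (stage E) -/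
def Stmt_TOR : Prop := ∀ D : Rd, D.AF → ∀ x y : D.W, (∃ n : ℕ, 0 < n ∧ x ^ n = 1) → PC x y → IsConj x y

/-- RTC2: weaker form of `Stmt_RTC` (squares) -/
def Stmt_RTC2 : Prop := ∀ (Λ : Type) [Finite Λ] (G : SimpleGraph Λ) (x y : RC G), RT (x ^ 2) (y ^ 2)

/-- RTW2 (uses RTC2 instead of RTC, same proof as RTW) -/
def Stmt_RTW2 : Prop :=
  ∀ (D : Rd), D.AF → ∀ (H : Subgroup D.W), D.Deep H → ∀ x ∈ H, ∀ y ∈ H, RT (x ^ 2) (y ^ 2)

/-- INF (uses TOR, RTW2 [not RTW: take `n0` = 2 * index of `H`, so `x ^ m`, `y ^ m` are squares of elements of `H`], DEEP, RES, FT, GAM, VAC, ESS, ESN, PER, CEN): `H` deep, `n0` = index of `H`. ESS: `m`; conjugating `x` we may assume `Ess J (x ^ m)`; `h = x ^ m ∈ H`, `y ^ m ∈ H`. RTW for `h`, `y ^ m`: `PC x y` gives `c` with `c y ^ m c⁻¹ = h`, so we may assume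
`y ^ m = h`. (★) for every `M2` (normal, finite index) there is `g` commuting with `h` with `g y g⁻¹ x⁻¹ ∈ M2`: RTW for `h, h` and `M2` gives `M'`; choose `c` with `c y c⁻¹ x⁻¹ ∈ M' ⊓ M2`, then `c h c⁻¹ h⁻¹ ∈ M'`, so there is `μ ∈ M2` such that `g = μ c` commutes with `h`.
CEN: `x = x1 x2`, `y = y1 y2`, `g = g1 g2` with first factors in `par J` commuting with `h`, second factors in `par (perp J)`; `x2 ^ m = y2 ^ m = 1`. For `N2` of finite index in `par (perp J)`, `N1` of finite index in `par J`: FT for `J ∪ perp J` and `N1 N2` gives `M2` with `M2 ⊓ par (J ∪ perp J) ≤ N1 N2`, so there are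
`g1, g2` with `g1 y1 g1⁻¹ x1⁻¹ ∈ N1`, `g2 y2 g2⁻¹ x2⁻¹ ∈ N2`. So `PC x2 y2` in `par (perp J)`, the group of a root system (RES) with `AF`, so they are conjugate there (TOR). `Γ1 = par J ⊓ centralizer {h}`: CSep by VAC and GAM, and
`PC x1 y1` in `Γ1`: given `N` normal of finite index in `Γ1`, GAM gives `M` with `M ⊓ A ≤ N ⊓ A`, and `M0`; take `N1 = M ⊓ M0 ⊓ par J`: `N1 ⊓ Γ1 ≤ N`. -/
def Stmt_INF : Prop := ∀ D : Rd, D.AF → ∀ x y : D.W, (¬ ∃ n : ℕ, 0 < n ∧ x ^ n = 1) → PC x y → IsConj x y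

/-- AFT (uses TOR, INF): the affine-free case -/
def Stmt_AFT : Prop := ∀ D : Rd, D.AF → CSep D.W

end Pool.CS
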