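import Pool.Agent.Work.MP_64ea0f_cs.FlagD

set_option autoImplicit false

/-! # Part D: goodness of right-angled Coxeter groups, transfer, Smith theory (statements, proofs in the comments)

`FlagD.lean` has the definitions (`del`, `Pr`, `Fl`, `Coch`, `Cocy`, `Cob`, `hat`, `mvs`, `rst`, `LS.prod`, `LS.rest`) and all
basic lemmas, proved (`del_congr`, `del_del`, `del_map`, `prism`, `Pr_congr`, `Coch.del`, `Coch.pull`, ...). -/

namespace Pool.CS

/-- goodness in degree `n + 1` for the letters of `A`: after a finite cover every cocycle is a coboundary -/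
def GoodA (F : Type) [AddCommGroup F] {Λ : Type} (G : SimpleGraph Λ) (A : Set Λ) (n : ℕ) : Prop :=
  ∀ (V : Type) [Finite V] (L : LS G V), (∀ a ∉ A, ∀ v, L.τ a v = v) →
    ∀ φ : V → List (Set Λ) → F, Coch L A (n + 1) φ → Cocy G A (n + 1) φ →
    ∃ (V' : Type) (_ : Finite V') (L' : LS G V') (π : V' → V),
      (∀ a ∉ A, ∀ v, L'.τ a v = v) ∧ Function.Surjective π ∧ (∀ a v, π (L'.τ a v) = L.τ a (π v)) ∧
      ∃ ψ : V' → List (Set Λ) → F, Coch L' A n ψ ∧ Cob G A n (fun v => φ (π v)) ψ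

/-! ## D1. Goodness -/

/-- PROD: `Q = {(a, b) ∈ Perm V' × Perm V | π ∘ a = b ∘ π}` (a subtype, finite), `τ t (a, b) = (a * τ'_t, b * τ_t)` for `t ∈ A`, identity for `t ∉ A`;
`ρ (v, (a, b)) = a⁻¹ (ς (b v))`, `ς` a section of `π`. `π (a⁻¹ w) = b⁻¹ (π w)`, and `(a τ'_t)⁻¹ ς (b τ_t τ_t v) = τ'_t a⁻¹ ς (b v)`. -/
def Stmt_PROD : Prop :=
  ∀ (Λ : Type) (G : SimpleGraph Λ) (A : Set Λ) (V V' : Type) [Finite V] [Finite V'] (L : LS G V) (L' : LS G V')
    (π : V' → V), Function.Surjective π → (∀ a ∈ A, ∀ v, π (L'.τ a v) = L.τ a (π v)) →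
    ∃ (Q : Type) (_ : Finite Q) (_ : Nonempty Q) (K : LS G Q) (ρ : V × Q → V'), (∀ a ∉ A, ∀ q, K.τ a q = q) ∧
      (∀ x, π (ρ x) = x.1) ∧ ∀ a ∈ A, ∀ x, ρ ((L.prod K).τ a x) = L'.τ a (ρ x)

/-- GDO: degree one. `g I v = φ v [∅, I]` for `I ≠ ∅`, `g ∅ v = 0`. The cocycle identity for `[∅, I, J]` (`I ≠ ∅`) gives
`φ v [I, J] = g J v - g I v` for `I ⊂ J` (also for `I = ∅`). `lam s v = g {s} (τ_s v) - g {s} v` for `s ∈ A`, `0` otherwise. For an `A`-clique `I` and `s ∈ I`: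
`g I (τ_s v) - g I v = lam s v` (if `I ≠ {s}`: invariance of `φ v [{s}, I]` under `s`). So `lam s (τ_s v) = - lam s v`; for adjacent `s, t ∈ A`, `I = {s, t}`:
`lam s v + lam t (τ_s v) = lam t v + lam s (τ_t v)`. `V' = V × F`, `τ'_s (v, a) = (τ_s v, a + lam s v)`, `ψ (v, a) [I] = g I v - a`, zero on other lists. -/
def Stmt_GDO : Prop :=
  ∀ (Λ : Type) (G : SimpleGraph Λ) (A : Set Λ) (F : Type) [AddCommGroup F] [Finite F], GoodA F G A 0

/-- HAT: if `f` has `del f = 0` on `A`-flags of length `n` then `del (hat f) = 0` on weak `A`-flags of length `n`. If the weak flag `l` is strict it is an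
`A`-flag, and so are its sublists (`del_congr`). Otherwise: claim: if `l` is a weak flag, not strict, and `f'` vanishes on all sublists of `l` which are not
strict, then `del f' l = 0`. Induction on `l = x :: y :: l'`, using `del_two`: if `x = y` the first two terms cancel and `del (fun m => f' (x :: x :: m)) l' = 0`
by `del_eq_zero`; if `x ⊂ y` then `y :: l'` is not strict, `f' (y :: l') = 0`, and use the induction hypothesis for `fun m => f' (x :: m)`
(`del_cons`). -/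
def Stmt_HAT : Prop :=
  ∀ (Λ : Type) (G : SimpleGraph Λ) (A : Set Λ) (F : Type) [AddCommGroup F] (n : ℕ) (f : List (Set Λ) → F),
    (∀ l, Fl G A l → l.length = n → del f l = 0) → ∀ l, Wk G A l → l.length = n → del (hat G A f) l = 0

/-- GSA (uses PROD). Apply `GoodA (A \ {s})` to `(V, L.rest (A \ {s}))` and `φ` (restricted to `A \ {s}`-flags: `Coch.mono`, `Coch.pull`), get
`V', L', π, ψ'`. PROD (with `L`, `L'`, `A \ {s}`) gives `Q₁, K₁, ρ₁`. `Q = Q₁ × Bool`, `K` acts on `Bool` only through `s`, by `not`; `ε (v, (q, b)) = b`.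
`ψ (v, (q, b)) l = hat G (A \ {s}) (ψ' (ρ₁ (v, q))) l`: `Coch` since for an `A`-flag which is an `A \ {s}`-flag this is clear, otherwise both sides are zero; the
identity by `del_congr`. -/
def Stmt_GSA : Prop :=
  ∀ (Λ : Type) (G : SimpleGraph Λ) (A : Set Λ) (s : Λ) (F : Type) [AddCommGroup F] (n : ℕ), s ∈ A →
    GoodA F G (A \ {s}) n →
    ∀ (V : Type) [Finite V] (L : LS G V), (∀ a ∉ A, ∀ v, L.τ a v = v) →
    ∀ φ : V → List (Set Λ) → F, Coch L A (n + 1) φ → Cocy G A (n + 1) φ →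
    ∃ (Q : Type) (_ : Finite Q) (_ : Nonempty Q) (K : LS G Q) (ε : V × Q → Bool), (∀ a ∉ A, ∀ q, K.τ a q = q) ∧
      (∀ a ≠ s, ∀ x, ε ((L.prod K).τ a x) = ε x) ∧ (∀ x, ε ((L.prod K).τ s x) = !ε x) ∧
      ∃ ψ : V × Q → List (Set Λ) → F, Coch (L.prod K) A n ψ ∧
        ∀ x l, Fl G (A \ {s}) l → l.length = n + 2 → φ x.1 l = del (ψ x) l

/-- removing the letter `s` -/
def rmv {Λ : Type} (s : Λ) (x : Set Λ) : Set Λ := x \ {s}

/-- the point of `{v, τ_s v}` on the positive side -/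
def vp {Λ V : Type} {G : SimpleGraph Λ} (L : LS G V) (s : Λ) (ε : V → Bool) (v : V) : V :=
  if ε v then v else L.τ s v

open Classical in
/-- the pushing operator on cochains -/
noncomputable def Dop {Λ V F : Type} [AddCommGroup F] {G : SimpleGraph Λ} (L : LS G V) (A : Set Λ) (s : Λ) (ε : V → Bool)
    (φ : V → List (Set Λ) → F) (v : V) : List (Set Λ) → F
  | [] => 0
  | x :: l => Pr (rmv s) (hat G A (φ (if s ∈ x then vp L s ε v else v))) (x :: l)

/-- the difference of the two cylinders -/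
noncomputable def kap {Λ V F : Type} [AddCommGroup F] {G : SimpleGraph Λ} (L : LS G V) (A : Set Λ) (s : Λ)
    (φ : V → List (Set Λ) → F) (w : V) (l : List (Set Λ)) : F :=
  Pr (rmv s) (hat G A (φ w)) l - Pr (rmv s) (hat G A (φ (L.τ s w))) l

open Classical in
/-- the remaining cocycle -/
noncomputable def kapp {Λ V F : Type} [AddCommGroup F] {G : SimpleGraph Λ} (L : LS G V) (A : Set Λ) (s : Λ) (ε : V → Bool)
    (φ : V → List (Set Λ) → F) (v : V) : List (Set Λ) → F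
  | x :: y :: l => if ε v = false ∧ s ∉ x ∧ s ∈ y then kap L A s φ (L.τ s v) (y :: l) else 0
  | _ => 0

/-- GSB (uses HAT): the pushing operator. `Coch`: for an `A`-flag `x :: l`, `l.length = n + 1`, and `t ∈ x`: all lists which occur in `Pr (rmv s) (hat φ(w)) (x :: l)` begin
with `rmv s x` and have length `n + 3` (`Pr_congr`, `Coch.hat`); `t = s`: `vp (τ_s v) = vp v`; `t ≠ s`: if `s ∉ x` the point `v` is replaced by `τ_t v`, `t ∈ rmv s x`; if `s ∈ x` then `t, s`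
are adjacent and `vp (τ_t v) = τ_t (vp v)`. The formula on an `A`-flag `x :: y :: l` (`l.length = n + 1`), `v_x = if s ∈ x then vp v else v`:
`del (D φ v) (x :: y :: l) = [Pr (hat φ(v_y)) (y :: l) - Pr (hat φ(v_x)) (y :: l)] + del (Pr (hat φ(v_x))) (x :: y :: l)`; by `prism` the last term is
`hat φ(v_x) (x :: y :: l) - hat φ(v_x) (map (rmv s) ..) - Pr (del (hat φ(v_x))) (x :: y :: l)`; the second is zero (`hs`: either an `A \ {s}`-flag or not strict), the third by HAT (all lists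
`map (rmv s) l1 ++ rmv s x' :: x' :: l2` are weak `A`-flags, `Pr_eq_zero`), the first is `φ v (x :: y :: l)` by `Coch`. The bracket is nonzero only if `s ∈ y`, `s ∉ x`, `ε v = false`, where it
is `kap (τ_s v) (y :: l)`. -/
def Stmt_GSB : Prop :=
  ∀ (Λ : Type) (G : SimpleGraph Λ) (A : Set Λ) (s : Λ) (F : Type) [AddCommGroup F] (n : ℕ), s ∈ A →
    ∀ (V : Type) (L : LS G V) (ε : V → Bool), (∀ a ≠ s, ∀ v, ε (L.τ a v) = ε v) → (∀ v, ε (L.τ s v) = !ε v) →
    ∀ φ : V → List (Set Λ) → F, Coch L A (n + 2) φ → Cocy G A (n + 2) φ →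
    (∀ v l, Fl G (A \ {s}) l → l.length = n + 3 → φ v l = 0) →
    Coch L A (n + 1) (Dop L A s ε φ) ∧
      ∀ v l, Fl G A l → l.length = n + 3 → del (Dop L A s ε φ v) l = φ v l + kapp L A s ε φ v l

/-- GSC (uses HAT): `kap` on flags of cliques containing `s`, as a cocycle in the link `B = {b ∈ A | G.Adj s b}` of `s`. For a `B`-flag `m`, `m.map (insert s)` is an `A`-flag and
`map (rmv s)` gives back `m`. `Coch`: for `b :: m`, `t ∈ b`: all lists which occur start with `rmv s (insert s b) = b` (`Pr_congr`, `Coch.hat`), and `τ_s τ_t w = τ_t τ_s w`. `Cocy`: `del_map`, `prism`: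
`del (Pr (hat φ(w))) (map (insert s) m) = φ w (map (insert s) m) - φ w m - Pr (del (hat φ(w))) (..)`, the second is zero by the last hypothesis, the third by HAT; the first is the
same for `w` and `τ_s w`. -/
def Stmt_GSC : Prop :=
  ∀ (Λ : Type) (G : SimpleGraph Λ) (A : Set Λ) (s : Λ) (F : Type) [AddCommGroup F] (n : ℕ), s ∈ A →
    ∀ (V : Type) (L : LS G V) (φ : V → List (Set Λ) → F), Coch L A (n + 2) φ → Cocy G A (n + 2) φ →
    (∀ v l, Fl G (A \ {s}) l → l.length = n + 3 → φ v l = 0) →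
    Coch L {b ∈ A | G.Adj s b} (n + 1) (fun w m => kap L A s φ w (m.map (insert s))) ∧
      Cocy G {b ∈ A | G.Adj s b} (n + 1) (fun w m => kap L A s φ w (m.map (insert s)))

/-- GSD (uses PROD): killing the remaining cocycle. Let `B = {b ∈ A | G.Adj s b}`. `GoodA B n` for `(V, L.rest B)` and `κB w m = kap w (m.map (insert s))` gives `V'', L'', π, ω`; PROD (with `L, L'', B`)
gives `Q, K, ρ`. `Ω (v, q) (x :: y :: l) = ω (ρ (τ_s v, q)) (map (rmv s) (y :: l))` if `ε v = false, s ∉ x, s ∈ y`, zero otherwise. `Coch`: `t ∈ x`, `s ∉ x`, `s ∈ y`, so `t ∈ B`, `ε (τ_t v) = ε v`,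
`ρ (τ_s τ_t v, τ_t q) = τ''_t (ρ (τ_s v, q))`, `t` is in the first member of the `B`-flag `map (rmv s) (y :: l)`. The formula on an `A`-flag `x :: y :: z :: l`: everything is zero if `ε v = true` or `s ∈ x`;
`s ∉ x, s ∈ y`: `Ω (y :: z :: l) = 0` and the rest is `- del (fun m => ω (ρ (τ_s v, q)) (m.map (rmv s))) (y :: z :: l) = - κB (τ_s v) (map (rmv s) (y :: z :: l)) = - kap (τ_s v) (y :: z :: l)` (`del_cons`, `del_congr`,
`del_map`, `Cob`); `s ∉ x, s ∉ y, s ∈ z`: the terms `Ω (y :: z :: l)` and `Ω (x :: z :: l)` are equal, the rest is zero (`del_two`, `del_eq_zero`); `s ∉ z`: all zero. -/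
def Stmt_GSD : Prop :=
  ∀ (Λ : Type) (G : SimpleGraph Λ) (A : Set Λ) (s : Λ) (F : Type) [AddCommGroup F] (n : ℕ), s ∈ A →
    GoodA F G {b ∈ A | G.Adj s b} n →
    ∀ (V : Type) [Finite V] (L : LS G V) (ε : V → Bool), (∀ a ≠ s, ∀ v, ε (L.τ a v) = ε v) →
    (∀ v, ε (L.τ s v) = !ε v) →
    ∀ φ : V → List (Set Λ) → F,
    Coch L {b ∈ A | G.Adj s b} (n + 1) (fun w m => kap L A s φ w (m.map (insert s))) →
    Cocy G {b ∈ A | G.Adj s b} (n + 1) (fun w m => kap L A s φ w (m.map (insert s))) →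
    ∃ (Q : Type) (_ : Finite Q) (_ : Nonempty Q) (K : LS G Q) (Ω : V × Q → List (Set Λ) → F),
      (∀ a ∉ A, ∀ q, K.τ a q = q) ∧ Coch (L.prod K) A (n + 1) Ω ∧
      ∀ x l, Fl G A l → l.length = n + 3 → del (Ω x) l = -kapp L A s ε φ x.1 l

/-- GSE (uses GSA, GSB, GSC, GSD): the induction step. GSA (with `n + 1`): `Q₁, K₁, ε, ψ₁`; on `V × Q₁`: `φ₁ x = φ x.1 - δ ψ₁ x` is a cochain, a cocycle (`del_del`) and vanishes on
`A \ {s}`-flags. GSB, GSC, GSD: `V' = (V × Q₁) × Q₂`, `ψ (x, q) = ψ₁ x + D φ₁ x + Ω (x, q)`. -/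
def Stmt_GSE : Prop :=
  ∀ (Λ : Type) (G : SimpleGraph Λ) (A : Set Λ) (s : Λ) (F : Type) [AddCommGroup F] (n : ℕ), s ∈ A →
    GoodA F G (A \ {s}) (n + 1) → GoodA F G {b ∈ A | G.Adj s b} n → GoodA F G A (n + 1)

/-- GOOD (uses GDO, GSE): strong induction on `A.ncard`, for all `n`; `A = ∅`: there are no flags of length `≥ 2`, take `V' = V`, `ψ = 0`. -/
def Stmt_GOOD : Prop :=
  ∀ (Λ : Type) [Finite Λ] (G : SimpleGraph Λ) (F : Type) [AddCommGroup F] [Finite F] (A : Set Λ) (n : ℕ), GoodA F G A n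

/-! ## D2. Transfer to true flags -/

/-- TRR (uses HAT). Let `l = x :: l'` be a flag and `s ∈ x` move `y`. For `t` in a member `I` of `l`: `t = s` or `t, s` adjacent, so `t` moves `τ_s y` iff it moves `y` (`Mv`): the lists
`l.map (· ∩ mvs (τ_s y))` and `l.map (· ∩ mvs y)` are equal; they are `mvs`-flags at the same time. `Cocy`: `del_map` and HAT for `f = φ y`, `A = mvs L y` (the list `l.map (· ∩ mvs y)` is a weak flag). The last item:
`l.map (· ∩ mvs y) = l`. -/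
def Stmt_TRR : Prop :=
  ∀ (Λ : Type) (G : SimpleGraph Λ) (F : Type) [AddCommGroup F] (Y : Type) (L : LS G Y) (n : ℕ) (φ : Y → List (Set Λ) → F),
    Mv L → TCoch L (n + 1) φ → (∀ y l, Fl G (mvs L y) l → l.length = n + 3 → del (φ y) l = 0) →
    Coch L Set.univ (n + 1) (rst L φ) ∧ Cocy G Set.univ (n + 1) (rst L φ) ∧
      ∀ y l, Fl G (mvs L y) l → rst L φ y l = φ y l

/-- TRF (uses PROD, GOOD, TRR). `V = M \ Y` (`MulAction.orbitRel.Quotient M Y`) with the induced `LS`; `φ' v = rst L φ (out v)`; for `l` of length `n + 2`, `φ' [y] l = rst L φ y l` by invariance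
(`mvs L (m • y) = mvs L y`). GOOD (`A = univ`) and PROD: `Q, K, ρ, ψ'`; `q₀ ∈ Q`; `N` = kernel of `K.hom`; `ψ y = ψ' (ρ ([y], K.r q₀ (κ y)))`. -/
def Stmt_TRF : Prop :=
  ∀ (Λ : Type) [Finite Λ] (G : SimpleGraph Λ) (F : Type) [AddCommGroup F] [Finite F] (Y : Type) (L : LS G Y)
    (M : Type) [Group M] [MulAction M Y] (κ : Y → RC G) (c : M → RC G) (n : ℕ) (φ : Y → List (Set Λ) → F),
    Mv L → (∀ (m : M) s y, L.τ s (m • y) = m • L.τ s y) → Finite (MulAction.orbitRel.Quotient M Y) →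
    (∀ s y, L.τ s y ≠ y → κ (L.τ s y) = κ y * rg G s) → (∀ (m : M) y, κ (m • y) = c m * κ y) →
    TCoch L (n + 1) φ → (∀ y l, Fl G (mvs L y) l → l.length = n + 3 → del (φ y) l = 0) →
    (∀ (m : M) y l, Fl G (mvs L y) l → l.length = n + 2 → φ (m • y) l = φ y l) →
    ∃ N : Subgroup (RC G), N.Normal ∧ N.FiniteIndex ∧ ∃ ψ : Y → List (Set Λ) → F, TCoch L n ψ ∧
      (∀ y l, Fl G (mvs L y) l → l.length = n + 2 → φ y l = del (ψ y) l) ∧
      ∀ m : M, c m ∈ N → ∀ y l, Fl G (mvs L y) l → l.length = n + 1 → ψ (m • y) l = ψ y l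

/-! ## D3. Smith theory -/

/-- SMF: functions on a set with a map `σ`, `σ^p = id`, `p` prime: the orbits have one or `p` points. Choose a representative `ρ` in every orbit. (1) `g = f` at the representatives of the free orbits, zero elsewhere: for `x` not
fixed exactly one `j < p` has `σ^j x = ρ`. (2) `g (σ^j ρ) = ∑ i < j, f (σ^i ρ)` for `0 ≤ j < p`, `ρ` a representative of a free orbit, `g = 0` at fixed points. -/
def Stmt_SMF : Prop :=
  ∀ (X : Type) (σ : X → X) (p : ℕ), p.Prime → (∀ x, σ^[p] x = x) → ∀ (F : Type) [AddCommGroup F] (f : X → F),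
    (∀ x, σ x = x → f x = 0) →
    ((∀ x, f (σ x) = f x) → ∃ g : X → F, (∀ x, σ x = x → g x = 0) ∧
      ∀ x, f x = ∑ j ∈ Finset.range p, g (σ^[j] x)) ∧
    ((∀ x, ∑ j ∈ Finset.range p, f (σ^[j] x) = 0) → ∃ g : X → F, (∀ x, σ x = x → g x = 0) ∧
      ∀ x, f x = g (σ x) - g x)

/-- a tower of simplicial sets with an action of `σ`; only the coboundary maps are recorded -/
structure Tow (p : ℕ) (F : Type) [AddCommGroup F] where
  /-- `S j k`: the `k`-simplices of the level `j` -/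
  S : ℕ → ℕ → Type
  pr : ∀ j k, S (j + 1) k → S j k
  σ : ∀ j k, S j k → S j k
  δ : ∀ j k, (S j k → F) →+ (S j (k + 1) → F)
  pow : ∀ j k x, (σ j k)^[p] x = x
  prσ : ∀ j k x, pr j k (σ (j + 1) k x) = σ j k (pr j k x)
  δδ : ∀ j k f, δ j (k + 1) (δ j k f) = 0
  δσ : ∀ j k (f : S j k → F), δ j k (fun x => f (σ j k x)) = fun x => δ j k f (σ j (k + 1) x)
  δpr : ∀ j k (f : S j k → F), δ (j + 1) k (fun x => f (pr j k x)) = fun x => δ j k f (pr j (k + 1) x)
  /-- the faces of a fixed simplex are fixed -/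
  loc : ∀ j k (f : S j k → F), (∀ x, σ j k x = x → f x = 0) → ∀ x, σ j (k + 1) x = x → δ j k f x = 0

/-- the projection from level `j` to level `0` -/
def Tow.to0 {p : ℕ} {F : Type} [AddCommGroup F] (T : Tow p F) (k : ℕ) : ∀ j, T.S j k → T.S 0 k
  | 0 => fun x => x
  | j + 1 => fun x => T.to0 k j (T.pr j k x)

/-- SMITH (uses SMF). `N f = ∑ j < p, f ∘ σ^j`, `τ f = f ∘ σ - f`, `θ i = N` for odd `i`, `τ` for even `i`; they commute with `δ` and with pullback and `N τ = τ N = 0`. (1) On level 0 there are `g i`, `i ≤ d`, with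
`g 0 = f`, `δ (g i) = θ (i + 1) (g (i + 1))` for `i < d`, `g i` zero at fixed simplices for `i ≥ 1`: `δ f` is invariant and vanishes on fixed simplices, SMF (1) gives `g 1`; `δ (g i)` vanishes at fixed
simplices (`loc`), and `θ i (δ (g i)) = δ (δ (g (i - 1))) = 0`, so SMF gives `g (i + 1)`. (For `i` even, `θ (i+1) = N`: `τ (δ (g i)) = 0` says invariance.) And `δ (g d) = 0` as there are no `(d+1)`-simplices. (2) By
induction on `t`: for `i + t = d` there is `k : S t i → F` with `δ (pull_t (g i) - θ (i + 1) k) = 0`: `t = 0`: `k = 0`. `t + 1`: take `k'` for `(t, i + 1)`; the hypothesis `van` gives `k` on level `t + 1` with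
`δ k = pr^* (pull_t (g (i + 1)) - θ (i + 2) k')`; apply `θ (i + 1)`. (3) `i = 0, t = d`: `pull_d f - N k` is a cocycle, so it takes the same value at `a` and `b`, and `N k = p k = 0` at fixed vertices. -/
def Stmt_SMITH : Prop :=
  ∀ (p : ℕ) [Fact p.Prime] (T : Tow p (ZMod p)) (d : ℕ),
    (∀ j k, j < d → k + 1 ≤ d → ∀ f : T.S j (k + 1) → ZMod p, T.δ j (k + 1) f = 0 →
      ∃ g : T.S (j + 1) k → ZMod p, T.δ (j + 1) k g = fun x => f (T.pr j (k + 1) x)) →
    IsEmpty (T.S 0 (d + 1)) →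
    (∀ f : T.S d 0 → ZMod p, T.δ d 0 f = 0 → ∀ a b, f a = f b) →
    ∀ f : T.S 0 0 → ZMod p, (∀ x, f (T.σ 0 0 x) = f x) → (∀ e, T.σ 0 1 e = e → T.δ 0 0 f e = 0) →
    ∀ a b : T.S d 0, T.σ d 0 a = a → T.σ d 0 b = b → f (T.to0 0 d a) = f (T.to0 0 d b)

end Pool.CS
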