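import Pool.Agent.Work.MP_64ea0f_cs.InterfaceG3

set_option autoImplicit false

/-! # Stage G, part 2b: finitely many orbits of folded vertices (block FOR) -/

namespace Pool.CS

namespace Rd
variable (D : Rd)

/-- the chamber `1` is closest to the vertex `x` -/
def Cls (x : Set D.V) : Prop := D.Vx x ∧ ∀ w, (x \ D.Ps).ncard ≤ (x \ D.act w D.Ps).ncard

end Rd

/-- CLO (uses VX1): closest chambers -/
def Stmt_CLO : Prop := ∀ (D : Rd) (x : Set D.V), D.Vx x → ∃ w, D.Cls (D.act w x)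

/-- SAF (G1): the standard affine vectors are finitely many (one for each support) -/
def Stmt_SAF : Prop := ∀ D : Rd, {u | D.Sa u}.Finite

/-- FIN1 (G2, from SM): negative roots of a closest vertex -/
def Stmt_FIN1 : Prop :=
  ∀ (D : Rd) (C : ℝ), {μ | μ ∈ D.Ps ∧ ∃ x, D.Cls x ∧ -μ ∈ x ∧ ∀ u, D.Sa u → D.Far ∅ C x u → μ ∉ D.Fd u}.Finite

/-- FIN2 (G2, from SM): minimal roots of a closest vertex -/
def Stmt_FIN2 : Prop :=
  ∀ (D : Rd) (C : ℝ), {φ | ∃ x, D.Cls x ∧ D.Mn x φ ∧ ∀ u, D.Sa u → D.Far ∅ C x u → φ ∉ D.Fd u}.Finite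

/-- RAT (linear algebra): `ℓ i` rational vectors, `ν` a rational vector orthogonal to all rational combinations of the `ℓ i` which vanish on `R0`; then it is orthogonal to the real ones. (The functional `r ↦ ∑ ν α * ∑ r i * ℓ i α` on `ℚ^I` vanishes on the kernel of `r ↦ (∑ r i * ℓ i ρ)_{ρ ∈ R0}`, so it is a rational linear function of it.)
Second part: a rational vector which on `R0` is a real combination of the `ℓ i` is there a rational combination (otherwise there is a rational functional on `ℚ^{R0}` vanishing on the `ℓ i` but not on it). -/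
def Stmt_RAT : Prop :=
  ∀ (A I : Type) [Fintype A] [Fintype I] (ℓ : I → A → ℚ) (R0 : Set A),
    (∀ ν : A → ℚ, (∀ r : I → ℚ, (∀ ρ ∈ R0, ∑ i, r i * ℓ i ρ = 0) → ∑ α, ν α * ∑ i, r i * ℓ i α = 0) →
      ∀ r : I → ℝ, (∀ ρ ∈ R0, ∑ i, r i * (ℓ i ρ : ℝ) = 0) → ∑ α, (ν α : ℝ) * ∑ i, r i * (ℓ i α : ℝ) = 0) ∧
    (∀ d : A → ℚ, (∃ r : I → ℝ, ∀ ρ ∈ R0, (d ρ : ℝ) = ∑ i, r i * (ℓ i ρ : ℝ)) → ∃ r : I → ℚ, ∀ ρ ∈ R0, d ρ = ∑ i, r i * ℓ i ρ)

/-- LTR (uses THR, ORT, BAS): translations. For `φ ∈ Fd δ`, `T = rf (φ + c δ) * rf φ`, `c = cst δ φ`: `T ψ = ψ + 2 c B ψ φ • δ` for `ψ ∈ Fd δ`, `T μ = μ` for `μ ∈ Fp δ`, `T δ = δ`, and `T ^ q ∈ M`, `q` the index of `M`; products. Every functional `θ` with `θ δ = 0` is on `Fd δ` a combination of the `B (·) φ`, `φ ∈ Fd δ` (the form on the span of `Fd δ` modulo `δ` is positive definite). -/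
def Stmt_LTR : Prop :=
  ∀ (D : Rd) (δ : D.V), D.Af δ → ∀ M : Subgroup D.W, M.Normal → M.FiniteIndex → ∃ q : ℕ, 0 < q ∧ ∀ A, D.Dirs δ A →
    (∀ n : D.V → ℤ, ∃ t ∈ M, D.ρ t δ = δ ∧ (∀ μ ∈ D.Fp δ, D.ρ t μ = μ) ∧
      ∀ ψ ∈ D.Fd δ, D.ρ t ψ = ψ + (∑ α ∈ A, n α * (2 * q * D.cst δ α * D.B ψ α)) • δ) ∧
    (∀ α ∈ A, ∀ ψ ∈ D.Fd δ, ∃ i : ℤ, 2 * D.cst δ α * D.B ψ α = i * D.cst δ ψ) ∧
    (∀ θ : D.V →ₗ[ℝ] ℝ, θ δ = 0 → ∃ r : D.V → ℝ, ∀ ψ ∈ D.Fd δ, θ ψ = ∑ α ∈ A, r α * D.B ψ α)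

/-- LAT (uses THR, ORT, LTR, RAT): the lattice lemma. `A` = directions, `ℓ_φ α = 2 q c_φ B α φ / c_α ∈ ℤ` (LTR), `R0` = directions of elements of `T0` (up to sign). For a rational `d` on `A` which on `R0` agrees with a combination of the `ℓ_φ` (RAT, second part): `d = u + ν`, `u` a rational combination of the `ℓ_φ`, `ν = 0` on `R0`, `ν` orthogonal to the rational combinations of the
`ℓ_φ` vanishing on `R0` (orthogonal projection over `ℚ`); by RAT `ν` is orthogonal to the real ones, and every functional `χ'` with `χ' δ = 0`, `χ' = 0` on `T0` is one of them (LTR). The integral vectors `d` with this property form a finitely generated group; `E` = `N` times a common denominator for its generators: then for `d ∈ E ℤ^A`, `u` is an integral combination of the `N ℓ_φ` and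
`ν ∈ N ℤ^A`. The condition on `T0` depends only on its directions: take the product of the `E`'s over all sets of directions. `t` from LTR. -/
def Stmt_LAT : Prop :=
  ∀ (D : Rd) (δ : D.V), D.Af δ → ∀ M : Subgroup D.W, M.Normal → M.FiniteIndex → ∀ N : ℕ, 0 < N → ∃ E : ℕ, 0 < E ∧
    ∀ T0 ⊆ D.Fd δ, ∀ d : D.V → ℤ, (∀ φ ∈ D.Fd δ, ∀ t : ℝ, φ + t • δ ∈ D.Fd δ → d (φ + t • δ) = d φ) →
      (∀ φ ∈ D.Fd δ, d (-φ) = -d φ) → (∀ φ ∈ D.Fd δ, (E : ℤ) ∣ d φ) →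
      (∃ θ : D.V →ₗ[ℝ] ℝ, θ δ = 0 ∧ ∀ φ ∈ T0, (d φ : ℝ) * D.cst δ φ = θ φ) →
      ∃ t ∈ M, D.ρ t δ = δ ∧ (∀ μ ∈ D.Fp δ, D.ρ t μ = μ) ∧ ∃ χ : D.V →ₗ[ℝ] ℝ, χ δ = 0 ∧
        (∀ φ ∈ D.Fd δ, D.ρ t φ = φ + χ φ • δ) ∧ ∃ ν : D.V → ℤ,
          (∀ φ ∈ D.Fd δ, χ φ + ν φ * D.cst δ φ = d φ * D.cst δ φ) ∧
          (∀ φ ∈ D.Fd δ, ∀ t : ℝ, φ + t • δ ∈ D.Fd δ → ν (φ + t • δ) = ν φ) ∧
          (∀ φ ∈ D.Fd δ, ν (-φ) = -ν φ) ∧ (∀ φ ∈ D.Fd δ, (N : ℤ) ∣ ν φ) ∧ (∀ φ ∈ T0, ν φ = 0) ∧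
          (∀ A, D.Dirs δ A → ∀ χ' : D.V →ₗ[ℝ] ℝ, χ' δ = 0 → (∀ φ ∈ T0, χ' φ = 0) →
            ∑ α ∈ A, (ν α : ℝ) * χ' α / D.cst δ α = 0)

/- FOR (`Stmt_FOR` in InterfaceG3; uses CLO, SAF, FIN1, FIN2, FAR1, FAR2, ORD, ORT, THR, LAT, CSU, BAS, VX1, NRM). `C` = constant of FAR1 for `K = ∅`. For `x ∈ YJ K` choose `w_x` with `x' = w_x x` closest (CLO). Invariants of `x` (finitely many values in all):
(i) the coset of `w_x` modulo `M`; (ii) `F = {u | Sa u, Far ∅ C x' u}`; (iii) `{μ ∈ Ps | -μ ∈ x', μ ∉ Fd u for all u ∈ F}` (a subset of the finite set of FIN1); (iv) for `s ∈ K` (`e s` is minimal in `x`, so `w_x (e s)` is minimal in `x'`, so in `Fd u ∪ Fp u` for `u ∈ F` by FAR1): whether `w_x (e s) ∈ Fd u`, `u ∈ F`, then `u` and the direction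
(in `± A_u`); if it is in no `Fd u`, `u ∈ F`, the root `w_x (e s)` itself (FIN2); (v) for `u ∈ F` and `α ∈ A_u` (`Dirs u A_u`) the threshold of `x'` in the direction `α` modulo `E`, `E` = product of the constants of LAT for all standard `u`, and `M`, `N`.
Claim: if `x, y` have the same invariants then `MR K N (act m x) y` for some `m ∈ M ∩ NJ K` (then take one `y` for every value of the invariants). For `u ∈ F` let `d φ` = (threshold of `y'`) - (threshold of `x'`) in the direction of `φ ∈ Fd u`: `φ ∈ y' ↔ φ - (d φ * cst u φ) • u ∈ x'`, divisible by `E`. `T0 = {w_x φ | φ ∈ Rt, In K φ} ∩ Fd u`. `K = K_u ∪ K_u'`, `K_u = {s ∈ K | w_x (e s) ∈ Fd u}`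
(the same for `y`), `w_x (e s) ∈ Fp u` for `s ∈ K_u'`, so the two parts are orthogonal and for `w_x φ ∈ T0`, `φ` is supported in `K_u` (CSU). Since `w_x φ`, `w_y φ` are thresholds of `x'`, `y'` (minimal) in the same direction (for `s ∈ K_u` by (iv), in general by linearity) `w_y φ = w_x φ + d (w_x φ) cst • u`. `θ`: the vectors `u`, `w_x (e s)` (`s ∈ K_u`) are
linearly independent (the form is positive definite on the span of the `e s`, `s ∈ K_u`: PSD/finite type, and `u` is in the radical), so there is a functional `θ` with `θ u = 0`, `θ (w_x (e s)) = d (w_x (e s)) cst`. LAT gives `t_u ∈ M`, `χ_u`, `ν_u`. `t` = product of the `t_u`, `u ∈ F` (they fix `Fd u'`, `u' ∈ F`, `u' ≠ u`, pointwise: ORD). `m = w_y⁻¹ t w_x ∈ M` by (i). `t w_x (e s) = w_y (e s)` for all `s ∈ K`,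
so `m (e s) = e s` for `s ∈ K` and `m ∈ NJ K`. `t x'` agrees with `x'` outside of the `Fd u`, `u ∈ F` (for `B μ u < 0`: `μ ∈ x'` as `x'` is big, and `t` preserves `B (·) u`; `Fp u` is fixed), so with `y'` by (iii); on `Fd u`: `φ ∈ y' ↔ φ - (ν_u φ * cst) • u ∈ t x'`. So `MSh K N Δ ν (w_y⁻¹ t x') y` with `Δ = w_y⁻¹ F`, `ν (w_y⁻¹ u) φ = ν_u (w_y φ)`. -/

end Pool.CS
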