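import Pool.Agent.Work.MP_64ea0f_cs.InterfaceG4
import Pool.Agent.Work.MP_64ea0f_cs.InterfaceG2b

set_option autoImplicit false

/-! # Stage G, parts 1 and 2: affine basics, near and far vertices, finiteness without the affine-free condition

Statements with proofs in the comments. Notation as in `Defs3.lean`, `InterfaceG3.lean`. `Sa u`: standard affine vector, `sp u` its support, `Φ_J` = roots supported in `J`. The targets are `Stmt_THR`, `Stmt_ORT`, `Stmt_ORD`,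
`Stmt_FAR1`, `Stmt_FAR3` (InterfaceG3), `Stmt_DEEPG` (InterfaceG4), `Stmt_SAF`, `Stmt_FIN1`, `Stmt_FIN2` (InterfaceG2b). -/

namespace Pool.CS
namespace Rd
variable (D : Rd)

/-- support -/
def sp (u : D.V) : Set D.S := {s | u s ≠ 0}

end Rd

/-! ## G1. Affine parabolic subgroups -/

/-- COE (uses BAS, SGN, PAR, HGT): nonzero coordinates of positive roots are at least one. Among the roots `ρ w φ`, `w ∈ par {t | t ≠ s}` (same coordinate `φ s > 0` at `s`, so they are in `Ps`) choose one of minimal height (HGT); call it `φ`. For `t ≠ s`: `ht (σ_t φ) = ht φ - 2 B φ (e t) ≥ ht φ`, so `B φ (e t) ≤ 0`.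
`1 = B φ φ = ∑ φ t * B φ (e t) ≤ φ s * B φ (e s)`, and `B φ (e s) = φ s + ∑_{t ≠ s} φ t * k t s ≤ φ s`. So `1 ≤ (φ s)²`. -/
def Stmt_COE : Prop := ∀ (D : Rd), ∀ φ ∈ D.Ps, ∀ s, φ s ≠ 0 → 1 ≤ φ s

/-- SAV (uses BAS, SGN, PAR, IMC, CSU, PSD): standard affine vectors. (1) `u ∈ Kc`. (2), (5): for `u s = 0`, `B u (e s) = ∑_{t ∈ sp u} u t * k t s ≤ 0`, with equality iff all `k t s = 0`, i.e. `s ∈ perp (sp u)` (PSD (1), (2)). (3) wlog `φ ∈ Ps`: `0 = B u φ = ∑ φ s * B u (e s)`, all terms `≤ 0`, so `φ` is supported in `sp u ∪ perp (sp u)`; CSU.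
(4) bilinearity. (6) IMC (3): `u' = ρ w u ∈ Kc`, so `ρ w u = u`, `w ∈ par {s | B u (e s) = 0}`. (7) the generators fix `u`. (8) `u'` is supported in `sp u` and isotropic: PSD (3) gives `u' = t • u`, heights: `t = 1`. (9) by (8) `u` is determined by its support. The last item is `Stmt_SAF` of InterfaceG2b. -/
def Stmt_SAV : Prop :=
  ∀ D : Rd, (∀ u, D.Sa u →
    (∀ φ ∈ D.Ps, D.B u φ ≤ 0) ∧ (∀ s, D.B u (D.e s) = 0 ↔ s ∈ D.sp u ∪ D.perp (D.sp u)) ∧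
    (∀ φ ∈ D.Rt, D.B u φ = 0 → D.In (D.sp u) φ ∨ D.In (D.perp (D.sp u)) φ) ∧
    (∀ φ, D.In (D.perp (D.sp u)) φ → ∀ v, D.In (D.sp u) v → D.B v φ = 0) ∧
    (∀ v, D.In (D.sp u) v → D.B u v = 0) ∧
    (∀ w u', D.Sa u' → D.ρ w u = u' → u' = u ∧ w ∈ D.par (D.sp u ∪ D.perp (D.sp u))) ∧
    (∀ w ∈ D.par (D.sp u ∪ D.perp (D.sp u)), D.ρ w u = u) ∧
    (∀ u', D.Sa u' → D.In (D.sp u) u' → u' = u) ∧ (∀ s, 0 ≤ u s) ∧ (D.sp u).Nonempty) ∧
    {u | D.Sa u}.Finite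

/-- BFN (uses BAS, PAR, FINO, PCL, FPR): crossing pairs are finitely many modulo `W`. FINO: `(rf φ * rf ψ) ^ k = 1`, so the subgroup generated by the involutions `rf φ`, `rf ψ` is finite (elements `(rf φ * rf ψ) ^ i` and `(rf φ * rf ψ) ^ i * rf φ`). PCL: it is contained in `cp g J`, `par J` finite; so `ρ g⁻¹ φ`, `ρ g⁻¹ ψ` are supported in `J`
(PAR (5); `rf (ρ g⁻¹ φ) = g⁻¹ * rf φ * g`). `P` = all pairs of roots supported in a `J` with `par J` finite (FPR). -/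
def Stmt_BFN : Prop :=
  ∀ (D : Rd), (∃ P : Set (D.V × D.V), P.Finite ∧
    ∀ φ ∈ D.Rt, ∀ ψ ∈ D.Rt, |D.B φ ψ| < 1 → ∃ w : D.W, (D.ρ w φ, D.ρ w ψ) ∈ P) ∧
    {r : ℝ | ∃ φ ∈ D.Rt, ∃ ψ ∈ D.Rt, |D.B φ ψ| < 1 ∧ r = D.B φ ψ}.Finite

/-- DRS (uses BAS, SGN, PAR, PSD, SAV, DIM): finitely many directions, infinitely many roots. (1) Let `A` be a finite set of roots supported in `sp u` with `|B φ ψ| < 1` for `φ ≠ ψ` in `A`, of maximal cardinality (DIM). By PSD (4) every root supported in `sp u` is `± α + t • u` for an `α ∈ A`. `U = A ∪ -A`.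
(2) If `Φ_{sp u}` is finite, let `φ` be an element of maximal height; `φ ∈ Ps`; for `s ∈ sp u` the height of `σ_s φ` is `≤ ht φ`, so `B φ (e s) ≥ 0`. `0 = B φ u = ∑ u s * B φ (e s)` (SAV (5)) gives `B φ (e s) = 0` for all `s ∈ sp u`, so `B φ φ = 0`. (3) from (1), (2): pigeonhole. -/
def Stmt_DRS : Prop :=
  ∀ (D : Rd) (u : D.V), D.Sa u →
    (∃ U : Set D.V, U.Finite ∧ (∀ ψ ∈ U, ψ ∈ D.Rt ∧ D.In (D.sp u) ψ) ∧
      ∀ φ ∈ D.Rt, D.In (D.sp u) φ → ∃ ψ ∈ U, ∃ t : ℝ, φ = ψ + t • u) ∧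
    ¬ {φ | φ ∈ D.Rt ∧ D.In (D.sp u) φ}.Finite ∧
    (∃ φ ∈ D.Rt, D.In (D.sp u) φ ∧ ∃ t : ℝ, t ≠ 0 ∧ φ + t • u ∈ D.Rt)

/-- LIN (uses BAS, SGN, PAR, HGT, CSU, PSD, SAV, DRS): lines of parallel roots. For `γ, γ + t u ∈ Φ_{sp u}` and `v` supported in `sp u`: `ρ (rf (γ + t u) * rf γ) v = v + (2 t B v γ) u` (`B u v = 0`). Let `S_φ = {t | φ + t u ∈ Rt}`. By DRS (3) there is `γ` with `S_γ ≠ {0}`; `1 = B γ γ = ∑ γ s * B γ (e s)` gives `s ∈ sp u` with `B (e s) γ ≠ 0`, so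
`S_{e s} ≠ {0}`; then `S_{e r} ≠ {0}` for all neighbours `r ∈ sp u` of `s`, so for all `r ∈ sp u` (`Conn`), and by PAR (2) (`w ∈ par (sp u)` fixes `u`) for all roots `φ` supported in `sp u`. For `t, t' ∈ S_φ`: `2 t - t' ∈ S_φ` (apply `- rf (φ + t u)` to `φ + t' u`). `S_φ ∩ [-T, T]` is finite (HGT: `φ + t u` or its negative is a positive root of bounded
height). Let `c` be the smallest positive element of `S_φ = - S_φ`. `c ℤ ⊆ S_φ` by induction; for `t ∈ S_φ` also `t ± 2 c ∈ S_φ` (`2 c - (2 * 0 - t)`), so we may assume `|t| ≤ c`, then `t ∈ {0, c, -c}`. (2): if `φ, φ + t u ∈ Rt`, `t ≠ 0`: `1 = B (φ + t u) (φ + t u)` gives `B u φ = 0`; SAV (3) for `φ` and for `φ + t u`: if `φ` is supported in `perp (sp u)` (disjoint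
from `sp u`), then `φ + t u` is supported neither in `sp u` nor in `perp (sp u)`. -/
def Stmt_LIN : Prop :=
  ∀ (D : Rd) (u : D.V), D.Sa u →
    (∀ φ ∈ D.Rt, D.In (D.sp u) φ → ∃ c : ℝ, 0 < c ∧ ∀ t : ℝ, φ + t • u ∈ D.Rt ↔ ∃ i : ℤ, t = i * c) ∧
    (∀ φ, φ ∈ D.Fd u ↔ φ ∈ D.Rt ∧ D.In (D.sp u) φ)

/- THR (`Stmt_THR` in InterfaceG3; uses BAS, SGN, NST, IMC, VX1, PSD, SAV, DRS, LIN). `δ = ρ g u`, `Fd δ = ρ g '' Fd u`, transport everything. `δ ≥ 0`, `δ ≠ 0` for every affine `δ` (IMC (2)). `Sub φ (φ + t δ)` for `t ≥ 0`: if `ρ w⁻¹ φ ∈ Ps` then `ρ w⁻¹ (φ + t δ) = ρ w⁻¹ φ + t ρ w⁻¹ δ ≥ 0`. Thresholds: `x` is up-closed (VX1), `φ + i c δ` is in `Ps`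
for `i` large and not in `Ps` for `-i` large (`δ` has a positive coordinate), and `x \ Ps`, `Ps \ x` are finite. -/

/- ORT (`Stmt_ORT`; uses BAS, SGN, COE, PSD, SAV, DRS, LIN, THR). Everything is `W`-invariant and there are finitely many `u` with `Sa u` (SAV), so let `δ = u`. (1) `Fp`: SAV (3), (4), LIN (2). (2) `μ` or `-μ` is in `Ps` and not supported in `sp u ∪ perp (sp u)`, so `|B u μ| = ∑ |μ s| * |B u (e s)| ≥ |B u (e s)|` for some `s` with `B u (e s) ≠ 0` (COE).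
(3) `cst u φ` depends only on the direction, DRS. (4) `A` injects into `U` of DRS. -/

/- ORD (`Stmt_ORD`; uses BAS, SGN, PAR, IMC, PSD, SAV, LIN, THR). By `W`-invariance `δ' = u`, `Sa u`, and `δ = ρ w u1`, `Sa u1`. `δ ≥ 0` (IMC (2)), so `B u δ = ∑ δ s * B u (e s) ≤ 0`. Suppose it is `0`. For `φ ∈ Fd δ`: `φ + t δ ∈ Rt` for `t ∈ cst * ℕ`, for `t` large it has a positive coordinate, so it is in `Ps`, `B u φ = B u (φ + t δ) ≤ 0` (SAV (1)); the same for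
`-φ`, so `B u φ = 0`, and `φ` is supported in `sp u` or in `perp (sp u)` (SAV (3)). As `sp u1` is connected and `B (ρ w (e s)) (ρ w (e r)) = k s r`, all `ρ w (e s)`, `s ∈ sp u1`, are supported in `sp u`, or all in `perp (sp u)` (`Conn` for `K'` = the set of `s ∈ sp u1` with `ρ w (e s)` supported in `sp u`; SAV (4)). In the first case `δ` is supported in `sp u` and isotropic,
so `δ = t • u` (PSD (3)), `t > 0`, and `ρ w u1 = t • u ∈ Kc`: IMC (3) gives `ρ w u1 = u1`, so `t • u = u1`, `t = 1` by the heights: `δ = δ'`. In the second case all of `Fd δ` is supported in `perp (sp u)` (the roots of `Fd u1` are combinations of the `e s`, `s ∈ sp u1`), `Fd u` in `sp u`: SAV (4). -/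

/-- SBL (uses BAS, NST, THR, ORT). (1) `B ψ δ < 0`, `B φ ψ ≥ 1`: by NST (2) `Sub φ ψ` or `Sub ψ φ`. In the second case `Sub ψ (φ + t δ)` for all `t ∈ cst δ φ * ℕ` (THR), `ψ ≠ φ + t δ` (`B ψ δ ≠ 0 = B φ δ`), so `1 ≤ B ψ (φ + t δ) = B ψ φ + t B ψ δ` (NST (1)), impossible for `t` large. (2) = (1) for `-φ, -ψ` (NST (5)). -/
def Stmt_SBL : Prop :=
  ∀ (D : Rd) (δ : D.V), D.Af δ → ∀ φ ∈ D.Fd δ, ∀ ψ ∈ D.Rt, 1 ≤ D.B φ ψ →
    (D.B ψ δ < 0 → D.Sub φ ψ) ∧ (0 < D.B ψ δ → D.Sub ψ φ)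

/-- TCU (uses BAS, SGN, PAR, HGT, DRS, SAV): the Tits cone of an affine `par (sp u)` (a half-space). The set `M f = {φ ∈ Ps | In (sp u) φ, f φ < 0}` is finite: `φ = ψ + t u`, `ψ ∈ U` (DRS), `f ψ + t f u < 0` bounds `t` from above, so `ht φ = ht ψ + t` is bounded; HGT. Induction on its cardinality: if `f (e s) < 0`, `s ∈ sp u`, then
`M (f ∘ ρ (σ s)) = σ_s (M f \ {e s})` (SGN), and `σ_s u = u`. -/
def Stmt_TCU : Prop :=
  ∀ (D : Rd) (u : D.V), D.Sa u → ∀ f : D.V →ₗ[ℝ] ℝ, 0 < f u → ∃ w ∈ D.par (D.sp u), ∀ s ∈ D.sp u, 0 ≤ f (D.ρ w (D.e s))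

/-! ## G2. Threshold roots, near and far vertices, closest chamber -/

/-- SMR (uses BAS, SGN, HGT, COE, CSU): threshold roots. Suppose not: there are `μ_n ∈ Ps` with `B μ_n (e s) ≤ 1` for all `s`, `ht μ_n ≥ n + 1`, not supported in the support of any standard affine vector. By compactness of the simplex, after passing to a subsequence, `μ_n / ht μ_n → G`, `G ≥ 0`, `ht G = 1`, `B G (e s) ≤ 0` for all `s`, `B G G = lim 1 / ht² = 0`;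
so `G s ≠ 0 → B G (e s) = 0` (all terms of `0 = ∑ G s * B G (e s)` are `≤ 0`). Let `J = sp G`; for `n` large `μ = μ_n` is `> 0` on `J`. Claim: there is `s ∉ J` with `μ s ≠ 0` and `k s r ≠ 0` for an `r ∈ J`. Otherwise CSU for `J` and `sp μ \ J` shows that `μ` is supported in `J`, so `sp μ = J`, `J` is connected (CSU), `Sa G`: contradiction. So
`- B G μ = ∑_{s ∉ J} μ s * (- B G (e s)) ≥ κ0`, where `κ0 > 0` is the smallest nonzero `- B G (e s)` (COE: `μ s ≥ 1`; `B G (e s) ≤ G r * k r s < 0`). Let `p = min_{s ∈ J} μ s / G s`, `ρ' = μ - p G ≥ 0`; `p / ht μ → 1`, `ht ρ' / ht μ → 0`. `1 = B μ μ = p * B G μ + ∑_s ρ' s * B μ (e s) ≤ - p κ0 + ht ρ'`; dividing by `ht μ`: `0 ≤ - κ0` in the limit, contradiction. -/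
def Stmt_SMR : Prop :=
  ∀ (D : Rd), ∃ R : ℝ, ∀ μ ∈ D.Ps, (∀ s, D.B μ (D.e s) ≤ 1) → R < D.ht μ → ∃ u, D.Sa u ∧ D.In (D.sp u) μ

/-- NRC (uses BAS, SGN, VX1, THR, ORT, SBL): criterion for nearness. `C0 = 1 / κ0`. (`Near ∅`: the condition on roots supported in `∅` is empty.) (1) `κ = B μ δ ≥ κ0`, `f v = B μ v / κ`; `f δ = 1`. For `φ ∈ x ∩ Fd δ`: if `B μ φ ≤ -1` then `1 ≤ B (-φ) μ`, so `Sub μ (-φ)` (SBL (2)), so `-φ ∈ x` (VX1), contradiction. So `f φ > -1 / κ ≥ -C0`. (2) if `B μ δ > 0` use (1). If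
`B μ δ < 0`: `κ = - B μ δ`, `f v = - B μ v / κ`. For `φ ∈ x ∩ Fd δ`: if `B φ μ ≥ 1` then `Sub φ μ` (SBL (1)), so `φ = μ` by minimality, but `B φ δ = 0`. So `f φ > -1 / κ`. -/
def Stmt_NRC : Prop :=
  ∀ (D : Rd), ∃ C0 : ℝ, 0 ≤ C0 ∧ ∀ x, D.Vx x → ∀ δ, D.Af δ →
    (∀ μ ∈ x, 0 < D.B μ δ → D.Near ∅ C0 x δ) ∧ (∀ μ, D.Mn x μ → D.B μ δ ≠ 0 → D.Near ∅ C0 x δ)

/-- NRK (uses BAS, SGN, PAR, FPR, VX1, THR, ORT): near in `YJ K`. Let `f` be as in `Near ∅ C x δ`, wlog `C ≥ 0`. For `φ ∈ Fd δ ∩ Ps` supported in `K`: `φ` is minimal in `x`, so `φ - cst δ φ • δ ∉ x` (THR), `-φ + cst δ φ • δ ∈ x`, `|f φ| ≤ M = C + c1`. Let `G'` be the subgroup generated by the `rf φ`, `φ ∈ Fd δ` supported in `K`: it is finite (`≤ par K`), fixes `δ`, preserves `Fd δ`.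
`f' = (1 / |G'|) ∑_{g ∈ G'} f ∘ ρ g`: `f' δ = 1`, `f' φ = f' (ρ (rf φ) φ) = - f' φ`, so `f' φ = 0` for these `φ`. `|f (ρ g χ) - f χ| ≤ 2 M n` for `χ ∈ Fd δ` if `g` is a product of `n` reflections `rf φ` (`f (ρ (rf φ) χ) = f χ - 2 B χ φ * f φ`, `|B χ φ| ≤ 1`); `n` is bounded: for each of the finitely many sets `T` of roots supported in `K` (FPR) and each of the finitely many elements of the group
generated by the `rf φ`, `φ ∈ T`, choose a word. (Alternatively: `f' = f - B (·) v`, `v` in the span of the roots of `K` in `Fd δ`.) -/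
def Stmt_NRK : Prop :=
  ∀ (D : Rd) (K : Set D.S), Finite (D.par K) → ∀ C : ℝ, ∃ C' : ℝ, 0 ≤ C' ∧ ∀ x, D.YJ K x → ∀ δ, D.Af δ → D.Near ∅ C x δ → D.Near K C' x δ

/- FAR1 (`Stmt_FAR1`; uses BAS, SGN, NRC, NRK). `C0` of FAR1 = `C'` of NRK for `C0` of NRC. If `x` is far at `δ` then `¬ Near ∅ C0 x δ`. Big: if `B μ δ < 0` and `μ ∉ x` then `-μ ∈ x`, NRC (1). Cmp: roots in `Ps` supported in `K` are minimal in `x`, NRC (2) (and `-φ` for `φ ∉ Ps`). Third: NRC (2) and the definition of `Fp`. -/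

/- FAR3 (`Stmt_FAR3`; uses BAS, ORD, NRT, FAR1, FAR2, DIM). Distinct far `δ, δ'` are orthogonal (FAR1, FAR2, NRT, ORD), choose `φ_δ ∈ Fd δ` for every far `δ`: `B φ_δ φ_δ' = 0`; DIM bounds the cardinality of every finite subset. -/

/-- CLC (uses BAS, SGN, NST, VX1): the closest chamber. (1) If `e s ∉ x` then `x \ act (σ s) Ps = (x \ Ps) \ {-e s}` (`act (σ s) Ps = (Ps \ {e s}) ∪ {-e s}`). (2) Suppose `B μ (e s) ≥ 1`: `Sub μ (e s)` is impossible (chamber `σ s`, SGN; `μ ≠ e s` as `e s ∈ x`), so `Sub (e s) μ` (NST (2)), `μ ∈ x` by (1), VX1.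
(3) In the same way `Sub (e s) μ`, so `μ = e s` by minimality. -/
def Stmt_CLC : Prop :=
  ∀ (D : Rd) x, D.Cls x → (∀ s, D.e s ∈ x) ∧ (∀ μ ∈ D.Ps, -μ ∈ x → ∀ s, D.B μ (D.e s) < 1) ∧
      (∀ μ ∈ D.Ps, D.Mn x μ → (∃ s, μ = D.e s) ∨ ∀ s, D.B μ (D.e s) < 1)

/-- NCT (uses BAS, SGN, PAR, VX1, THR, ORT, SAV, DRS, LIN, TCU): closest chamber and nearness. Let `f u = 1`, `f φ ≥ -C` for `φ ∈ x ∩ Fd u` (wlog `C ≥ 0`). TCU: `w ∈ par (sp u)` with `f (ρ w (e s)) ≥ 0` for `s ∈ sp u`. A root `φ ∈ x ∩ Fd u` which is not in `act w Ps` has `f φ ≤ 0`, so `f φ ∈ [-C, 0]`; there are at most `M = n * (C / c0 + 1)` such roots (ORT (3), (4)).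
`x \ Ps` and `x \ act w Ps` have the same elements outside of `Φ_{sp u}` (PAR (6)), so by `Cls` there are at most `M` roots in `(x \ Ps) ∩ Fd u`. If `μ ∈ Ps ∩ Fd u`, `-μ ∈ x`: for `j = 0, 1, ...`, `c = cst u μ`: `-(μ - j c u) ∈ x` (THR), so `μ - j c u ∉ Ps` for some `j ≤ M`, `j c u - μ ∈ Ps`, `ht μ ≤ M c1`. If `Mn x μ`, `μ ∈ Ps ∩ Fd u`: `μ - c u ∉ x`, so `-(μ - c u) ∈ x`, and either
`μ - c u ∈ Ps`, so its height is `≤ M c1`, or `ht μ ≤ c`. -/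
def Stmt_NCT : Prop :=
  ∀ (D : Rd) (C : ℝ), ∃ R : ℝ, ∀ u, D.Sa u → ∀ x, D.Cls x → D.Near ∅ C x u →
    (∀ μ ∈ D.Ps, μ ∈ D.Fd u → -μ ∈ x → D.ht μ ≤ R) ∧ (∀ μ ∈ D.Fd u, D.Mn x μ → |D.ht μ| ≤ R)

/- FIN12 (`Stmt_FIN1 ∧ Stmt_FIN2` of InterfaceG2b; uses SGN, VX1, HGT, CLC, SMR, NCT, LIN, SAV): finiteness for the closest chamber. FIN1: CLC (2), SMR: `ht μ ≤ R`, or `μ ∈ Fd u` (LIN (2)) for a standard affine `u`; then `Near ∅ C x u` and `ht μ ≤ R'` by NCT; HGT. FIN2: the same with CLC (3) if `φ ∈ Ps`, and FIN1 for `-φ` if `φ ∉ Ps`. -/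

/-- LFNG (uses VX1, HGT, THR, DRS, LIN, SAV, SMR, CLO, CLC): local finiteness. By CLO we may assume `Cls x`. Minimal roots outside of `Ps` are in the finite set `x \ Ps`. Minimal roots in `Ps`: CLC (3), SMR: simple roots, roots of bounded height (HGT), roots in `Fd u` (finitely many `u`): two minimal roots `ψ + t u`, `ψ + t' u` are equal by THR (`Sub`), so there is at most one for each `ψ ∈ U` (DRS). -/
def Stmt_LFNG : Prop := ∀ (D : Rd), ∀ x, D.Vx x → {φ | D.Mn x φ}.Finite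

/-- PR2 (uses BAS, SGN, PAR, HGT, VX1, VX3, PSD, SAV, BFN, LIN, THR, ORT, SMR, NRC, CLO, CLC, NCT): pairs of minimal roots. By CLO we may assume `Cls x`. `|B φ ψ| < 1`: BFN. `φ = ψ`: modulo `W` they are simple. Otherwise `B φ ψ ≤ -1` (VX3 (1)). Suppose `|ht φ| > R1` (`R1` large). By CLC (2), (3) and SMR `φ ∈ Fd u` for a standard affine `u`. If `ψ ∈ Fd u` then `B φ ψ = -1`, `ψ = -φ + t u` (PSD (4)); `t = cst u φ`:
`φ - cst u φ • u ∉ x` (minimality), so `-φ + cst u φ • u ∈ x`, `t ≤ cst` by minimality of `ψ`; `-φ ∉ x`, so `t > 0`. By PAR (2) there is `w ∈ par (sp u)` with `ρ w φ = e s`, `s ∈ sp u`; `ρ w u = u`: the pair becomes `(e s, -e s + cst u (e s) • u)`. If `ψ ∉ Fd u`: `B ψ u ≠ 0` (otherwise `B φ ψ = 0`, ORT (1)), so `Near ∅ C0 x u` by NRC (2), and `|ht φ| ≤ R` by NCT, contradiction. By symmetry: either the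
pair is one of the finitely many pairs `(e s, -e s + cst u (e s) • u)` modulo `W`, or both heights are bounded by `R1` (HGT). -/
def Stmt_PR2 : Prop :=
  ∀ (D : Rd), ∃ P : Set (D.V × D.V), P.Finite ∧
    ∀ x, D.Vx x → ∀ φ ψ, D.Mn x φ → D.Mn x ψ → ∃ w : D.W, (D.ρ w φ, D.ρ w ψ) ∈ P

/- DEEPG (`Stmt_DEEPG` in InterfaceG4; uses BAS, FINO, INFO, RSF, VX1, PR2). `N0` torsion-free normal of finite index `k0` (RSF): `y ^ k0 = 1` for every `y` of finite order (`y ^ k0 ∈ N0`). `E` = the nontrivial elements among `(rf φ * rf ψ) ^ j`, `(φ, ψ) ∈ P`, `j ∈ {1, k0}`. `H` from RSF for `E`. If `Mn x φ`, `Mn x ψ`, `(ρ w φ, ρ w ψ) ∈ P`, then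
`w * (rf φ * rf ψ) ^ j * w⁻¹ ∈ E` or `(rf φ * rf ψ) ^ j = 1`. `self`: `ψ = ± h φ`, so `rf ψ = h (rf φ) h⁻¹ ≡ rf φ` mod `H`, `rf φ * rf ψ ∈ H`, so it is `1`, `ψ = ± φ` (BAS), `ψ = φ` as both are in `x`. `osc`: `(rf φ * h (rf ψ) h⁻¹) ^ k0 = 1` (FINO), so `(rf φ * rf ψ) ^ k0 ∈ H`, so it is `1`, and INFO gives `|B φ ψ| < 1` (`φ ≠ ψ`, `φ ≠ -ψ`).
Template: helper29's DEEP.lean. -/

end Pool.CS
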