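import Pool.Agent.Work.MP_64ea0f_cs_helper91.AllA
import Pool.Agent.Work.MP_64ea0f_cs_helper31.INT
import Pool.Agent.Work.MP_64ea0f_cs_helper31.RDX
import Pool.Agent.Work.MP_64ea0f_cs_helper91.VX4
import Pool.Agent.Work.MP_64ea0f_cs_helper87.VX1
import Pool.Agent.Work.MP_64ea0f_cs_helper23.VX3
import Pool.Agent.Work.MP_64ea0f_cs_helper53.DIM
import Pool.Agent.Work.MP_64ea0f_cs_helper53.LSX
import Pool.Agent.Work.MP_64ea0f_cs_helper43.DEV
import Pool.Agent.Work.MP_64ea0f_cs_helper43.LBF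
import Pool.Agent.Work.MP_64ea0f_cs_helper94.AFB
import Pool.Agent.Work.MP_64ea0f_cs_helper94.LFN
import Pool.Agent.Work.MP_64ea0f_cs_helper64.COF
import Pool.Agent.Work.MP_64ea0f_cs_helper29.DEEP
import Pool.Agent.Work.MP_64ea0f_cs_helper29.RTW2
import Pool.Agent.Work.MP_64ea0f_cs_helper63.VRC
import Pool.Agent.Work.MP_64ea0f_cs_helper63.FT
import Pool.Agent.Work.MP_64ea0f_cs_helper63.CVX
import Pool.Agent.Work.MP_64ea0f_cs_helper63.KCZ
import Pool.Agent.Work.MP_64ea0f_cs_helper63.F3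
import Pool.Agent.Work.MP_64ea0f_cs_helper64.F3C
import Pool.Agent.Work.MP_64ea0f_cs_helper4.NFC
import Pool.Agent.Work.MP_64ea0f_cs_helper67.CSU
import Pool.Agent.Work.MP_64ea0f_cs_helper67.ESN
import Pool.Agent.Work.MP_64ea0f_cs_helper23.CMP
import Pool.Agent.Work.MP_64ea0f_cs_helper20.TRN
import Pool.Agent.Work.MP_64ea0f_cs_helper20.F3G
import Pool.Agent.Work.MP_64ea0f_cs_helper18.F3H
import Pool.Agent.Work.MP_64ea0f_cs_helper18.INF
import Pool.Agent.Work.MP_64ea0f_cs_helper90.F3J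
import Pool.Agent.Work.MP_64ea0f_cs_helper90.GAM
import Pool.Agent.Work.MP_64ea0f_cs_helper51.ESS
import Pool.Agent.Work.MP_64ea0f_cs_helper51.PER
import Pool.Agent.Work.MP_64ea0f_cs_helper53.VAC
import Pool.Agent.Work.MP_64ea0f_cs_helper2.YJ1
import Pool.Agent.Work.MP_64ea0f_cs_helper2.YJ2
import Pool.Agent.Work.MP_64ea0f_cs_helper31.YJ4
import Pool.Agent.Work.MP_64ea0f_cs_helper31.YJ5
import Pool.Agent.Work.MP_64ea0f_cs_helper83.YJ3
import Pool.Agent.Work.MP_64ea0f_cs_helper83.YJ6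
import Pool.Agent.Work.MP_64ea0f_cs_helper20.LOC
import Pool.Agent.Work.MP_64ea0f_cs_helper59.TOR
import Pool.Agent.Work.MP_64ea0f_cs_helper59.AFT
import Pool.Agent.Work.MP_64ea0f_cs_helper39.PartC
import Pool.Agent.Work.MP_64ea0f_cs_helper54.AllD2
import Pool.Agent.Work.MP_64ea0f_cs_helper94.RTT

set_option autoImplicit false

/-! # Assembly of stages A-F (affine-free case), unconditional -/

namespace Pool.CS.Z

open Pool.CS.A

theorem vx1 : Stmt_VX1 := vx1_thm bas sgn len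
theorem vx2 : Stmt_VX2 := vx2_thm bas sgn vx1
theorem vx3 : Stmt_VX3 := vx3_thm bas vx1 vx2 nst
theorem vx4 : Stmt_VX4 := vx4_thm
theorem dim : Stmt_DIM := dim_thm bas fino rsf
theorem lbf : Stmt_LBF := lbf_thm
theorem lsx : Stmt_LSX := lsx_thm bas vx1 vx2 vx3
theorem dev : Stmt_DEV := dev_thm vx1 vx2 vx3 vx4 lsx
theorem cmp : Stmt_CMP := cmp_thm
theorem csu : Stmt_CSU := csu_thm bas par
theorem cvx : Stmt_CVX := cvx_thm bas sgn par
theorem trn : Stmt_TRN := trn_thm bas sgn len nst par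
theorem ess : Stmt_ESS := ess_thm pcl rnk
theorem esn : Stmt_ESN := esn_thm par rnk
theorem per : Stmt_PER := per_thm bas par
theorem cen : Stmt_CEN := cen_thm rnk nrm deo esn
theorem vac : Stmt_VAC := vac_thm
theorem f3h : Stmt_F3H := f3h_thm bas fino nst vx1 vx2 vx3 vx4 lsx dev
theorem f3g : Stmt_F3G := f3g_thm bas vx1 vx3 lsx
theorem f3j : Stmt_F3J := F3J_thm bas sgn len par rnk vx1
theorem yj1 : Stmt_YJ1 := yj1_thm bas sgn par fpr nst nrm vx1 vx2 vx3 vx4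
theorem yj2 : Stmt_YJ2 := yj2_thm bas par yj1
theorem yj4 : Stmt_YJ4 := yj4_thm vx1 vx2 vx3 lsx yj1
theorem yj5 : Stmt_YJ5 := yj5_thm bas sgn par rnk pcl fpr nst nrm yj1 vx1 vx2 vx3

/-! affine-free case -/
theorem afb : Stmt_AFB := afb_thm
theorem cof : Stmt_COF := cof_thm bas sgn len par hgt nst vx1 vx2 vx3 vx4 dim afb
theorem lfn : Stmt_LFN := lfn_thm hgt nst vx1
theorem deep : Stmt_DEEP := deep_thm bas fino info rsf vx1 cof lfn
theorem vrc : Stmt_VRC := vrc_thm vx1 cof lsx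
theorem rtw2 : Stmt_RTW2 := rtw2_thm lbf lsx dev vrc C.rtc2
theorem ft : Stmt_FT := ft_thm par vx1 vx2 vx4 cof lsx dev deep
theorem kcz : Stmt_KCZ := kcz_thm bas csu cmp pff fpr
theorem nfc : Stmt_NFC := nfc_thm bas sgn cmp pff
theorem f3c : Stmt_F3C := f3c_thm bas sgn len nst par rnk pcl fpr nrm deo imc csu cvx trn kcz nfc
theorem f3 : Stmt_F3 := f3_thm C.ax vx1 cmp csu trn f3c f3h f3g f3j lbf
theorem gam : Stmt_GAM := GAM_thm C.ax f3 lbf lsx dev
theorem yj3 : Stmt_YJ3 := yj3_thm vx1 cof lfn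
theorem yj6 : Stmt_YJ6 := yj6_thm yj1 yj3 yj4 yj5 dev lsx nrm D.smt bas vx1 vx2 vx3 lbf
theorem loc : Stmt_LOC := loc_thm pcl rnk nrm deep yj2 yj6
theorem rtt : Stmt_RTT := rtt_thm rsf loc
theorem tor : Stmt_TOR := tor_thm rtt
theorem inf : Stmt_INF := inf_thm tor rtw2 deep res ft gam vac ess esn per cen
/-- the affine-free theorem -/
theorem aft : Stmt_AFT := aft_thm tor inf

end Pool.CS.Z
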