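import Mathlib

set_option autoImplicit false

/-! # Definitions for MP_64ea0f_al: conjugacy separability of Coxeter groups

Everything lives in `Type`.  `Rd` is a based root system: a group `W` acting on `V = (S → ℝ)`,
generated by the reflections `σ s` in the basis vectors `e s`, such that every root is nonnegative
or nonpositive.  For a Coxeter matrix `M` we use `k s t = -cos (π / M s t)`, and `-2` when
`M s t = 0` (infinity). -/

namespace Pool.CS

/-- entries of the form; `m = 0` means infinity -/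
noncomputable def kf (m : ℕ) : ℝ := if m = 0 then -2 else -Real.cos (Real.pi / m)

/-- the bilinear form with matrix `k` -/
def bform {S : Type} [Fintype S] (k : S → S → ℝ) (v w : S → ℝ) : ℝ :=
  ∑ s, ∑ t, v s * w t * k s t

/-- a based root system -/
structure Rd where
  S : Type
  fS : Fintype S
  dS : DecidableEq S
  W : Type
  gW : Group W
  k : S → S → ℝ
  σ : S → W
  ρ : W →* Module.End ℝ (S → ℝ)
  symm : ∀ s t, k s t = k t s
  diag : ∀ s, k s s = 1
  off : ∀ s t, s ≠ t → k s t ≤ 0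
  refl : ∀ s v, ρ (σ s) v = v - (2 * bform k v (Pi.single s 1)) • (Pi.single s 1 : S → ℝ)
  gen : Subgroup.closure (Set.range σ) = ⊤
  sign : ∀ w s, (∀ t, 0 ≤ ρ w (Pi.single s 1) t) ∨ (∀ t, ρ w (Pi.single s 1) t ≤ 0)
  triv : ∀ w, (∀ s t, 0 ≤ ρ w (Pi.single s 1) t) → w = 1
  intg : ∃ A : Subring ℝ, Module.Finite ℤ A ∧ ∀ s t, 2 * k s t ∈ A

attribute [instance] Rd.fS Rd.dS Rd.gW

namespace Rd

variable (D : Rd)

/-- the vector space -/
abbrev V : Type := D.S → ℝ

/-- simple roots -/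
def e (s : D.S) : D.V := Pi.single s 1

/-- the form -/
def B (v w : D.V) : ℝ := bform D.k v w

/-- height -/
def ht (v : D.V) : ℝ := ∑ s, v s

/-- roots -/
def Rt : Set D.V := {v | ∃ w s, v = D.ρ w (D.e s)}

/-- positive roots -/
def Ps : Set D.V := {v | v ∈ D.Rt ∧ ∀ t, 0 ≤ v t}

/-- the root `φ` is positive at the chamber `w` -/
def On (w : D.W) (φ : D.V) : Prop := D.ρ w⁻¹ φ ∈ D.Ps

/-- the half-space of `φ` is contained in the half-space of `ψ` -/
def Sub (φ ψ : D.V) : Prop := ∀ w, D.On w φ → D.On w ψ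

open Classical in
/-- the reflection in a root -/
noncomputable def rf (φ : D.V) : D.W :=
  if h : ∃ p : D.W × D.S, φ = D.ρ p.1 (D.e p.2) then h.choose.1 * D.σ h.choose.2 * h.choose.1⁻¹
  else 1

/-- inversions of `w`: positive roots sent by `w` to negative roots -/
def N (w : D.W) : Set D.V := {φ | φ ∈ D.Ps ∧ D.ρ w φ ∉ D.Ps}

/-- length -/
noncomputable def len (w : D.W) : ℕ := (D.N w).ncard

/-- `v` is supported in `J` -/
def In (J : Set D.S) (v : D.V) : Prop := ∀ s, s ∉ J → v s = 0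

/-- standard parabolic subgroup -/
def par (J : Set D.S) : Subgroup D.W := Subgroup.closure (D.σ '' J)

/-- conjugate `g (par J) g⁻¹` -/
def cp (g : D.W) (J : Set D.S) : Subgroup D.W := (D.par J).map (MulAut.conj g).toMonoidHom

/-- `J^⊥` (for nonempty `J` automatically disjoint from `J`) -/
def perp (J : Set D.S) : Set D.S := {s | ∀ t ∈ J, D.k s t = 0}

/-- `n` maps the positive roots of `J` onto the positive roots of `J` -/
def NJ (J : Set D.S) : Set D.W :=
  {n | ∀ φ, (φ ∈ D.Ps ∧ D.In J φ) ↔ (D.ρ n φ ∈ D.Ps ∧ D.In J (D.ρ n φ))}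

/-- antidominant nonnegative vectors -/
def Kc : Set D.V := {v | (∀ s, 0 ≤ v s) ∧ ∀ s, D.B v (D.e s) ≤ 0}

/-- the affine-free condition: no irreducible affine components of rank at least three -/
def AF : Prop := ∀ v : D.V, v ∈ D.Kc → D.B v v = 0 → v = 0

/-- the Tits cone: functionals which are negative on finitely many positive roots only -/
def Tc : Set (D.V →ₗ[ℝ] ℝ) := {y | {φ | φ ∈ D.Ps ∧ y φ < 0}.Finite}

/-! ### The cubing -/

/-- vertices: consistent orientations, as sets of roots -/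
structure Vx (x : Set D.V) : Prop where
  sub : x ⊆ D.Rt
  tot : ∀ φ ∈ D.Rt, φ ∈ x ∨ -φ ∈ x
  cmp : ∀ φ ∈ x, ∀ ψ ∈ x, ∃ w, D.On w φ ∧ D.On w ψ
  fin : (x \ D.Ps).Finite

/-- the type of vertices -/
def X : Type := {x : Set D.V // D.Vx x}

/-- the action of `W` on sets of vectors -/
def act (w : D.W) (x : Set D.V) : Set D.V := D.ρ w '' x

/-- `φ` can be flipped at `x` -/
def Mn (x : Set D.V) (φ : D.V) : Prop := φ ∈ x ∧ ∀ ψ ∈ x, D.Sub ψ φ → ψ = φ

/-- flip -/
def fl (x : Set D.V) (φ : D.V) : Set D.V := insert (-φ) (x \ {φ})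

/-- the label of a root modulo `H` -/
def lab (H : Subgroup D.W) (φ : D.V) : Set D.V := {ψ | ∃ h ∈ H, ψ = D.ρ h φ ∨ ψ = -D.ρ h φ}

/-- the type of labels -/
def Lb (H : Subgroup D.W) : Type := {a : Set D.V // ∃ φ ∈ D.Rt, a = D.lab H φ}

/-- adjacency of labels: some representatives cross -/
def ladj (H : Subgroup D.W) (a b : D.Lb H) : Prop :=
  a ≠ b ∧ ∃ φ ∈ a.1, ∃ ψ ∈ b.1, |D.B φ ψ| < 1

/-- `H` is deep enough -/
structure Deep (H : Subgroup D.W) : Prop where
  nor : H.Normal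
  fin : H.FiniteIndex
  tf : ∀ h ∈ H, ∀ n : ℕ, 0 < n → h ^ n = 1 → h = 1
  inv : ∀ h ∈ H, ∀ φ ∈ D.Rt, D.ρ h φ ≠ -φ
  self : ∀ x, D.Vx x → ∀ φ ψ, D.Mn x φ → D.Mn x ψ → ψ ∈ D.lab H φ → ψ = φ
  osc : ∀ x, D.Vx x → ∀ φ ψ, D.Mn x φ → D.Mn x ψ → φ ≠ ψ →
    (∃ h ∈ H, |D.B φ (D.ρ h ψ)| < 1) → |D.B φ ψ| < 1

end Rd

/-- `x` and `y` are conjugate in every finite quotient -/
def PC {G : Type} [Group G] (x y : G) : Prop :=
  ∀ N : Subgroup G, N.Normal → N.FiniteIndex → ∃ c, c * y * c⁻¹ * x⁻¹ ∈ N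

/-- conjugacy separability, in terms of `PC` -/
def CSep (G : Type) [Group G] : Prop := ∀ x y : G, PC x y → IsConj x y

/-- the strong form: congruent conjugates are conjugate by elements which are congruent -/
def RT {G : Type} [Group G] (x y : G) : Prop :=
  ∀ M : Subgroup G, M.Normal → M.FiniteIndex → ∃ M' : Subgroup G, M'.Normal ∧ M'.FiniteIndex ∧
    ∀ c, c * y * c⁻¹ * x⁻¹ ∈ M' → ∃ m ∈ M, (m * c) * y * (m * c)⁻¹ = x

end Pool.CS
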