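import Mathlib

set_option autoImplicit false

/-! # Right-angled Coxeter groups and their right actions

`G : SimpleGraph Λ`: vertices are the generators, adjacent generators commute.  An `LS G V` is a set `V` with
involutions `τ a` (`a : Λ`) which commute for adjacent labels: the same as a right action of the group `RC G`. -/

namespace Pool.CS

section
variable {Λ : Type}

open Classical in
/-- the Coxeter matrix of a right-angled Coxeter group -/
noncomputable def racM (G : SimpleGraph Λ) : CoxeterMatrix Λ where
  M := Matrix.of fun a b => if a = b then 1 else if G.Adj a b then 2 else 0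
  isSymm := by
    ext a b
    simp only [Matrix.transpose_apply, Matrix.of_apply]
    by_cases h : a = b
    · subst h; rfl
    · rw [if_neg h, if_neg (Ne.symm h)]
      by_cases h2 : G.Adj a b
      · rw [if_pos h2, if_pos h2.symm]
      · rw [if_neg h2, if_neg (fun h3 => h2 h3.symm)]
  diagonal := by intro a; simp
  off_diagonal := by
    intro a b h
    simp only [Matrix.of_apply, if_neg h]
    split_ifs <;> decide

/-- the right-angled Coxeter group -/
abbrev RC (G : SimpleGraph Λ) : Type := (racM G).Group

/-- generators -/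
noncomputable def rg (G : SimpleGraph Λ) (a : Λ) : RC G := (racM G).simple a

/-- a set with involutions commuting for adjacent labels -/
structure LS (G : SimpleGraph Λ) (V : Type) where
  τ : Λ → V → V
  inv : ∀ a v, τ a (τ a v) = v
  com : ∀ a b, G.Adj a b → ∀ v, τ a (τ b v) = τ b (τ a v)

theorem racM_self (G : SimpleGraph Λ) (a : Λ) : racM G a a = 1 := (racM G).diagonal a

open Classical in
theorem racM_adj (G : SimpleGraph Λ) {a b : Λ} (h : G.Adj a b) : racM G a b = 2 := by
  change (if a = b then 1 else if G.Adj a b then 2 else 0) = 2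
  rw [if_neg h.ne, if_pos h]

open Classical in
theorem racM_not (G : SimpleGraph Λ) {a b : Λ} (h : ¬ G.Adj a b) (hab : a ≠ b) : racM G a b = 0 := by
  change (if a = b then 1 else if G.Adj a b then 2 else 0) = 0
  rw [if_neg hab, if_neg h]

/-- liftable maps to groups -/
theorem rac_liftable {G : SimpleGraph Λ} {H : Type} [Group H] (f : Λ → H) (h1 : ∀ a, f a * f a = 1)
    (h2 : ∀ a b, G.Adj a b → f a * f b = f b * f a) : (racM G).IsLiftable f := by
  intro a b
  by_cases hab : a = b
  · subst hab; rw [racM_self, pow_one, h1]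
  · by_cases h : G.Adj a b
    · rw [racM_adj G h, pow_two]
      calc f a * f b * (f a * f b) = f a * f b * (f b * f a) := by rw [h2 a b h]
        _ = f a * (f b * f b) * f a := by group
        _ = 1 := by rw [h1, mul_one, h1]
    · rw [racM_not G h hab, pow_zero]

/-- homomorphisms out of `RC G` -/
noncomputable def rlift (G : SimpleGraph Λ) {H : Type} [Group H] (f : Λ → H)
    (h1 : ∀ a, f a * f a = 1) (h2 : ∀ a b, G.Adj a b → f a * f b = f b * f a) : RC G →* H :=
  (racM G).toCoxeterSystem.lift ⟨f, rac_liftable f h1 h2⟩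

@[simp] theorem rlift_rg (G : SimpleGraph Λ) {H : Type} [Group H] (f : Λ → H)
    (h1 : ∀ a, f a * f a = 1) (h2 : ∀ a b, G.Adj a b → f a * f b = f b * f a) (a : Λ) :
    rlift G f h1 h2 (rg G a) = f a :=
  (racM G).toCoxeterSystem.lift_apply_simple (rac_liftable f h1 h2) a

theorem rg_mul_self (G : SimpleGraph Λ) (a : Λ) : rg G a * rg G a = 1 :=
  (racM G).toCoxeterSystem.simple_mul_simple_self a

theorem rg_inv (G : SimpleGraph Λ) (a : Λ) : (rg G a)⁻¹ = rg G a :=
  inv_eq_of_mul_eq_one_left (rg_mul_self G a)

theorem rg_comm {G : SimpleGraph Λ} {a b : Λ} (h : G.Adj a b) :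
    rg G a * rg G b = rg G b * rg G a := by
  have h1 := (racM G).toCoxeterSystem.simple_mul_simple_pow a b
  have h2 : (rg G a * rg G b) ^ 2 = 1 := by
    have h3 : (racM G).M a b = 2 := racM_adj G h
    rw [h3] at h1
    exact h1
  rw [pow_two] at h2
  have h4 := eq_inv_of_mul_eq_one_left h2
  rw [mul_inv_rev, rg_inv, rg_inv] at h4
  exact h4

/-- products of words -/
noncomputable def wp (G : SimpleGraph Λ) (l : List Λ) : RC G := (l.map (rg G)).prod

theorem wp_nil (G : SimpleGraph Λ) : wp G [] = 1 := rfl

theorem wp_cons (G : SimpleGraph Λ) (a : Λ) (l : List Λ) : wp G (a :: l) = rg G a * wp G l := rfl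

theorem wp_append (G : SimpleGraph Λ) (l l' : List Λ) : wp G (l ++ l') = wp G l * wp G l' := by
  simp [wp]

theorem wp_surj (G : SimpleGraph Λ) (c : RC G) : ∃ l, c = wp G l := by
  obtain ⟨l, hl⟩ := (racM G).toCoxeterSystem.wordProd_surjective c
  exact ⟨l, hl.symm⟩

theorem rac_induction {G : SimpleGraph Λ} {p : RC G → Prop} (c : RC G) (h1 : p 1)
    (h2 : ∀ a c, p c → p (rg G a * c)) : p c := by
  obtain ⟨l, rfl⟩ := wp_surj G c
  induction l with
  | nil => exact h1
  | cons a l ih => exact h2 a _ ih

theorem rac_induction_right {G : SimpleGraph Λ} {p : RC G → Prop} (c : RC G) (h1 : p 1)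
    (h2 : ∀ a c, p c → p (c * rg G a)) : p c := by
  obtain ⟨l, rfl⟩ := wp_surj G c
  induction l using List.reverseRecOn with
  | nil => exact h1
  | append_singleton l a ih =>
    rw [wp_append, wp_cons, wp_nil, mul_one]
    exact h2 a _ ih

theorem rc_hom_ext {G : SimpleGraph Λ} {H : Type} [Monoid H] {f g : RC G →* H}
    (h : ∀ a, f (rg G a) = g (rg G a)) : f = g := by
  ext c
  induction c using rac_induction with
  | h1 => rw [map_one, map_one]
  | h2 a c ih => rw [map_mul, map_mul, h a, ih]

namespace LS
variable {G : SimpleGraph Λ} {V : Type}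

/-- the involution as a permutation -/
def perm (L : LS G V) (a : Λ) : Equiv.Perm V := ⟨L.τ a, L.τ a, L.inv a, L.inv a⟩

/-- the left action -/
noncomputable def hom (L : LS G V) : RC G →* Equiv.Perm V :=
  rlift G L.perm (fun a => by ext v; exact L.inv a v)
    (fun a b h => by ext v; exact L.com a b h v)

/-- the right action: `v · c` -/
noncomputable def r (L : LS G V) (v : V) (c : RC G) : V := L.hom c⁻¹ v

theorem r_one (L : LS G V) (v : V) : L.r v 1 = v := by simp [r]

theorem r_mul (L : LS G V) (v : V) (c c' : RC G) : L.r v (c * c') = L.r (L.r v c) c' := by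
  simp [r, mul_inv_rev, map_mul]

theorem r_rg (L : LS G V) (v : V) (a : Λ) : L.r v (rg G a) = L.τ a v := by
  rw [r, rg_inv, hom, rlift_rg]
  rfl

theorem r_wp_cons (L : LS G V) (v : V) (a : Λ) (l : List Λ) :
    L.r v (wp G (a :: l)) = L.r (L.τ a v) (wp G l) := by
  rw [wp_cons, r_mul, r_rg]

/-- equivariant maps -/
theorem r_map {V' : Type} (L : LS G V) (L' : LS G V') (f : V → V')
    (h : ∀ a v, f (L.τ a v) = L'.τ a (f v)) (v : V) (c : RC G) : f (L.r v c) = L'.r (f v) c := by
  induction c using rac_induction_right with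
  | h1 => rw [r_one, r_one]
  | h2 a c ih => rw [r_mul, r_mul, r_rg, r_rg, h, ih]

end LS

/-- the star of a vertex: `b ∈ star a` iff `b = a` or `b` is adjacent to `a` -/
def star (G : SimpleGraph Λ) (a : Λ) : Set Λ := {b | b = a ∨ G.Adj a b}

/-- the subgroup generated by a set of generators -/
noncomputable def rsub (G : SimpleGraph Λ) (I : Set Λ) : Subgroup (RC G) :=
  Subgroup.closure (rg G '' I)

open Classical in
/-- the retraction onto `rsub G I`, killing the generators outside of `I` -/
noncomputable def rret (G : SimpleGraph Λ) (I : Set Λ) : RC G →* RC G :=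
  rlift G (fun a => if a ∈ I then rg G a else 1)
    (fun a => by split_ifs <;> simp [rg_mul_self])
    (fun a b h => by split_ifs <;> simp [rg_comm h])

theorem rret_rg_mem (G : SimpleGraph Λ) {I : Set Λ} {a : Λ} (h : a ∈ I) :
    rret G I (rg G a) = rg G a := by rw [rret, rlift_rg, if_pos h]

theorem rret_rg_not (G : SimpleGraph Λ) {I : Set Λ} {a : Λ} (h : a ∉ I) :
    rret G I (rg G a) = 1 := by rw [rret, rlift_rg, if_neg h]

end

end Pool.CS
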