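import Pool.Agent.Work.MP_64ea0f_cs.Defs
import Pool.Agent.Work.MP_64ea0f_cs.RAC

set_option autoImplicit false

/-! # Labels and the right action on the cubing -/

namespace Pool.CS
namespace Rd

variable (D : Rd)

theorem B_symm (v w : D.V) : D.B v w = D.B w v := by
  unfold Rd.B bform
  rw [Finset.sum_comm]
  refine Finset.sum_congr rfl fun s _ => Finset.sum_congr rfl fun t _ => ?_
  rw [D.symm t s]
  ring

/-- the graph of labels: adjacent = commuting -/
def lg (H : Subgroup D.W) : SimpleGraph (D.Lb H) where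
  Adj a b := D.ladj H a b
  symm := ⟨by
    rintro a b ⟨hab, φ, hφ, ψ, hψ, h⟩
    exact ⟨hab.symm, ψ, hψ, φ, hφ, by rwa [D.B_symm]⟩⟩
  loopless := ⟨fun a h => h.1 rfl⟩

/-- `L` is the right action of the labels on the cubing by flips -/
def IsFlip (H : Subgroup D.W) (L : LS (D.lg H) D.X) : Prop :=
  ∀ (a : D.Lb H) (x : D.X),
    (∀ φ, D.Mn x.1 φ → φ ∈ a.1 → (L.τ a x).1 = D.fl x.1 φ) ∧
    ((∀ φ, D.Mn x.1 φ → φ ∉ a.1) → L.τ a x = x)

/-- vertices which differ from the base vertex `Ps` only in roots supported in `J` -/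
def XJ (J : Set D.S) (x : Set D.V) : Prop := D.Vx x ∧ ∀ φ ∈ D.Ps, ¬ D.In J φ → φ ∈ x

/-- vertices at which all positive roots supported in `J` can be flipped (for `par J` finite) -/
def YJ (J : Set D.S) (x : Set D.V) : Prop := D.Vx x ∧ ∀ φ ∈ D.Ps, D.In J φ → D.Mn x φ

/-- `κ : X → RC` is a development of the flip action, `c` its holonomy on `H`; `b` is the base vertex `Ps` -/
structure Dev (H : Subgroup D.W) (L : LS (D.lg H) D.X) (b : D.X) (κ : D.X → RC (D.lg H))
    (c : H →* RC (D.lg H)) : Prop where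
  base : b.1 = D.Ps
  one : κ b = 1
  step : ∀ a x, L.τ a x ≠ x → κ (L.τ a x) = κ x * rg (D.lg H) a
  path : ∀ x, L.r b (κ x) = x
  hol : ∀ (h : H) (x y : D.X), y.1 = D.act h.1 x.1 → κ y = c h * κ x

end Rd
end Pool.CS
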