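import Pool.Agent.Work.MP_64ea0f_cs.InterfaceE

set_option autoImplicit false

/-! # Definitions for part G: affine parabolic subgroups and the folded cubing -/

namespace Pool.CS
namespace Rd
variable (D : Rd)

/-- standard affine vectors: antidominant isotropic, connected support, height 1 -/
def Sa (u : D.V) : Prop := u ∈ D.Kc ∧ D.B u u = 0 ∧ D.ht u = 1 ∧ D.Conn {s | u s ≠ 0}

/-- affine vectors: they index the affine parabolic subgroups -/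
def Af (δ : D.V) : Prop := ∃ g u, D.Sa u ∧ δ = D.ρ g u

/-- the roots of the affine parabolic subgroup of `δ` -/
def Fd (δ : D.V) : Set D.V := {φ | φ ∈ D.Rt ∧ ∃ t : ℝ, t ≠ 0 ∧ φ + t • δ ∈ D.Rt}

/-- the other roots orthogonal to `δ` (they are orthogonal to `Fd δ`) -/
def Fp (δ : D.V) : Set D.V := {φ | φ ∈ D.Rt ∧ D.B φ δ = 0 ∧ φ ∉ D.Fd δ}

/-- `x` is on the big side of all walls which are not orthogonal to `δ` -/
def Big (x : Set D.V) (δ : D.V) : Prop := ∀ μ ∈ D.Rt, D.B μ δ < 0 → μ ∈ x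

/-- all roots supported in `K` are orthogonal to `δ` -/
def Cmp (K : Set D.S) (δ : D.V) : Prop := ∀ φ ∈ D.Rt, D.In K φ → D.B φ δ = 0

/-- `x` is near the affine space of `δ` (relative to `K`) -/
def Near (K : Set D.S) (C : ℝ) (x : Set D.V) (δ : D.V) : Prop :=
  ∃ f : D.V →ₗ[ℝ] ℝ, f δ = 1 ∧ (∀ φ ∈ D.Fd δ, D.In K φ → f φ = 0) ∧ ∀ φ ∈ x, φ ∈ D.Fd δ → -C ≤ f φ

/-- `x` is far from the affine space of `δ` -/
def Far (K : Set D.S) (C : ℝ) (x : Set D.V) (δ : D.V) : Prop := D.Af δ ∧ ¬ D.Near K C x δ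

open Classical in
/-- the step of the direction of `φ`: `{t | φ + t δ ∈ Rt} = ℤ * cst δ φ` for `φ ∈ Fd δ` -/
noncomputable def cst (δ φ : D.V) : ℝ := sInf {t : ℝ | 0 < t ∧ φ + t • δ ∈ D.Rt}

/-- `A` is a system of representatives of the directions of `Fd δ` -/
def Dirs (δ : D.V) (A : Finset D.V) : Prop :=
  (∀ α ∈ A, α ∈ D.Fd δ) ∧ ∀ φ ∈ D.Fd δ, ∃! α, α ∈ A ∧ ∃ t : ℝ, φ = α + t • δ

/-- shift vectors: multiples of `N`, constant on directions, odd, zero on the directions of `K`, orthogonal to the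
translations which are zero on the directions of `K` -/
structure Shd (K : Set D.S) (N : ℕ) (δ : D.V) (ν : D.V → ℤ) : Prop where
  dir : ∀ φ ∈ D.Fd δ, ∀ t : ℝ, φ + t • δ ∈ D.Fd δ → ν (φ + t • δ) = ν φ
  odd : ∀ φ ∈ D.Fd δ, ν (-φ) = -ν φ
  dvd : ∀ φ ∈ D.Fd δ, (N : ℤ) ∣ ν φ
  zro : ∀ φ ∈ D.Fd δ, D.In K φ → ν φ = 0
  ort : ∀ A, D.Dirs δ A → ∀ χ : D.V →ₗ[ℝ] ℝ, χ δ = 0 → (∀ φ ∈ D.Fd δ, D.In K φ → χ φ = 0) →
    ∑ α ∈ A, (ν α : ℝ) * χ α / D.cst δ α = 0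

/-- `y` is obtained from `x` by the shift `ν` in the coordinates of `δ` only -/
structure Shf (K : Set D.S) (N : ℕ) (δ : D.V) (ν : D.V → ℤ) (x y : Set D.V) : Prop where
  shd : D.Shd K N δ ν
  out : ∀ φ ∈ D.Rt, φ ∉ D.Fd δ → (φ ∈ x ↔ φ ∈ y)
  inn : ∀ φ ∈ D.Fd δ, φ ∈ y ↔ φ - ((ν φ : ℝ) * D.cst δ φ) • δ ∈ x

/-- `y` is obtained from `x` by shifts `ν δ`, `δ ∈ Δ`, in orthogonal affine directions at which both are big; `x`, `y` in `YJ K` -/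
structure MSh (K : Set D.S) (N : ℕ) (Δ : Finset D.V) (ν : D.V → D.V → ℤ) (x y : Set D.V) : Prop where
  vx : D.YJ K x
  vy : D.YJ K y
  af : ∀ δ ∈ Δ, D.Af δ ∧ D.Cmp K δ ∧ D.Big x δ ∧ D.Big y δ
  ort : ∀ δ ∈ Δ, ∀ δ' ∈ Δ, δ ≠ δ' → D.B δ δ' = 0
  shd : ∀ δ ∈ Δ, D.Shd K N δ (ν δ)
  out : ∀ φ ∈ D.Rt, (∀ δ ∈ Δ, φ ∉ D.Fd δ) → (φ ∈ x ↔ φ ∈ y)
  inn : ∀ δ ∈ Δ, ∀ φ ∈ D.Fd δ, φ ∈ y ↔ φ - ((ν δ φ : ℝ) * D.cst δ φ) • δ ∈ x

/-- `x` and `y` are related by multiple shifts -/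
def MR (K : Set D.S) (N : ℕ) (x y : Set D.V) : Prop := ∃ Δ ν, D.MSh K N Δ ν x y

/-- `z` is reduced: no far coordinate can be made near by a shift -/
def Red (K : Set D.S) (C : ℝ) (N : ℕ) (z : Set D.V) : Prop :=
  D.YJ K z ∧ ∀ δ, D.Far K C z δ → ∀ y, D.MR K N z y → ¬ D.Near K C y δ

/-- the folding relation: common reduced core -/
def Eqv (K : Set D.S) (C : ℝ) (N : ℕ) (x y : Set D.V) : Prop :=
  ∃ z, D.Red K C N z ∧ D.MR K N z x ∧ D.MR K N z y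

end Rd
end Pool.CS
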