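import Pool.Agent.Work.MP_64ea0f_cs.RAC

set_option autoImplicit false

/-! # Part D, base file: the algebra of functions on lists, flag cochains

All proofs are complete here.  `del` is the coboundary on functions on lists, `Pr g` the prism operator. -/

namespace Pool.CS

section algebra
variable {α β : Type} {F : Type} [AddCommGroup F]

/-- the coboundary on functions on lists: `∑ j, (-1) ^ j • φ (omit the entry j)` -/
def del : (List α → F) → List α → F
  | _, [] => 0
  | φ, x :: l => φ l - del (fun l' => φ (x :: l')) l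

/-- the prism operator: `∑ j, (-1) ^ j • φ (g x_0, ..., g x_j, x_j, ..., x_n)` -/
def Pr (g : α → α) : (List α → F) → List α → F
  | _, [] => 0
  | φ, x :: l => φ (g x :: x :: l) - Pr g (fun l' => φ (g x :: l')) l

@[simp] theorem del_nil (φ : List α → F) : del φ [] = 0 := by simp [del]

theorem del_cons (φ : List α → F) (x : α) (l : List α) :
    del φ (x :: l) = φ l - del (fun l' => φ (x :: l')) l := by simp [del]

@[simp] theorem Pr_nil (g : α → α) (φ : List α → F) : Pr g φ [] = 0 := by simp [Pr]

theorem Pr_cons (g : α → α) (φ : List α → F) (x : α) (l : List α) :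
    Pr g φ (x :: l) = φ (g x :: x :: l) - Pr g (fun l' => φ (g x :: l')) l := by simp [Pr]

theorem del_two (φ : List α → F) (x y : α) (l : List α) :
    del φ (x :: y :: l) = φ (y :: l) - φ (x :: l) + del (fun l' => φ (x :: y :: l')) l := by
  rw [del_cons, del_cons]; abel

theorem del_add (φ ψ : List α → F) (l : List α) :
    del (fun l => φ l + ψ l) l = del φ l + del ψ l := by
  induction l generalizing φ ψ with
  | nil => simp
  | cons x l ih => rw [del_cons, del_cons, del_cons, ih]; abel

theorem del_sub (φ ψ : List α → F) (l : List α) :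
    del (fun l => φ l - ψ l) l = del φ l - del ψ l := by
  induction l generalizing φ ψ with
  | nil => simp
  | cons x l ih => rw [del_cons, del_cons, del_cons, ih]; abel

theorem del_neg (φ : List α → F) (l : List α) : del (fun l => -φ l) l = -del φ l := by
  induction l generalizing φ with
  | nil => simp
  | cons x l ih => rw [del_cons, del_cons, ih]; abel

theorem del_zero (l : List α) : del (fun _ => (0 : F)) l = 0 := by
  induction l with
  | nil => simp
  | cons x l ih => rw [del_cons, ih]; abel

/-- `del φ l` depends only on the values of `φ` at the sublists of `l` with one entry less -/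
theorem del_congr {φ ψ : List α → F} {l : List α}
    (h : ∀ l', l'.Sublist l → l'.length + 1 = l.length → φ l' = ψ l') : del φ l = del ψ l := by
  induction l generalizing φ ψ with
  | nil => simp
  | cons x l ih =>
    rw [del_cons, del_cons, h l (List.sublist_cons_self x l) rfl]
    rw [ih (φ := fun l' => φ (x :: l')) (ψ := fun l' => ψ (x :: l'))]
    intro l' h1 h2
    exact h _ (h1.cons_cons x) (by simpa using h2)

/-- if `φ` vanishes at the sublists of `l` with one entry less then `del φ l = 0` -/
theorem del_eq_zero {φ : List α → F} {l : List α}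
    (h : ∀ l', l'.Sublist l → l'.length + 1 = l.length → φ l' = 0) : del φ l = 0 := by
  rw [del_congr (ψ := fun _ => 0) h, del_zero]

theorem del_del (φ : List α → F) (l : List α) : del (del φ) l = 0 := by
  induction l generalizing φ with
  | nil => simp
  | cons x l ih =>
    rw [del_cons]
    have : (fun l' => del φ (x :: l')) = fun l' => φ l' - del (fun l'' => φ (x :: l'')) l' := by
      funext l'; rw [del_cons]
    rw [this, del_sub, ih]; abel

/-- naturality -/
theorem del_map (f : β → α) (φ : List α → F) (l : List β) :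
    del (fun l' => φ (l'.map f)) l = del φ (l.map f) := by
  induction l generalizing φ with
  | nil => simp
  | cons x l ih =>
    rw [del_cons, List.map_cons, del_cons]
    have := ih (fun l' => φ (f x :: l'))
    rw [← this]
    rfl

theorem Pr_add (g : α → α) (φ ψ : List α → F) (l : List α) :
    Pr g (fun l => φ l + ψ l) l = Pr g φ l + Pr g ψ l := by
  induction l generalizing φ ψ with
  | nil => simp
  | cons x l ih => rw [Pr_cons, Pr_cons, Pr_cons, ih]; abel

theorem Pr_sub (g : α → α) (φ ψ : List α → F) (l : List α) :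
    Pr g (fun l => φ l - ψ l) l = Pr g φ l - Pr g ψ l := by
  induction l generalizing φ ψ with
  | nil => simp
  | cons x l ih => rw [Pr_cons, Pr_cons, Pr_cons, ih]; abel

theorem Pr_zero (g : α → α) (l : List α) : Pr g (fun _ => (0 : F)) l = 0 := by
  induction l with
  | nil => simp
  | cons x l ih => rw [Pr_cons, ih]; abel

/-- the lists on which `Pr g φ l` depends: `l = l1 ++ x :: l2` gives `map g l1 ++ g x :: x :: l2` -/
theorem Pr_congr (g : α → α) {φ ψ : List α → F} {l : List α}
    (h : ∀ l1 x l2, l = l1 ++ x :: l2 → φ (l1.map g ++ g x :: x :: l2) = ψ (l1.map g ++ g x :: x :: l2)) :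
    Pr g φ l = Pr g ψ l := by
  induction l generalizing φ ψ with
  | nil => simp
  | cons x l ih =>
    rw [Pr_cons, Pr_cons]
    have h0 := h [] x l rfl
    simp only [List.map_nil, List.nil_append] at h0
    rw [h0, ih (φ := fun l' => φ (g x :: l')) (ψ := fun l' => ψ (g x :: l'))]
    intro l1 y l2 hl
    have := h (x :: l1) y l2 (by rw [hl]; rfl)
    simpa using this

theorem Pr_eq_zero (g : α → α) {φ : List α → F} {l : List α}
    (h : ∀ l1 x l2, l = l1 ++ x :: l2 → φ (l1.map g ++ g x :: x :: l2) = 0) : Pr g φ l = 0 := by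
  rw [Pr_congr g (ψ := fun _ => 0) h, Pr_zero]

/-- the prism identity -/
theorem prism (g : α → α) (φ : List α → F) (l : List α) :
    del (Pr g φ) l + Pr g (del φ) l = φ l - φ (l.map g) := by
  induction l generalizing φ with
  | nil => simp
  | cons x l ih =>
    have h1 : (fun l' => Pr g φ (x :: l')) =
        fun l' => φ (g x :: x :: l') - Pr g (fun l'' => φ (g x :: l'')) l' := by
      funext l'; rw [Pr_cons]
    have h2 : (fun l' => del φ (g x :: l')) = fun l' => φ l' - del (fun l'' => φ (g x :: l'')) l' := by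
      funext l'; rw [del_cons]
    have h3 := ih (fun l' => φ (g x :: l'))
    rw [del_cons, h1, del_sub, Pr_cons, h2, Pr_sub, del_cons, del_cons, List.map_cons]
    have h4 : φ (g x :: l.map g) = φ (g x :: l) - (del (Pr g fun l' => φ (g x :: l')) l +
        Pr g (del fun l' => φ (g x :: l')) l) := by rw [h3]; abel
    rw [h4]
    abel

end algebra

section cochains
variable {Λ : Type} {V V' : Type} {F : Type} [AddCommGroup F]

/-- `A`-flags: strictly increasing lists of cliques contained in `A` -/
def Fl (G : SimpleGraph Λ) (A : Set Λ) (l : List (Set Λ)) : Prop :=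
  l.Pairwise (· ⊂ ·) ∧ ∀ I ∈ l, G.IsClique I ∧ I ⊆ A

/-- weak `A`-flags -/
def Wk (G : SimpleGraph Λ) (A : Set Λ) (l : List (Set Λ)) : Prop :=
  l.Pairwise (· ⊆ ·) ∧ ∀ I ∈ l, G.IsClique I ∧ I ⊆ A

theorem Fl.wk {G : SimpleGraph Λ} {A : Set Λ} {l : List (Set Λ)} (h : Fl G A l) : Wk G A l :=
  ⟨h.1.imp fun h => h.subset, h.2⟩

theorem Fl.sublist {G : SimpleGraph Λ} {A : Set Λ} {l l' : List (Set Λ)} (h : Fl G A l)
    (h' : l'.Sublist l) : Fl G A l' :=
  ⟨h.1.sublist h', fun I hI => h.2 I (h'.subset hI)⟩

theorem Wk.sublist {G : SimpleGraph Λ} {A : Set Λ} {l l' : List (Set Λ)} (h : Wk G A l)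
    (h' : l'.Sublist l) : Wk G A l' :=
  ⟨h.1.sublist h', fun I hI => h.2 I (h'.subset hI)⟩

theorem Fl.tail {G : SimpleGraph Λ} {A : Set Λ} {x : Set Λ} {l : List (Set Λ)}
    (h : Fl G A (x :: l)) : Fl G A l := h.sublist (List.sublist_cons_self x l)

theorem Fl.mono {G : SimpleGraph Λ} {A A' : Set Λ} (hA : A ⊆ A') {l : List (Set Λ)}
    (h : Fl G A l) : Fl G A' l := ⟨h.1, fun I hI => ⟨(h.2 I hI).1, (h.2 I hI).2.trans hA⟩⟩

theorem Fl.ss {G : SimpleGraph Λ} {A : Set Λ} {x y : Set Λ} {l : List (Set Λ)}
    (h : Fl G A (x :: l)) (hy : y ∈ l) : x ⊂ y := (List.pairwise_cons.1 h.1).1 y hy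

/-- cochains of degree `n` on `A`-flags: invariant under the letters of the first clique.
Only the values at lists of length `n + 1` matter. -/
def Coch {G : SimpleGraph Λ} (L : LS G V) (A : Set Λ) (n : ℕ) (φ : V → List (Set Λ) → F) : Prop :=
  ∀ v x l, Fl G A (x :: l) → l.length = n → ∀ s ∈ x, φ (L.τ s v) (x :: l) = φ v (x :: l)

/-- cocycles of degree `n`, on `A`-flags -/
def Cocy (G : SimpleGraph Λ) (A : Set Λ) (n : ℕ) (φ : V → List (Set Λ) → F) : Prop :=
  ∀ v l, Fl G A l → l.length = n + 2 → del (φ v) l = 0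

/-- `φ = δ ψ` on `A`-flags of length `n + 2`, i.e. in degree `n + 1` -/
def Cob (G : SimpleGraph Λ) (A : Set Λ) (n : ℕ) (φ ψ : V → List (Set Λ) → F) : Prop :=
  ∀ v l, Fl G A l → l.length = n + 2 → φ v l = del (ψ v) l

theorem Coch.del {G : SimpleGraph Λ} {L : LS G V} {A : Set Λ} {n : ℕ} {φ : V → List (Set Λ) → F}
    (h : Coch L A n φ) : Coch L A (n + 1) (fun v => CS.del (φ v)) := by
  intro v x l hl hn s hs
  change CS.del (φ _) _ = CS.del (φ _) _
  rw [del_cons, del_cons]
  cases l with
  | nil => simp at hn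
  | cons y l =>
    have hxy : x ⊂ y := hl.ss (List.mem_cons_self)
    rw [h v y l hl.tail (by simpa using hn) s (hxy.subset hs)]
    congr 1
    refine del_congr fun l' h1 h2 => ?_
    refine h v x l' (hl.sublist (h1.cons_cons x)) ?_ s hs
    simp only [List.length_cons] at h2 hn
    omega

theorem Coch.add {G : SimpleGraph Λ} {L : LS G V} {A : Set Λ} {n : ℕ} {φ ψ : V → List (Set Λ) → F}
    (h : Coch L A n φ) (h' : Coch L A n ψ) : Coch L A n (fun v l => φ v l + ψ v l) := by
  intro v x l hl hn s hs
  change φ _ _ + ψ _ _ = φ _ _ + ψ _ _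
  rw [h v x l hl hn s hs, h' v x l hl hn s hs]

theorem Coch.sub {G : SimpleGraph Λ} {L : LS G V} {A : Set Λ} {n : ℕ} {φ ψ : V → List (Set Λ) → F}
    (h : Coch L A n φ) (h' : Coch L A n ψ) : Coch L A n (fun v l => φ v l - ψ v l) := by
  intro v x l hl hn s hs
  change φ _ _ - ψ _ _ = φ _ _ - ψ _ _
  rw [h v x l hl hn s hs, h' v x l hl hn s hs]

omit [AddCommGroup F] in
theorem Coch.mono {G : SimpleGraph Λ} {L : LS G V} {A A' : Set Λ} (hA : A ⊆ A') {n : ℕ}
    {φ : V → List (Set Λ) → F} (h : Coch L A' n φ) : Coch L A n φ :=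
  fun v x l hl hn s hs => h v x l (hl.mono hA) hn s hs

omit [AddCommGroup F] in
/-- pullback along a map which is equivariant for the letters of `A` -/
theorem Coch.pull {G : SimpleGraph Λ} {L : LS G V} {L' : LS G V'} {A : Set Λ} {n : ℕ}
    {φ : V → List (Set Λ) → F} (h : Coch L A n φ) {π : V' → V}
    (hπ : ∀ a ∈ A, ∀ v, π (L'.τ a v) = L.τ a (π v)) : Coch L' A n (fun v => φ (π v)) := by
  intro v x l hl hn s hs
  change φ (π _) _ = φ (π _) _
  rw [hπ s ((hl.2 x List.mem_cons_self).2 hs)]
  exact h (π v) x l hl hn s hs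

open Classical in
/-- extension by zero from the `A`-flags to all lists -/
noncomputable def hat (G : SimpleGraph Λ) (A : Set Λ) (f : List (Set Λ) → F)
    (l : List (Set Λ)) : F := if Fl G A l then f l else 0

theorem hat_fl {G : SimpleGraph Λ} {A : Set Λ} (f : List (Set Λ) → F)
    {l : List (Set Λ)} (h : Fl G A l) : hat G A f l = f l := if_pos h

theorem hat_not {G : SimpleGraph Λ} {A : Set Λ} (f : List (Set Λ) → F)
    {l : List (Set Λ)} (h : ¬ Fl G A l) : hat G A f l = 0 := if_neg h

/-- `hat` of a cochain is invariant under the letters of the first member, for all lists -/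
theorem Coch.hat {G : SimpleGraph Λ} {L : LS G V} {A : Set Λ} {n : ℕ} {φ : V → List (Set Λ) → F}
    (h : Coch L A n φ) (v : V) (x : Set Λ) (l : List (Set Λ)) (hn : l.length = n) (s : Λ) (hs : s ∈ x) :
    CS.hat G A (φ (L.τ s v)) (x :: l) = CS.hat G A (φ v) (x :: l) := by
  by_cases hf : Fl G A (x :: l)
  · rw [hat_fl _ hf, hat_fl _ hf]; exact h v x l hf hn s hs
  · rw [hat_not _ hf, hat_not _ hf]

/-- the letters which move `y` -/
def mvs {G : SimpleGraph Λ} (L : LS G V) (y : V) : Set Λ := {s | L.τ s y ≠ y}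

/-- moving is stable under commuting moves -/
def Mv {G : SimpleGraph Λ} (L : LS G V) : Prop :=
  ∀ a b, G.Adj a b → ∀ y, L.τ a y ≠ y → (L.τ b (L.τ a y) ≠ L.τ a y ↔ L.τ b y ≠ y)

/-- true flags at `y` are `mvs L y`-flags; cochains of degree `n` on the true flags -/
def TCoch {G : SimpleGraph Λ} (L : LS G V) (n : ℕ) (φ : V → List (Set Λ) → F) : Prop :=
  ∀ y x l, Fl G (mvs L y) (x :: l) → l.length = n → ∀ s ∈ x, φ (L.τ s y) (x :: l) = φ y (x :: l)

/-- extension of a function on true flags to all flags: intersect with the letters which move the point, extend by zero -/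
noncomputable def rst {G : SimpleGraph Λ} (L : LS G V) (φ : V → List (Set Λ) → F) (y : V)
    (l : List (Set Λ)) : F := hat G (mvs L y) (φ y) (l.map fun I => I ∩ mvs L y)

end cochains

/-- product of two `LS` -/
def LS.prod {Λ : Type} {G : SimpleGraph Λ} {V Q : Type} (L : LS G V) (M : LS G Q) : LS G (V × Q) where
  τ a x := (L.τ a x.1, M.τ a x.2)
  inv a x := by simp [L.inv, M.inv]
  com a b h x := by simp [L.com a b h, M.com a b h]

open Classical in
/-- the letters outside of `A` are made trivial -/
noncomputable def LS.rest {Λ : Type} {G : SimpleGraph Λ} {V : Type} (L : LS G V) (A : Set Λ) : LS G V where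
  τ a v := if a ∈ A then L.τ a v else v
  inv a v := by split_ifs <;> simp [L.inv]
  com a b h v := by split_ifs <;> simp [L.com a b h]

theorem LS.rest_mem {Λ : Type} {G : SimpleGraph Λ} {V : Type} (L : LS G V) {A : Set Λ} {a : Λ} (h : a ∈ A) (v : V) :
    (L.rest A).τ a v = L.τ a v := if_pos h

theorem LS.rest_not {Λ : Type} {G : SimpleGraph Λ} {V : Type} (L : LS G V) {A : Set Λ} {a : Λ} (h : a ∉ A) (v : V) :
    (L.rest A).τ a v = v := if_neg h

end Pool.CS
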