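import Pool.Agent.Work.MP_64ea0f_cs.Defs

set_option autoImplicit false

/-! # Stage A: root systems (statements with proofs in the comments)

Notation: `V = S → ℝ`, `e s` simple roots, `B` the form, `Rt` roots, `Ps` positive roots, `On w φ`: `w⁻¹ φ` is
positive (the chamber `w` is on the positive side of `φ`), `Sub φ ψ`: `H_φ ⊆ H_ψ`, where `H_φ = {w | On w φ}`. -/

namespace Pool.CS

/-! ## A1. Coxeter groups have a based root system -/

/-- GREP: the geometric representation exists. Template: `Pool/Agent/Work/MP_7084a3_h91/B/GREP.lean` (254 lines, for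
matrices without infinity; the entry `-2` for infinity plays no role in the relations). -/
def Stmt_GREP : Prop :=
  ∀ (S : Type) [Fintype S] [DecidableEq S] (M : CoxeterMatrix S),
    ∃ ρ : M.Group →* Module.End ℝ (S → ℝ), ∀ s v, ρ (M.simple s) v =
      v - (2 * bform (fun s t => kf (M s t)) v (Pi.single s 1)) • (Pi.single s 1 : S → ℝ)

/-- POS: Tits' theorem. Template: `Pool/Agent/Work/MP_7084a3_h91/B/POS.lean` (307 lines, for matrices without
infinity). New: the case `M s t = 0` of the dihedral group: with `B(α_s,α_t) = -2`, the alternating products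
`a_k α_s` have nonnegative coefficients in `α_s, α_t` for all `k` (coefficients `c_k, c_{k+1}` with
`c_{k+1} = 4 c_k - c_{k-1}`, `c_0 = 0`, `c_1 = 1`, increasing). -/
def Stmt_POS : Prop :=
  ∀ (S : Type) [Fintype S] [DecidableEq S] (M : CoxeterMatrix S)
    (ρ : M.Group →* Module.End ℝ (S → ℝ)), (∀ s v, ρ (M.simple s) v =
      v - (2 * bform (fun s t => kf (M s t)) v (Pi.single s 1)) • (Pi.single s 1 : S → ℝ)) →
    ∀ (w : M.Group) (s : S),
      (M.toCoxeterSystem.length w < M.toCoxeterSystem.length (w * M.simple s) →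
        ∀ t, 0 ≤ ρ w (Pi.single s 1) t) ∧
      (M.toCoxeterSystem.length (w * M.simple s) < M.toCoxeterSystem.length w →
        ∀ t, ρ w (Pi.single s 1) t ≤ 0)

/-- INT: integrality. `2 cos (π/m)` is an algebraic integer (sum of two roots of unity in `ℂ`; take the subring
generated by finitely many of them). -/
def Stmt_INT : Prop :=
  ∀ (S : Type) [Fintype S] (M : CoxeterMatrix S),
    ∃ A : Subring ℝ, Module.Finite ℤ A ∧ ∀ s t, 2 * kf (M s t) ∈ A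

/-- RDX (uses GREP, POS, INT): the root system of a Coxeter matrix. `triv`: if `w ≠ 1` there is `s` with
`ℓ(w s) < ℓ(w)` (Mathlib: `CoxeterSystem.exists_rightDescent_of_ne_one` or similar) and then `ρ w α_s ≤ 0`; if it
were also `≥ 0` it would be `0`, but `ρ w` is injective. `gen`: `CoxeterSystem` (generation by simple reflections). -/
def Stmt_RDX : Prop :=
  ∀ (S : Type) [Fintype S] [DecidableEq S] (M : CoxeterMatrix S),
    ∃ ρ : M.Group →* Module.End ℝ (S → ℝ),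
      (∀ s v, ρ (M.simple s) v =
        v - (2 * bform (fun s t => kf (M s t)) v (Pi.single s 1)) • (Pi.single s 1 : S → ℝ)) ∧
      Subgroup.closure (Set.range M.simple) = ⊤ ∧
      (∀ w s, (∀ t, 0 ≤ ρ w (Pi.single s 1) t) ∨ (∀ t, ρ w (Pi.single s 1) t ≤ 0)) ∧
      (∀ w, (∀ s t, 0 ≤ ρ w (Pi.single s 1) t) → w = 1)

/-! ## A2. Basic facts on `Rd` -/

/-- BAS: the form and the reflections. `rf φ` is the reflection in `φ`. The last but one item: if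
`rf φ = rf ψ` then the reflection formula gives that `ψ` is a multiple of `φ`, and `B φ φ = B ψ ψ = 1`. `ρ` is injective
by `triv`. -/
def Stmt_BAS : Prop :=
  ∀ D : Rd,
    (∀ v w, D.B v w = D.B w v) ∧
    (∀ (a b : ℝ) v v' w, D.B (a • v + b • v') w = a * D.B v w + b * D.B v' w) ∧
    (∀ s t, D.B (D.e s) (D.e t) = D.k s t) ∧
    (∀ v, D.B v v = ∑ s, v s * D.B v (D.e s)) ∧
    (∀ w v v', D.B (D.ρ w v) (D.ρ w v') = D.B v v') ∧
    (∀ φ ∈ D.Rt, D.B φ φ = 1) ∧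
    (∀ s, D.e s ∈ D.Rt) ∧ (∀ φ ∈ D.Rt, ∀ w, D.ρ w φ ∈ D.Rt) ∧ (∀ φ ∈ D.Rt, -φ ∈ D.Rt) ∧
    (∀ φ ∈ D.Rt, ∀ v, D.ρ (D.rf φ) v = v - (2 * D.B v φ) • φ) ∧
    (∀ φ ∈ D.Rt, D.rf φ * D.rf φ = 1) ∧
    (∀ φ ∈ D.Rt, ∀ w, D.rf (D.ρ w φ) = w * D.rf φ * w⁻¹) ∧
    (∀ φ ∈ D.Rt, D.rf (-φ) = D.rf φ) ∧ (∀ s, D.rf (D.e s) = D.σ s) ∧
    (∀ φ ∈ D.Rt, ∀ ψ ∈ D.Rt, D.rf φ = D.rf ψ → ψ = φ ∨ ψ = -φ) ∧
    (∀ w, D.ρ w = 1 → w = 1)

/-- SGN (uses BAS): signs. If `φ ∈ Ps`, `φ ≠ e s`, then `φ t > 0` for some `t ≠ s` (as `B φ φ = 1 = B (e s) (e s)`), this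
coordinate is unchanged by `ρ (σ s)`. -/
def Stmt_SGN : Prop :=
  ∀ D : Rd,
    (∀ φ ∈ D.Rt, φ ∈ D.Ps ∨ -φ ∈ D.Ps) ∧ (∀ φ, φ ∈ D.Ps → -φ ∉ D.Ps) ∧ (0 : D.V) ∉ D.Rt ∧
    (∀ s, D.e s ∈ D.Ps) ∧
    (∀ s, ∀ φ ∈ D.Ps, φ ≠ D.e s → D.ρ (D.σ s) φ ∈ D.Ps) ∧
    (∀ φ ∈ D.Rt, ∀ w, D.On w φ ∨ D.On w (-φ)) ∧ (∀ φ w, D.On w φ → ¬ D.On w (-φ)) ∧
    (∀ φ w v, D.On w φ ↔ D.On (v * w) (D.ρ v φ)) ∧
    (∀ φ ∈ D.Rt, ∃ w, D.On w φ)

/-- LEN (uses BAS, SGN): inversions. `N (w σ_s) = {e s} ∪ σ_s N w` if `w (e s) > 0`. -/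
def Stmt_LEN : Prop :=
  ∀ D : Rd,
    (∀ w, (D.N w).Finite) ∧ (∀ w, D.len w = 0 ↔ w = 1) ∧
    (∀ w s, D.ρ w (D.e s) ∈ D.Ps → D.N (w * D.σ s) = insert (D.e s) (D.ρ (D.σ s) '' D.N w)) ∧
    (∀ w s, D.ρ w (D.e s) ∈ D.Ps → D.len (w * D.σ s) = D.len w + 1) ∧
    (∀ w s, D.ρ w (D.e s) ∉ D.Ps → D.len (w * D.σ s) + 1 = D.len w) ∧
    (∀ w, w ≠ 1 → ∃ s, D.ρ w (D.e s) ∉ D.Ps) ∧
    (∀ w w', {φ | D.On w φ ∧ ¬ D.On w' φ}.Finite)

/-- HGT (uses BAS, SGN, LEN): finitely many positive roots of bounded height. If `φ ∈ Ps` is not simple,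
`1 = B φ φ = ∑ φ s * B φ (e s)`, so `B φ (e s) ≥ 1 / ht φ` for some `s`, and `ρ (σ s) φ` is positive (SGN) of height
`ht φ - 2 B φ (e s) ≤ ht φ - 2 / ht φ`. So every positive root of height `≤ C` is obtained from a simple root by at
most `C² / 2 + 1` simple reflections. -/
def Stmt_HGT : Prop := ∀ (D : Rd) (C : ℝ), {φ | φ ∈ D.Ps ∧ D.ht φ ≤ C}.Finite

/-- FINO (uses BAS, SGN, LEN). Template: `MP_7084a3_h91/B/FINO.lean` (347 lines). `R = rf φ * rf ψ` is a rotation by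
`2θ` of the positive definite plane `P` spanned by `φ, ψ`, trivial on the orthogonal complement. If no power of it
is trivial, the roots `R^j φ` are dense in the unit circle of `P`; an open arc of `P` on which the height is
positive and the height composed with `rf φ` is negative contains infinitely many of them, against LEN. -/
def Stmt_FINO : Prop :=
  ∀ D : Rd, ∀ φ ∈ D.Rt, ∀ ψ ∈ D.Rt, |D.B φ ψ| < 1 → ∃ k : ℕ, 0 < k ∧ (D.rf φ * D.rf ψ) ^ k = 1

/-- INFO (uses BAS). Template: `MP_7084a3_h91/B/INFO.lean`. -/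
def Stmt_INFO : Prop :=
  ∀ D : Rd, ∀ φ ∈ D.Rt, ∀ ψ ∈ D.Rt, 1 ≤ |D.B φ ψ| → φ ≠ ψ → φ ≠ -ψ →
    ∀ k : ℕ, 0 < k → (D.rf φ * D.rf ψ) ^ k ≠ 1

/-- FAC (uses BAS, SGN, LEN, INFO): if `B φ ψ ≤ -1`, `ψ ≠ -φ`, and both are positive at some chamber, they are not
both negative at another one. All `x_j = (rf φ rf ψ)^j φ` (`j ≥ 0`) are roots `p φ + q ψ` with `p, q ≥ 0`
(`b = -B φ ψ ≥ 1`: with `y_0 = -ψ`, `y_1 = φ`, `y_{j+1} = 2 b y_j - y_{j-1}`... all coefficients nonnegative), pairwise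
different (INFO), positive at the first chamber and negative at the second, against LEN (last item). -/
def Stmt_FAC : Prop :=
  ∀ D : Rd, ∀ φ ∈ D.Rt, ∀ ψ ∈ D.Rt, D.B φ ψ ≤ -1 → ∀ w w', D.On w φ → D.On w ψ →
    ¬ (D.On w' (-φ) ∧ D.On w' (-ψ))

/-- NST (uses BAS, SGN, LEN, FINO, FAC): nested half-spaces and the form.
(1) `Sub φ ψ`, `φ ≠ ψ` imply `B φ ψ ≥ 1`: not `B φ ψ ≤ -1`: otherwise `(φ, ψ)` positive at some `w` (SGN; `Sub`), so by
FAC never both negative, so `H_{-ψ} ⊆ H_φ ⊆ H_ψ`, impossible (SGN). Not `|B φ ψ| < 1`: then `R = rf ψ * rf φ` has finite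
order; from `H_φ ⊆ H_ψ`, applying `rf ψ`: `H_{rf ψ φ} ⊆ H_{-ψ} ⊆ H_{-φ}`, i.e. `H_φ ⊆ H_{-rf ψ φ} = R H_φ`
(`ρ R φ = - ρ (rf ψ) φ`); so `H_φ ⊆ R H_φ ⊆ ... ⊆ R^k H_φ = H_φ`, all equal, `H_φ = H_ψ`, so `φ = ψ` (3).
(2) `B φ ψ ≥ 1`: FAC for `φ, -ψ`: one of the quadrants `(φ, -ψ)`, `(-φ, ψ)` is empty.
(3) antisymmetry: `Sub φ ψ`, `Sub ψ φ`, then `φ = ψ`: move `ψ` to a simple root `e s`: `On 1 (e s)`, `On (σ s) (-e s)`; so
`φ ∈ Ps` and `ρ (σ s) φ ∉ Ps`, so `φ = e s` by SGN.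
(4) `|B φ ψ| < 1`: by (1), no quadrant is empty (apply (1) to `φ, -ψ` etc.). -/
def Stmt_NST : Prop :=
  ∀ D : Rd, ∀ φ ∈ D.Rt, ∀ ψ ∈ D.Rt,
    (D.Sub φ ψ → φ ≠ ψ → 1 ≤ D.B φ ψ) ∧
    (1 ≤ D.B φ ψ → D.Sub φ ψ ∨ D.Sub ψ φ) ∧
    (D.Sub φ ψ → D.Sub ψ φ → φ = ψ) ∧
    (|D.B φ ψ| < 1 → ∃ w, D.On w φ ∧ D.On w ψ) ∧
    (D.Sub φ ψ ↔ D.Sub (-ψ) (-φ)) ∧ (∀ w, D.Sub φ ψ ↔ D.Sub (D.ρ w φ) (D.ρ w ψ))

/-! ## A3. Parabolic subgroups, Tits cone -/

/-- PAR (uses BAS, SGN, LEN): parabolic subgroups. If all inversions of `w ≠ 1` are supported in `J`, the simple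
root `e s` with `w (e s) < 0` has `s ∈ J`, and `N (w σ_s)` is again supported in `J`. A root supported in `J`: move it
by `par J` to a root `ψ` of minimal height among the nonnegative ones; `1 = B ψ ψ` gives `s ∈ J` with `B ψ (e s) > 0`,
so `ψ = e s`. -/
def Stmt_PAR : Prop :=
  ∀ (D : Rd) (J : Set D.S),
    (∀ w, w ∈ D.par J ↔ ∀ φ ∈ D.N w, D.In J φ) ∧
    (∀ φ ∈ D.Rt, D.In J φ → ∃ w ∈ D.par J, ∃ s ∈ J, φ = D.ρ w (D.e s)) ∧
    (∀ w ∈ D.par J, ∀ v, D.In J (D.ρ w v - v)) ∧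
    (∀ φ ∈ D.Rt, D.In J φ → D.rf φ ∈ D.par J) ∧
    (∀ φ ∈ D.Rt, D.rf φ ∈ D.par J → D.In J φ) ∧
    (∀ w ∈ D.par J, ∀ φ ∈ D.Ps, ¬ D.In J φ → D.ρ w φ ∈ D.Ps)

/-- TIT (uses BAS, SGN, LEN, PAR): the Tits cone. Closed under addition, positive multiples, `W`; contains the
height. Every `y ∈ Tc` can be moved to the closed fundamental chamber (induction on the number of positive roots
with `y φ < 0`: if `y (e s) < 0` replace `y` by `y ∘ ρ (σ s)`). If `y` is in the closed fundamental chamber and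
`y ∘ ρ w` too, they are equal and `w ∈ par {s | y (e s) = 0}` (induction on `len w`: `w ≠ 1`, `w (e s) < 0`; then
`0 ≤ y (w (e s)) ≤ 0`...). -/
def Stmt_TIT : Prop :=
  ∀ D : Rd,
    (∀ y ∈ D.Tc, ∀ y' ∈ D.Tc, y + y' ∈ D.Tc) ∧ (∀ y ∈ D.Tc, ∀ a : ℝ, 0 ≤ a → a • y ∈ D.Tc) ∧
    (∀ y ∈ D.Tc, ∀ w, y ∘ₗ D.ρ w ∈ D.Tc) ∧
    (∀ y : D.V →ₗ[ℝ] ℝ, (∀ s, 0 ≤ y (D.e s)) → y ∈ D.Tc) ∧
    (∀ y ∈ D.Tc, ∃ w, ∀ s, 0 ≤ y (D.ρ w (D.e s))) ∧
    (∀ y : D.V →ₗ[ℝ] ℝ, (∀ s, 0 ≤ y (D.e s)) → ∀ w, (∀ s, 0 ≤ y (D.ρ w (D.e s))) →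
      y ∘ₗ D.ρ w = y ∧ w ∈ D.par {s | y (D.e s) = 0}) ∧
    (∀ y : D.V →ₗ[ℝ] ℝ, ∀ w ∈ D.par {s | y (D.e s) = 0}, y ∘ₗ D.ρ w = y)

/-- PIN (uses TIT, PAR): the intersection of two parabolic subgroups is parabolic. `cp g J` is the stabiliser of
`y = y_J ∘ ρ g⁻¹`, `y_J (e s) = 0` for `s ∈ J` and `1` otherwise; for `y, y' ∈ Tc` choose `ε > 0` such that for every root `φ`:
`(y + ε y') φ = 0` iff `y φ = 0` and `y' φ = 0` (only finitely many positive roots `φ` have `y φ < 0` or `y' φ < 0`); the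
stabiliser of `y + ε y' ∈ Tc` is parabolic (TIT), generated by the reflections in the roots vanishing on it
(PAR), so it is contained in both stabilisers; conversely clear. -/
def Stmt_PIN : Prop :=
  ∀ (D : Rd) (g g' : D.W) (J J' : Set D.S), ∃ (g'' : D.W) (J'' : Set D.S),
    D.cp g J ⊓ D.cp g' J' = D.cp g'' J''

/-- RNK (uses PAR): inclusion of parabolic subgroups and ranks: `g V_J ⊆ g' V_{J'}` (the reflections of `cp g J` are
those in the roots in `g V_J`), dimensions. -/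
def Stmt_RNK : Prop :=
  ∀ (D : Rd) (g g' : D.W) (J J' : Set D.S), D.cp g J ≤ D.cp g' J' →
    J.ncard ≤ J'.ncard ∧ (J.ncard = J'.ncard → D.cp g J = D.cp g' J') ∧
    (∀ v, D.In J v → D.In J' (D.ρ (g'⁻¹ * g) v))

/-- PCL (uses PIN, RNK, TIT): parabolic closures; finite subgroups are contained in finite parabolic subgroups
(the sum over the subgroup of the translates of the height is a fixed point of `Tc` at which only finitely many
positive roots are `≤ 0`, so its stabiliser, which is parabolic by TIT, is finite: its reflections are finitely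
many and it acts faithfully on its roots... or: an element of it has all its inversions in a fixed finite set,
LEN). -/
def Stmt_PCL : Prop :=
  ∀ (D : Rd) (F : Subgroup D.W),
    (∃ (g : D.W) (J : Set D.S), F ≤ D.cp g J ∧
      ∀ (g' : D.W) (J' : Set D.S), F ≤ D.cp g' J' → D.cp g J ≤ D.cp g' J') ∧
    (Finite F → ∃ (g : D.W) (J : Set D.S), F ≤ D.cp g J ∧ Finite (D.par J))

/-- FPR (uses BAS, SGN, LEN, PAR): if `par J` is finite then the roots supported in `J` are finitely many and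
`|B φ ψ| < 1` for two of them with `ψ ≠ ± φ` (INFO). -/
def Stmt_FPR : Prop :=
  ∀ (D : Rd) (J : Set D.S), Finite (D.par J) →
    {φ | φ ∈ D.Rt ∧ D.In J φ}.Finite ∧
    ∀ φ ∈ D.Rt, ∀ ψ ∈ D.Rt, D.In J φ → D.In J ψ → ψ ≠ φ → ψ ≠ -φ → |D.B φ ψ| < 1

/-- RSF (uses BAS, SGN, PAR, PCL): congruence subgroups. `A` the subring of `intg`, all matrices `ρ w` have entries
in `A`, and so do the coordinates of roots. For `n ≥ 3` let `N_n` be the set of all `h` with `ρ h ≡ 1` mod `n A`: the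
kernel of `W → GL(A / n A)`, a normal subgroup of finite index (`A / n A` is finite). For `h ∈ N_n`, `ρ h φ ≡ φ` mod
`n A`; if `ρ h φ = -φ` then `2 φ ≡ 0` and, moving `φ` to a simple root, `2 ∈ n A`, impossible (`A` is a finitely generated
torsion-free `ℤ`-module containing `1`; `2/n ∉ A` because `2/n` is not integral over `ℤ` for `n ≥ 3`). A given `x ≠ 1` is
not in `N_n` for `n` large (a nonzero `a ∈ A` is not in `n A` for some... all large `n`: `A` is free of finite rank). Use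
products of finitely many `n`. Torsion: every `h ∈ N_n` of finite order is conjugate to an element of a finite
`par J` (PCL); put these finitely many nontrivial elements into `E`. -/
def Stmt_RSF : Prop :=
  ∀ (D : Rd) (E : Set D.W), E.Finite → 1 ∉ E → ∃ N : Subgroup D.W, N.Normal ∧ N.FiniteIndex ∧
    (∀ h ∈ N, ∀ n : ℕ, 0 < n → h ^ n = 1 → h = 1) ∧ (∀ h ∈ N, ∀ φ ∈ D.Rt, D.ρ h φ ≠ -φ) ∧
    ∀ x ∈ E, x ∉ N

/-- NRM (uses BAS, SGN, LEN, PAR): normalisers. If `w` normalises `par J` then `ρ w` permutes the roots supported in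
`J` (PAR); let `p ∈ par J` be such that `p w` has the minimal number of positive roots supported in `J` sent to
negative ones; then this number is `0` (otherwise some `e s`, `s ∈ J`, ... use `w⁻¹`), so `p w ∈ NJ J`. An element of
`par J` in `NJ J` is trivial. `NJ J` is closed under products and inverses. `NJ J` normalises `par J`. -/
def Stmt_NRM : Prop :=
  ∀ (D : Rd) (J : Set D.S),
    (∀ w, (D.par J).map (MulAut.conj w).toMonoidHom = D.par J → ∃ p ∈ D.par J, p * w ∈ D.NJ J) ∧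
    (∀ p ∈ D.par J, p ∈ D.NJ J → p = 1) ∧
    (∀ n ∈ D.NJ J, (D.par J).map (MulAut.conj n).toMonoidHom = D.par J) ∧
    (1 ∈ D.NJ J) ∧ (∀ n ∈ D.NJ J, n⁻¹ ∈ D.NJ J) ∧ (∀ n ∈ D.NJ J, ∀ n' ∈ D.NJ J, n * n' ∈ D.NJ J) ∧
    (∀ n ∈ D.NJ J, ∀ φ ∈ D.Rt, D.In J φ → D.ρ n φ ∈ D.Rt ∧ D.In J (D.ρ n φ))

/-- DEO (uses BAS, SGN, LEN, PAR, NRM): Deodhar. Hypothesis on `J`: every nonempty union `K` of components of `J` has
infinite `par K`. Then `NJ J ⊆ par (perp J)`. Induction on `len n`, `n ≠ 1`: let `s` with `n (e s) < 0`; `s ∉ J`. Claim: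
`s ∈ perp J`. If `φ` is a positive root supported in `J ∪ {s}` with `φ s > 0` then `n φ < 0`: `n φ` is the sum of
`φ s • n (e s)` and of a vector supported in `J`, and `n (e s)` has a negative coordinate outside of `J` (otherwise,
being a root, it is supported in `J`... then `e s` would be supported in `J` by NJ). So there are finitely many
such `φ` (LEN). Let `K` be the component of `J` containing a `t` with `k s t ≠ 0` (the set of all elements of `J` connected to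
`t` in `J`). The set `K-orbit` `{ρ w (e s) | w ∈ par K}` consists of such `φ` (PAR), so it is finite; let `v` be the sum of its
elements: `v = m • e s + u` with `m > 0`, `u` nonnegative supported in `K`, `v` invariant under `par K`, so `B v (e t) = 0` for
`t ∈ K`, `B u (e t) = - m k s t ≥ 0` for all `t ∈ K`, and `> 0` for some. Then (PF below) `par K` is finite: contradiction.
So `s ∈ perp J`, `n σ_s ∈ NJ J` has smaller length. -/
def Stmt_DEO : Prop :=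
  ∀ (D : Rd) (J : Set D.S),
    (∀ K ⊆ J, K.Nonempty → (∀ s ∈ K, ∀ t ∈ J \ K, D.k s t = 0) → ¬ Finite (D.par K)) →
    ∀ n ∈ D.NJ J, n ∈ D.par (D.perp J)

/-- PFF (uses BAS, SGN, LEN, PAR, HGT): if `K` is connected and there is `u ≥ 0` supported in `K` with `B u (e t) ≥ 0`
for all `t ∈ K`, not all zero, then `par K` is finite. Proof: `u t > 0` for all `t ∈ K` by connectedness (if
`u t = 0` then `0 ≤ B u (e t) = ∑ u r * k r t ≤ 0`, so `u r = 0` for all neighbours `r`; `u ≠ 0`). For `φ` positive supported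
in `K`: `B u φ ≥ 0`. Fact 1: there is `ε > 0` with `B v v ≥ ε |v|²` for `v` supported in `K`: for `v` write `v t = u t * a t`;
`B v v = ∑_t v_t² (B u (e t)) / u_t + (1/2) ∑_{r ≠ t} (-k r t) u r u t (a r - a t)² ≥ 0`, with equality iff `a` is constant on `K`
(connected) and `a t = 0` for a `t` with `B u (e t) > 0`. So `B` is positive definite on `V_K`, roots supported in `K`
have bounded coordinates (`B φ φ = 1`), so they are finitely many (HGT), and `par K` acts faithfully on them. -/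
def Stmt_PFF : Prop :=
  ∀ (D : Rd) (K : Set D.S), (∀ K' ⊆ K, K'.Nonempty → (∀ s ∈ K', ∀ t ∈ K \ K', D.k s t = 0) → K' = K) →
    (∃ u : D.V, (∀ s, 0 ≤ u s) ∧ D.In K u ∧ (∀ t ∈ K, 0 ≤ D.B u (D.e t)) ∧
      ∃ t ∈ K, 0 < D.B u (D.e t)) → Finite (D.par K)

/-- IMC (uses BAS, SGN, LEN, HGT, PAR): the imaginary cone. (1) Choose `w` among the elements with `w φ, w ψ ∈ Ps` such
that the height of `w (φ + ψ)` is minimal (HGT: finitely many pairs of positive roots of bounded height). If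
`B (w (φ + ψ)) (e s) > 0`: if `w φ ≠ e s ≠ w ψ` then `σ_s w` is better; if `w φ = e s`, `B = 1 + B φ ψ ≤ 0`. (2) induction on `len w`,
`w = w' σ_s` with `w' (e s) > 0`: `w v - w' v = -2 B v (e s) w' (e s) ≥ 0`. (3) induction on `len w`: `w (e s) < 0`,
`B v (e s) = B (w v) (w (e s)) ≥ 0`, so it is `0`, `σ_s v = v`. -/
def Stmt_IMC : Prop :=
  ∀ D : Rd,
    (∀ φ ∈ D.Ps, ∀ ψ ∈ D.Ps, D.B φ ψ ≤ -1 → ∃ w, D.ρ w φ ∈ D.Ps ∧ D.ρ w ψ ∈ D.Ps ∧
      D.ρ w (φ + ψ) ∈ D.Kc) ∧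
    (∀ v ∈ D.Kc, ∀ w s, v s ≤ D.ρ w v s) ∧
    (∀ v ∈ D.Kc, ∀ w, D.ρ w v ∈ D.Kc → D.ρ w v = v ∧ w ∈ D.par {s | D.B v (D.e s) = 0})

/-- RES (uses BAS, PAR, RNK): the root system of a parabolic subgroup. -/
def Stmt_RES : Prop :=
  ∀ (D : Rd) (J : Set D.S), ∃ (D' : Rd) (i : D'.S → D.S) (f : D'.W →* D.W),
    Function.Injective i ∧ Set.range i = J ∧ Function.Injective f ∧ f.range = D.par J ∧
    (∀ s t, D'.k s t = D.k (i s) (i t)) ∧ (∀ s, f (D'.σ s) = D.σ (i s)) ∧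
    (D.AF → D'.AF)

end Pool.CS
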