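import Pool.Agent.Work.MP_64ea0f_cs.InterfaceA
import Pool.Agent.Work.MP_64ea0f_cs.Defs2

set_option autoImplicit false

/-! # Stage B: the cubing (statements with proofs in the comments)

A vertex `x` (`Vx x`) is a consistent orientation of the roots which differs from that of a chamber in finitely many roots.
`Mn x φ`: `φ` is minimal in `x`, it can be flipped; `fl x φ` is the neighbour. `Ps` is the vertex of the chamber `1`.
Two minimal roots of a vertex span a square iff `|B φ ψ| < 1`. -/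

namespace Pool.CS

/-! ## B1. Vertices and flips -/

/-- VX1 (uses BAS, SGN, LEN): vertices. Up-closed: if `φ ∈ x`, `Sub φ ψ`, `ψ ∉ x` then `-ψ ∈ x`, `cmp φ (-ψ)` gives `w` with
`On w φ`, `On w (-ψ)`, against `Sub`. -/
def Stmt_VX1 : Prop :=
  ∀ D : Rd,
    D.Vx D.Ps ∧ (∀ x, D.Vx x → ∀ w, D.Vx (D.act w x)) ∧
    (∀ x, D.act 1 x = x) ∧ (∀ w w' x, D.act (w * w') x = D.act w (D.act w' x)) ∧
    (∀ w x φ, φ ∈ x ↔ D.ρ w φ ∈ D.act w x) ∧ (∀ w x φ, φ ∈ D.act w x ↔ D.ρ w⁻¹ φ ∈ x) ∧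
    (∀ x, D.Vx x → ∀ w φ, D.Mn x φ ↔ D.Mn (D.act w x) (D.ρ w φ)) ∧
    (∀ w, D.act w D.Ps = D.Ps → w = 1) ∧
    (∀ x, D.Vx x → ∀ φ ∈ x, -φ ∉ x) ∧
    (∀ x, D.Vx x → ∀ φ ∈ x, ∀ ψ ∈ D.Rt, D.Sub φ ψ → ψ ∈ x) ∧
    (∀ x, D.Vx x → ∀ y, D.Vx y → (x \ y).Finite ∧ (x \ y).ncard = (y \ x).ncard ∧ (x ⊆ y → x = y))

/-- VX2 (uses VX1, SGN): flips. `cmp` for `-φ, ψ`, `ψ ∈ x \ {φ}`: if there is no `w` with `On w (-φ)`, `On w ψ` then
`Sub ψ φ`, so `ψ = φ` by minimality. -/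
def Stmt_VX2 : Prop :=
  ∀ D : Rd, ∀ x, D.Vx x → ∀ φ, D.Mn x φ →
    D.Vx (D.fl x φ) ∧ D.Mn (D.fl x φ) (-φ) ∧ D.fl (D.fl x φ) (-φ) = x ∧ D.fl x φ ≠ x ∧
    (∀ w, D.act w (D.fl x φ) = D.fl (D.act w x) (D.ρ w φ))

/-- VX3 (uses BAS, VX1, VX2, NST): two roots. (1) if `B φ ψ ≥ 1` then `Sub φ ψ` or `Sub ψ φ` (NST) so `φ = ψ`; if `B φ ψ ≤ -1` then
`B (-φ) ψ ≥ 1`, so `Sub (-φ) ψ` (or `Sub ψ (-φ)`, impossible as then `-φ ∈ x`). (2) if `χ ∈ fl x φ`, `Sub χ ψ`: `χ ∈ x`, then `χ = ψ`; or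
`χ = -φ`, then NST gives `B (-φ) ψ ≥ 1` or `-φ = ψ`: impossible. (3) is (2) for `fl x φ, -φ, ψ`. (4) by (1), otherwise `Sub (-φ) ψ`,
`-φ ∈ fl x φ`, so `-φ = ψ ∈ x`, impossible. -/
def Stmt_VX3 : Prop :=
  ∀ D : Rd, ∀ x, D.Vx x → ∀ φ ψ,
    (D.Mn x φ → D.Mn x ψ → φ ≠ ψ → |D.B φ ψ| < 1 ∨ (D.B φ ψ ≤ -1 ∧ D.Sub (-φ) ψ)) ∧
    (D.Mn x φ → D.Mn x ψ → |D.B φ ψ| < 1 → D.Mn (D.fl x φ) ψ ∧ D.fl (D.fl x φ) ψ = D.fl (D.fl x ψ) φ) ∧
    (D.Mn x φ → D.Mn (D.fl x φ) ψ → ψ ≠ -φ → |D.B φ ψ| < 1 → D.Mn x ψ) ∧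
    (D.Mn x φ → D.Mn x ψ → D.Mn (D.fl x φ) ψ → φ ≠ ψ → |D.B φ ψ| < 1)

/-- VX4 (uses VX1, VX2, LEN, NST): connectivity. `x \ y` is finite; choose `ψ ∈ x \ y` with `Sub ψ φ`, minimal for `Sub` (NST:
antisymmetric). If `χ ∈ x`, `Sub χ ψ` then `χ ∉ y` (VX1, up-closed), so `χ = ψ`. -/
def Stmt_VX4 : Prop :=
  ∀ D : Rd, ∀ x, D.Vx x → ∀ y, D.Vx y → ∀ φ, φ ∈ x → φ ∉ y →
    ∃ ψ, D.Mn x ψ ∧ ψ ∉ y ∧ D.Sub ψ φ ∧ (D.fl x ψ \ y).ncard + 1 = (x \ y).ncard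

/-! ## B2. Finiteness -/

/-- DIM (uses BAS, FINO, RSF): `N` torsion-free of finite index (RSF, `E = ∅`). If `rf φ`, `rf ψ` are congruent mod `N` and `|B φ ψ| < 1` then
`rf φ * rf ψ ∈ N` has finite order (FINO), so `rf φ = rf ψ`, `ψ = ± φ`, `|B φ ψ| = 1`. So the bound is the index of `N`. -/
def Stmt_DIM : Prop :=
  ∀ D : Rd, ∃ n : ℕ, ∀ A : Finset D.V, (∀ φ ∈ A, φ ∈ D.Rt) →
    (∀ φ ∈ A, ∀ ψ ∈ A, φ ≠ ψ → |D.B φ ψ| < 1) → A.card ≤ n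

/-- AFB (uses BAS): compactness. Otherwise there are `F_n` with `ht F_n ≥ n`; `F_n / ht F_n` lies in the simplex, a limit point `G ≥ 0` has
`ht G = 1`, `B G (e s) ≤ 0` for all `s`, `B G G ≥ 0`; but `B G G = ∑ G s * B G (e s) ≤ 0`. So `G ∈ Kc`, `B G G = 0`, `G = 0` by `AF`. -/
def Stmt_AFB : Prop :=
  ∀ D : Rd, D.AF → ∀ C : ℝ, ∃ R : ℝ, ∀ F : D.V, (∀ s, 0 ≤ F s) → (∀ s, D.B F (D.e s) ≤ 1) →
    -C ≤ D.B F F → D.ht F ≤ R

/-- COF (uses BAS, SGN, LEN, PAR, HGT, NST, VX1-VX4, DIM, AFB): cofiniteness. For a vertex `x` let `F x = ∑ (-φ)` over the `φ` with `Mn x φ`, `φ ∉ Ps`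
(a finite set, pairwise `|B| < 1`: VX3 (1), since `Sub (-φ) ψ` and `-φ ∈ Ps` give `ψ ∈ Ps`; so at most `n` elements, DIM), and
`p x = ht (F x)`. (a) For every `c`, `{x | Vx x, p x ≤ c}` is finite: the `-φ` are positive roots of height `≤ c` (HGT), and
`x` is determined by `{φ | Mn x φ, φ ∉ Ps}`: `x \ Ps` is the set of roots `χ ∉ Ps` such that `Sub φ χ` for one of these `φ`
(VX4 with `y = Ps`). (b) Let `x ∈ XJ J`; then `F x ≥ 0` is supported in `J`. `XJ J` is stable under `par J` (PAR). For `s ∈ J`,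
`F (σ_s x) = σ_s (F x) + δ • e s`, `δ ∈ {0, 1}`, `δ = 1` iff `Mn x (e s)` or `Mn x (-e s)` (SGN), so `p (σ_s x) = p x - 2 B (F x) (e s) + δ`.
Choose `x` in its `par J`-orbit with `p x` minimal ((a)): `B (F x) (e s) ≤ 1/2` for `s ∈ J`. For `s ∉ J` it is `≤ 0`.
`B F F ≥ - n²`. By AFB `p x ≤ R`. -/
def Stmt_COF : Prop :=
  ∀ D : Rd, D.AF → ∀ J : Set D.S, ∃ P : Set (Set D.V), P.Finite ∧ (∀ x ∈ P, D.XJ J x) ∧
    ∀ x, D.XJ J x → ∃ w ∈ D.par J, D.act w x ∈ P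

/-- LFN (uses BAS, SGN, HGT, NST, VX1, VX2, AFB): local finiteness. Induction on `(x \ Ps).ncard`. If some `e s ∉ x`, then `σ_s x \ Ps` is
`σ_s (x \ Ps \ {-e s})`, one less element. If all `e s ∈ x` and `Mn x φ`: either `φ ∉ Ps` (finitely many), or `φ ∈ Ps` and for every `s`:
`φ = e s` or `B φ (e s) < 1` (if `B φ (e s) ≥ 1` then `Sub (e s) φ` or `Sub φ (e s)` by NST, and the latter fails at the chamber `σ_s`: SGN; so
`Sub (e s) φ` and `φ = e s` by minimality); so `B φ (e s) ≤ 1` for all `s`, `ht φ` is bounded by AFB, HGT. -/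
def Stmt_LFN : Prop := ∀ D : Rd, D.AF → ∀ x, D.Vx x → {φ | D.Mn x φ}.Finite

/-- DEEP (uses BAS, FINO, INFO, RSF, VX1, COF, LFN). Second part: clear. First part: `P` a finite set of representatives of the vertices (COF,
`J = univ`; `XJ univ x ↔ Vx x`). `N0` torsion-free normal of finite index `k0` (RSF): `y ^ k0 = 1` for every `y` of finite order. `E` = the
nontrivial elements among `(rf φ * rf ψ) ^ j`, `Mn x φ`, `Mn x ψ`, `x ∈ P`, `j ∈ {1, k0}` (finite: LFN). `H` from RSF for `E`. `self`: `ψ = ± h φ`, so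
`rf ψ = h (rf φ) h⁻¹ ≡ rf φ` mod `H`, and after moving `x` to `P`: `rf φ * rf ψ ∈ H`, not in `E`, so `rf φ = rf ψ`, `ψ = ± φ`, `ψ = φ` as both are in `x`.
`osc`: `(rf φ * h (rf ψ) h⁻¹) ^ k0 = 1` (FINO), so `(rf φ * rf ψ) ^ k0 ∈ H`, not in `E`, so it is `1`, and INFO gives `|B φ ψ| < 1`. -/
def Stmt_DEEP : Prop :=
  ∀ D : Rd, (D.AF → ∃ H, D.Deep H) ∧
    ∀ H, D.Deep H → ∀ H' : Subgroup D.W, H' ≤ H → H'.Normal → H'.FiniteIndex → D.Deep H'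

/-! ## B3. Labels and the right action -/

/-- LBF (uses BAS): labels. `Rt` is a union of finitely many `W`-orbits, `H` has finite index. -/
def Stmt_LBF : Prop :=
  ∀ (D : Rd) (H : Subgroup D.W), H.FiniteIndex → Finite (D.Lb H)

/-- LSX (uses BAS, VX1-VX3): the flip action exists. `τ a x = fl x φ` if there is `φ` with `Mn x φ`, `φ ∈ a` (unique by `Deep.self`), otherwise `x`.
`com`, for adjacent `a, b` (`a ≠ b`, `φ0 ∈ a`, `ψ0 ∈ b`, `|B φ0 ψ0| < 1`): if `Mn x φ`, `φ ∈ a` and `Mn x ψ`, `ψ ∈ b` then `φ0 = ± h φ`, `ψ0 = ± h' ψ`, so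
`|B φ (h⁻¹ h' ψ)| < 1` and `Deep.osc` gives `|B φ ψ| < 1`; VX3 (2). If only `a` moves `x` (by `φ`) and `b` moves `fl x φ` by `ψ`, then in the same way
`|B φ ψ| < 1` and by VX3 (3) `Mn x ψ`: contradiction. The last item: from `IsFlip` and VX1, VX2 (`h ∈ H` preserves labels). -/
def Stmt_LSX : Prop :=
  ∀ (D : Rd) (H : Subgroup D.W), D.Deep H →
    (∃ L : LS (D.lg H) D.X, D.IsFlip H L) ∧
    ∀ L : LS (D.lg H) D.X, D.IsFlip H L → ∀ h ∈ H, ∀ a (x y : D.X), y.1 = D.act h x.1 →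
      (L.τ a y).1 = D.act h (L.τ a x).1

/-- DEV (uses VX1-VX4, LSX): the development. `b = Ps`. Define `κ x` by recursion on `(x \ Ps).ncard`: `κ Ps = 1`, `κ x = κ (fl x φ) * rg a` for a chosen
`φ` with `Mn x φ`, `φ ∉ Ps` (VX4), `a` the label of `φ`. Claim: `κ x = κ (fl x ψ) * rg a'` for every `ψ` with `Mn x ψ`, `ψ ∉ Ps`, label `a'`. Induction:
`φ ≠ ψ`: `|B φ ψ| < 1` (VX3 (1): `Sub (-φ) ψ` would give `ψ ∈ Ps`), `a ≠ a'` (`Deep.self`) are adjacent, `z = fl (fl x φ) ψ = fl (fl x ψ) φ`,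
`κ (fl x φ) = κ z * rg a'`, `κ (fl x ψ) = κ z * rg a`. So `step` holds, `path` by induction. `c h := κ (h Ps)`; `hol` by induction on
`(x \ Ps).ncard` with LSX (equivariance), in particular `c` is a homomorphism. Injective: `c h = 1` gives `h Ps = Ps · 1 = Ps`. -/
def Stmt_DEV : Prop :=
  ∀ (D : Rd) (H : Subgroup D.W), D.Deep H → ∀ L : LS (D.lg H) D.X, D.IsFlip H L →
    ∃ b κ c, D.Dev H L b κ c ∧ Function.Injective c

/-- VRC (uses VX1, COF, LSX, DEV): virtual retraction. `K = {γ | ∃ m ∈ H, (L.r b γ).1 = act m b.1}`, `r γ = m`; right action commutes with `H`; `K` has finite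
index because `H` has finitely many orbits on vertices (COF, `J = univ`). `c h ∈ K`, `r (c h) = h` by `path`. -/
def Stmt_VRC : Prop :=
  ∀ (D : Rd), D.AF → ∀ (H : Subgroup D.W), D.Deep H → ∀ L : LS (D.lg H) D.X, D.IsFlip H L → ∀ b κ c, D.Dev H L b κ c →
    ∃ (K : Subgroup (RC (D.lg H))) (r : K →* H), K.FiniteIndex ∧ ∀ h : H, ∃ hk : c h ∈ K, r ⟨c h, hk⟩ = h

/-- RTC: part C -/
def Stmt_RTC : Prop := ∀ (Λ : Type) [Finite Λ] (G : SimpleGraph Λ) (x y : RC G), RT x y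

/-- RTW (uses LBF, LSX, DEV, VRC, RTC): `RT` for elements of a deep subgroup. Given `M`, wlog `M ≤ H`. `W` is a finite union of cosets `H c_i`; put
`y_i = c_i y c_i⁻¹ ∈ H`. With `K, r` from VRC let `M_C` be a normal finite index subgroup of `RC`, contained in `K`, with `r(M_C) ⊆ M`. RTC for `c x`, `c y_i`
and `M_C` gives `M'_i`; let `M'` be a normal finite index subgroup of `W` contained in `H` and in all `c⁻¹(M'_i)`. If `g y g⁻¹ x⁻¹ ∈ M'`, `g = h c_i`, then there is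
`μ ∈ M_C` with `(μ c(h)) c(y_i) (μ c(h))⁻¹ = c(x)`; apply `r`. -/
def Stmt_RTW : Prop :=
  ∀ (D : Rd), D.AF → ∀ (H : Subgroup D.W), D.Deep H → ∀ x ∈ H, ∀ y ∈ H, RT x y

/-- FT (uses PAR, VX1-VX4, COF, LBF, LSX, DEV, DEEP): `par J` has the full profinite topology. Let `H` be deep, `L, b, κ, c`. On the set `XJ J` (a type) let `a` act by `x ↦ L.τ a x` if
this is in `XJ J`, and `x ↦ x` otherwise: an `LS` (`com`: if `x, τ_a x, τ_b x ∈ XJ J`, `a, b` adjacent then `τ_a τ_b x ∈ XJ J`: `XJ J` is given by conditions `φ ∈ x`, and a root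
in `x`, `τ_a x`, `τ_b x` is in `τ_a τ_b x`; and if `x, τ_a x ∈ XJ J` and `τ_b τ_a x ∈ XJ J` then `τ_b x ∈ XJ J`, apply this to `τ_a x`). Write `x * γ` for
this right action. For `h ∈ H ⊓ par J`: `Ps * c(h) = h Ps` (`κ x` is read along a path from `Ps` to `x` through `XJ J` if `x ∈ XJ J`: flips of roots of `x \ Ps`; state
`Ps * κ x = x` for all `x ∈ XJ J`, by induction with `step`). Given `N ≤ par J` of finite relative index, wlog `N ≤ H`: `L_N = {γ | ∃ m ∈ N, Ps * γ = m Ps}` has finite index in `RC`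
(`N` has finitely many orbits on `XJ J` by COF, and commutes with `*`). `M` = a normal finite index subgroup of `W` contained in `c⁻¹(L_N) ≤ H`: if
`h ∈ M ⊓ par J` then `h Ps = Ps * c(h) = m Ps`, `h = m ∈ N`. -/
def Stmt_FT : Prop :=
  ∀ (D : Rd), D.AF → ∀ (J : Set D.S) (N : Subgroup D.W), N ≤ D.par J → N.relIndex (D.par J) ≠ 0 →
    ∃ M : Subgroup D.W, M.Normal ∧ M.FiniteIndex ∧ M ⊓ D.par J ≤ N

end Pool.CS
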