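import Pool.Agent.Work.MP_64ea0f_cs.Defs
import Pool.Agent.Work.MP_64ea0f_cs.RAC

set_option autoImplicit false

/-!
# Part C: right-angled Coxeter groups (statements; the complete proofs are in PAPER_C2.md)
-/

namespace Pool.CS

section
variable {Λ : Type}

/-- dependent letters: equal or not commuting -/
def dep (G : SimpleGraph Λ) (a b : Λ) : Prop := a = b ∨ ¬ G.Adj a b

theorem dep_symm {G : SimpleGraph Λ} {a b : Λ} (h : dep G a b) : dep G b a := by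
  rcases h with h | h
  · exact Or.inl h.symm
  · exact Or.inr fun h' => h h'.symm

theorem not_dep {G : SimpleGraph Λ} {a b : Λ} (h : G.Adj a b) : ¬ dep G a b := by
  rintro (h' | h')
  · exact G.ne_of_adj h h'
  · exact h' h

/-- `u` is in the image of the subgroup generated by the star of `t` -/
def Ok {G : SimpleGraph Λ} (M : Subgroup (RC G)) (t : Λ) (u : RC G ⧸ M) : Prop :=
  ∃ x ∈ rsub G (star G t), (QuotientGroup.mk x : RC G ⧸ M) = u

/-- A periodic reduced word: period `k`, letters `s i`, `i : ℤ`.  A letter is isolated if it commutes with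
all other letters of the word; a place `i` is active if its letter is not isolated, or `1 ≤ i ≤ k`.
Reduced: between two active places with the same letter there is an active place with a letter which
is equal to it or does not commute with it. -/
structure Per (G : SimpleGraph Λ) where
  k : ℕ
  pos : 0 < k
  s : ℤ → Λ
  per : ∀ i, s (i + k) = s i
  red : ∀ i j, (¬ (∀ m, s m ≠ s i → G.Adj (s i) (s m)) ∨ (1 ≤ i ∧ i ≤ k)) →
    (¬ (∀ m, s m ≠ s j → G.Adj (s j) (s m)) ∨ (1 ≤ j ∧ j ≤ k)) → i < j → s i = s j →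
    ∃ l, (¬ (∀ m, s m ≠ s l → G.Adj (s l) (s m)) ∨ (1 ≤ l ∧ l ≤ k)) ∧ i < l ∧ l < j ∧
      dep G (s l) (s i)

namespace Per

variable {G : SimpleGraph Λ} (H : Per G)

/-- the letter `t` is isolated -/
def iso (t : Λ) : Prop := ∀ m, H.s m ≠ t → G.Adj t (H.s m)

/-- the place `i` is active -/
def act (i : ℤ) : Prop := ¬ H.iso (H.s i) ∨ (1 ≤ i ∧ i ≤ H.k)

theorem red' {i j : ℤ} (hi : H.act i) (hj : H.act j) (h : i < j) (hs : H.s i = H.s j) :
    ∃ l, H.act l ∧ i < l ∧ l < j ∧ dep G (H.s l) (H.s i) := H.red i j hi hj h hs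

/-- the word of one period -/
def word : List Λ := (List.range H.k).map (fun i : ℕ => H.s (i + 1))

/-- the basic cut -/
def D0 : Set ℤ := {i | i ≤ 0}

/-- cuts -/
def Cut (D : Set ℤ) : Prop :=
  (∀ i j, H.act i → H.act j → i < j → dep G (H.s i) (H.s j) → j ∈ D → i ∈ D) ∧
  (∀ i, ¬ H.act i → (i ∈ D ↔ i ∈ D0)) ∧ (symmDiff D D0).Finite

theorem cut_D0 : H.Cut D0 := by
  refine ⟨fun i j _ _ h _ hj => ?_, fun i _ => Iff.rfl, ?_⟩
  · exact le_trans h.le hj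
  · rw [symmDiff_self]
    exact Set.finite_empty

theorem mem_flip_self {D : Set ℤ} {i : ℤ} : i ∈ symmDiff D {i} ↔ i ∉ D := by
  simp [Set.mem_symmDiff]

theorem mem_flip_ne {D : Set ℤ} {i l : ℤ} (h : l ≠ i) : l ∈ symmDiff D {i} ↔ l ∈ D := by
  simp [Set.mem_symmDiff, h]

theorem flip_flip (D : Set ℤ) (i : ℤ) : symmDiff (symmDiff D {i}) {i} = D := by
  rw [symmDiff_assoc, symmDiff_self]
  exact symmDiff_bot D

/-- a place which can be flipped is active -/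
theorem act_of_cut {D : Set ℤ} (hD : H.Cut D) {i : ℤ} (hi : H.Cut (symmDiff D {i})) :
    H.act i := by
  by_contra h
  have h1 := hD.2.1 i h
  have h2 := hi.2.1 i h
  rw [mem_flip_self] at h2
  tauto

/-- the places with a given letter which can be flipped: there is at most one -/
theorem uniq {D : Set ℤ} (hD : H.Cut D) {i j : ℤ} (hi : H.Cut (symmDiff D {i}))
    (hj : H.Cut (symmDiff D {j})) (h : H.s i = H.s j) : i = j := by
  have key : ∀ i j : ℤ, i < j → H.Cut (symmDiff D {i}) → H.Cut (symmDiff D {j}) →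
      H.s i = H.s j → False := by
    intro i j hij hi hj h
    have ai := H.act_of_cut hD hi
    have aj := H.act_of_cut hD hj
    obtain ⟨l, al, h1, h2, h4⟩ := H.red' ai aj hij h
    have hil : dep G (H.s i) (H.s l) := dep_symm h4
    have hlj : dep G (H.s l) (H.s j) := by rw [← h]; exact h4
    have a1 : l ∈ symmDiff D {i} ↔ l ∈ D := mem_flip_ne h1.ne'
    have a2 : l ∈ symmDiff D {j} ↔ l ∈ D := mem_flip_ne h2.ne
    have b1 : i ∈ symmDiff D {i} ↔ i ∉ D := mem_flip_self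
    have b2 : j ∈ symmDiff D {j} ↔ j ∉ D := mem_flip_self
    have c1 : l ∈ D → i ∈ D := hD.1 i l ai al h1 hil
    have c2 : j ∈ D → l ∈ D := hD.1 l j al aj h2 hlj
    have c3 := hi.1 i l ai al h1 hil
    have c4 := hj.1 l j al aj h2 hlj
    rw [a1, b1] at c3
    rw [a2, b2] at c4
    by_cases hl : l ∈ D
    · exact c3 hl (c1 hl)
    · exact hl (c4 fun hj' => hl (c2 hj'))
  rcases lt_trichotomy i j with h' | h' | h'
  · exact (key i j h' hi hj h).elim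
  · exact h'
  · exact (key j i h' hj hi h.symm).elim

/-- states: a cut and an element `u` of `C / M` (in PAPER_C.md: `u = q⁻¹ * R D`) -/
abbrev X (M : Subgroup (RC G)) : Type := {D : Set ℤ // H.Cut D} × (RC G ⧸ M)

open Classical in
/-- the letter `t` flips the place `i` with letter `t` if this gives a cut and if `u` is in the image of
`rsub (star t)`; then `u` does not change; otherwise `u` is replaced by `t * u` -/
noncomputable def step (M : Subgroup (RC G)) [M.Normal] (t : Λ) (x : H.X M) : H.X M :=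
  if h : (∃ i, H.s i = t ∧ H.Cut (symmDiff x.1.1 {i})) ∧ Ok M t x.2 then
    (⟨symmDiff x.1.1 {h.1.choose}, h.1.choose_spec.2⟩, x.2)
  else (x.1, (QuotientGroup.mk (rg G t) : RC G ⧸ M) * x.2)

theorem step_flip (M : Subgroup (RC G)) [M.Normal] (x : H.X M) (i : ℤ)
    (hi : H.Cut (symmDiff x.1.1 {i})) (hu : Ok M (H.s i) x.2) :
    H.step M (H.s i) x = (⟨symmDiff x.1.1 {i}, hi⟩, x.2) := by
  have h : (∃ j, H.s j = H.s i ∧ H.Cut (symmDiff x.1.1 {j})) ∧ Ok M (H.s i) x.2 :=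
    ⟨⟨i, rfl, hi⟩, hu⟩
  have h2 : h.1.choose = i := H.uniq x.1.2 h.1.choose_spec.2 hi h.1.choose_spec.1
  rw [step, dif_pos h]
  ext1
  · apply Subtype.ext
    change symmDiff x.1.1 {h.1.choose} = symmDiff x.1.1 {i}
    rw [h2]
  · rfl

theorem step_not (M : Subgroup (RC G)) [M.Normal] (t : Λ) (x : H.X M)
    (h : ¬ ((∃ i, H.s i = t ∧ H.Cut (symmDiff x.1.1 {i})) ∧ Ok M t x.2)) :
    H.step M t x = (x.1, (QuotientGroup.mk (rg G t) : RC G ⧸ M) * x.2) := by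
  rw [step, dif_neg h]

/-- paths: sequences of flips, with the word of their letters -/
inductive Path : Set ℤ → List Λ → Set ℤ → Prop
  | nil (D : Set ℤ) (h : H.Cut D) : Path D [] D
  | cons (D : Set ℤ) (i : ℤ) (w : List Λ) (D' : Set ℤ) (h : H.Cut D)
      (hi : H.Cut (symmDiff D {i})) (hp : Path (symmDiff D {i}) w D') : Path D (H.s i :: w) D'

/-- locally constant functions, zero on isolated letters and outside of the word -/
def LC (f : Λ → ℤ) : Prop :=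
  (∀ i j, dep G (H.s i) (H.s j) → f (H.s i) = f (H.s j)) ∧ (∀ t, H.iso t → f t = 0) ∧
  ∀ t, t ∉ Set.range H.s → f t = 0

open Classical in
/-- the function which is one on the non-isolated letters of the word -/
noncomputable def one : Λ → ℤ := fun t => if t ∈ Set.range H.s ∧ ¬ H.iso t then 1 else 0

/-- shifting the places of `t` by `k * f t` -/
def sh (f : Λ → ℤ) (D : Set ℤ) : Set ℤ := {i | i - H.k * f (H.s i) ∈ D}

/-- the translation by the word: non-isolated letters are shifted by `k`, the active places of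
the isolated letters are flipped -/
def tr (D : Set ℤ) : Set ℤ :=
  {i | (¬ H.iso (H.s i) ∧ i - H.k ∈ D) ∨ (H.iso (H.s i) ∧ H.act i ∧ i ∉ D) ∨
    (H.iso (H.s i) ∧ ¬ H.act i ∧ i ∈ D)}

/-- symmetries of the set of cuts -/
def Sym (Θ : Set ℤ → Set ℤ) : Prop :=
  (∀ D, H.Cut D ↔ H.Cut (Θ D)) ∧
  ∃ σ : ℤ ≃ ℤ, (∀ i, H.s (σ i) = H.s i) ∧ ∀ D i, Θ (symmDiff D {i}) = symmDiff (Θ D) {σ i}

/-- the product of the letters at the active places of `D` in the window `(-m, m]`, in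
increasing order -/
noncomputable def win (m : ℕ) (D : Set ℤ) : RC G := by
  classical
  exact wp G (((((List.range (2 * m)).map (fun i : ℕ => (i : ℤ) - m + 1)).filter
    (fun i => i ∈ D ∧ H.act i))).map H.s)

end Per

end

/-! ### Blocks -/

/-- C_ACT: the action is a right action. -/
def Stmt_C_ACT : Prop := ∀ (Λ : Type) (G : SimpleGraph Λ) (H : Per G) (M : Subgroup (RC G))
  [M.Normal], (∀ t x, H.step M t (H.step M t x) = x) ∧
  ∀ a b, G.Adj a b → ∀ x, H.step M a (H.step M b x) = H.step M b (H.step M a x)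

/-- C_RUN: the flips made along a word. -/
def Stmt_C_RUN : Prop := ∀ (Λ : Type) (G : SimpleGraph Λ) (H : Per G) (M : Subgroup (RC G))
  [M.Normal] (L : LS G (H.X M)), (∀ t x, L.τ t x = H.step M t x) → ∀ (w : List Λ) (x : H.X M),
  ∃ p : List Λ, p.Sublist w ∧ H.Path x.1.1 p (L.r x (wp G w)).1.1 ∧
    (L.r x (wp G w)).2 =
      (QuotientGroup.mk (wp G w) : RC G ⧸ M)⁻¹ * x.2 * QuotientGroup.mk (wp G p) ∧
    (p = w → (L.r x (wp G w)).2 = x.2 ∧ ∀ t ∈ w, Ok M t x.2)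

/-- C_FOL: following a path. -/
def Stmt_C_FOL : Prop := ∀ (Λ : Type) (G : SimpleGraph Λ) (H : Per G) (M : Subgroup (RC G))
  [M.Normal] (L : LS G (H.X M)), (∀ t x, L.τ t x = H.step M t x) → ∀ (D D' : Set ℤ) (p : List Λ),
  H.Path D p D' → ∀ x : H.X M, x.1.1 = D → (∀ t ∈ p, Ok M t x.2) →
    (L.r x (wp G p)).1.1 = D' ∧ (L.r x (wp G p)).2 = x.2

/-- C_PTH: paths and symmetric differences. -/
def Stmt_C_PTH : Prop := ∀ (Λ : Type) (G : SimpleGraph Λ) (H : Per G) (D D' : Set ℤ)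
  (p : List Λ), H.Path D p D' → H.Cut D ∧ H.Cut D' ∧ (symmDiff D D').Finite ∧
  (symmDiff D D').ncard ≤ p.length ∧ (∀ i ∈ symmDiff D D', H.s i ∈ p) ∧
  (∀ t ∈ p, t ∈ Set.range H.s)

/-- C_SYM: shifts and the translation are symmetries. -/
def Stmt_C_SYM : Prop := ∀ (Λ : Type) (G : SimpleGraph Λ) (H : Per G),
  (∀ f, H.LC f → H.Sym (H.sh f)) ∧ H.Sym H.tr

/-- C_SYC: symmetries act on paths and commute with the action. -/
def Stmt_C_SYC : Prop := ∀ (Λ : Type) (G : SimpleGraph Λ) (H : Per G) (Θ : Set ℤ → Set ℤ),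
  H.Sym Θ → (∀ D p D', H.Path D p D' → H.Path (Θ D) p (Θ D')) ∧
  ∀ (M : Subgroup (RC G)) [M.Normal] (t : Λ) (x y : H.X M), y.1.1 = Θ x.1.1 → y.2 = x.2 →
    (H.step M t y).1.1 = Θ (H.step M t x).1.1 ∧ (H.step M t y).2 = (H.step M t x).2

/-- C_SYR: symmetries commute with the action of all elements. -/
def Stmt_C_SYR : Prop := ∀ (Λ : Type) (G : SimpleGraph Λ) (H : Per G) (Θ : Set ℤ → Set ℤ),
  H.Sym Θ → ∀ (M : Subgroup (RC G)) [M.Normal] (L : LS G (H.X M)),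
  (∀ t x, L.τ t x = H.step M t x) → ∀ (c : RC G) (x y : H.X M), y.1.1 = Θ x.1.1 → y.2 = x.2 →
    (L.r y c).1.1 = Θ (L.r x c).1.1 ∧ (L.r y c).2 = (L.r x c).2

/-- C_LCA: algebra of locally constant functions. -/
def Stmt_C_LCA : Prop := ∀ (Λ : Type) (G : SimpleGraph Λ) (H : Per G), H.LC 0 ∧ H.LC H.one ∧
  (∀ f g, H.LC f → H.LC g → H.LC (f + g) ∧ ∀ D, H.sh f (H.sh g D) = H.sh (f + g) D) ∧
  (∀ f, H.LC f → H.LC (-f)) ∧ (∀ D, H.sh 0 D = D) ∧ (∀ (n : ℕ) f, H.LC f → H.LC (n • f)) ∧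
  (∀ i, ¬ H.iso (H.s i) → H.one (H.s i) = 1) ∧ (∀ i (n : ℤ), H.s (i + H.k * n) = H.s i) ∧
  ((∀ i, ¬ H.iso (H.s i)) → ∀ D, H.tr D = H.sh H.one D)

/-- C_THR: thresholds. -/
def Stmt_C_THR : Prop := ∀ (Λ : Type) (G : SimpleGraph Λ) (H : Per G) (D : Set ℤ), H.Cut D →
  ∀ j : ℤ, ¬ H.iso (H.s j) → ∃ a : ℤ, ∀ n : ℤ, j + H.k * n ∈ D ↔ n ≤ a

/-- C_REC: finitely many cuts modulo the shifts by multiples of three. -/
def Stmt_C_REC : Prop := ∀ (Λ : Type) (G : SimpleGraph Λ) (H : Per G),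
  ∃ (F : Type) (_ : Finite F) (rec : Set ℤ → F),
  ∀ D D', H.Cut D → H.Cut D' → rec D = rec D' →
    ∃ f, H.LC f ∧ (∀ t, (3 : ℤ) ∣ f t) ∧ D' = H.sh f D

/-- C_FIN: a normal subgroup of finite index which only makes shifts. -/
def Stmt_C_FIN : Prop := ∀ (Λ : Type) (G : SimpleGraph Λ) (H : Per G) (M : Subgroup (RC G))
  [M.Normal] (L : LS G (H.X M)), M.FiniteIndex → (∀ t x, L.τ t x = H.step M t x) →
  ∃ M' : Subgroup (RC G), M'.Normal ∧ M'.FiniteIndex ∧ ∀ z ∈ M', ∀ x : H.X M,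
    ∃ f, H.LC f ∧ (∀ t, (3 : ℤ) ∣ f t) ∧ (L.r x z).1.1 = H.sh f x.1.1 ∧ (L.r x z).2 = x.2

/-- C_CNT: translation lengths modulo three. -/
def Stmt_C_CNT : Prop := ∀ (Λ : Type) (G : SimpleGraph Λ) (H : Per G) (P : Set ℤ) (f : Λ → ℤ),
  H.Cut P → H.LC f → (∀ t, (3 : ℤ) ∣ f t) →
  H.k ≤ (symmDiff P (H.sh f (H.tr P))).ncard ∧
  ((symmDiff P (H.sh f (H.tr P))).ncard ≤ H.k → H.sh f (H.tr P) = H.tr P)

/-- C_CN2: translation lengths of powers, and uniqueness. -/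
def Stmt_C_CN2 : Prop := ∀ (Λ : Type) (G : SimpleGraph Λ) (H : Per G) (P : Set ℤ), H.Cut P →
  ((∀ i, ¬ H.iso (H.s i)) → ∀ n : ℕ, n * H.k ≤ (symmDiff P (H.sh (n • H.one) P)).ncard) ∧
  (∀ f g, H.LC f → H.LC g → H.sh f P = H.sh g P → f = g)

/-- C_WIN: the element of `C` defined by a path depends only on its end points. -/
def Stmt_C_WIN : Prop := ∀ (Λ : Type) (G : SimpleGraph Λ) (H : Per G) (D D' : Set ℤ)
  (p : List Λ), H.Path D p D' → ∃ m₀ : ℕ, ∀ m ≥ m₀, H.win m D * wp G p = H.win m D'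

/-- C_WRD: the path of the word itself. -/
def Stmt_C_WRD : Prop := ∀ (Λ : Type) (G : SimpleGraph Λ) (H : Per G),
  H.Path Per.D0 H.word (H.tr Per.D0)

/-- C_IVT: the core which is invariant under retractions. -/
def Stmt_C_IVT : Prop := ∀ (Λ : Type) [Finite Λ] (G : SimpleGraph Λ) (M₁ : Subgroup (RC G)),
  M₁.Normal → M₁.FiniteIndex → ∃ M : Subgroup (RC G), M ≤ M₁ ∧ M.Normal ∧ M.FiniteIndex ∧
    ∀ I, ∀ x ∈ M, rret G I x ∈ M

/-- C_ADJ: intersections of stars. -/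
def Stmt_C_ADJ : Prop := ∀ (Λ : Type) (G : SimpleGraph Λ) (M : Subgroup (RC G)) [M.Normal],
  (∀ I, ∀ x ∈ M, rret G I x ∈ M) → ∀ (l : List Λ) (u : RC G ⧸ M), (∀ t ∈ l, Ok M t u) →
  ∃ x ∈ rsub G {b | ∀ t ∈ l, b ∈ star G t}, (QuotientGroup.mk x : RC G ⧸ M) = u ∧
    ∀ w : List Λ, (∀ t ∈ w, t ∈ l) → x * wp G w = wp G w * x

/-- C_MIN: every nontrivial element is conjugate to the word of a `Per`. -/
def Stmt_C_MIN : Prop := ∀ (Λ : Type) (G : SimpleGraph Λ) (I : Set Λ) (g : RC G), g ∈ rsub G I →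
  g = 1 ∨ ∃ a ∈ rsub G I, ∃ H : Per G, (∀ i, H.s i ∈ I) ∧ g = a * wp G H.word * a⁻¹

/-- C_NOI: squares have no isolated letters. -/
def Stmt_C_NOI : Prop := ∀ (Λ : Type) (G : SimpleGraph Λ) (a g : RC G) (H : Per G),
  g ^ 2 = a * wp G H.word * a⁻¹ → ∀ i, ¬ H.iso (H.s i)

/-- C_ONE: the main lemma. -/
def Stmt_C_ONE : Prop := ∀ (Λ : Type) [Finite Λ] (G : SimpleGraph Λ) (H : Per G)
  (M₁ : Subgroup (RC G)), M₁.Normal → M₁.FiniteIndex →
  ∃ M' : Subgroup (RC G), M'.Normal ∧ M'.FiniteIndex ∧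
    ∀ (b : List Λ) (x : RC G), x * wp G b * x⁻¹ * (wp G H.word)⁻¹ ∈ M' →
      H.k ≤ b.length ∧ (b.length = H.k →
        ∃ m ∈ M₁, (m * x) * wp G b * (m * x)⁻¹ = wp G H.word)

/-- C_RTC: right-angled Coxeter groups (the same as `Stmt_RTC` of InterfaceB). -/
def Stmt_C_RTC : Prop := ∀ (Λ : Type) [Finite Λ] (G : SimpleGraph Λ) (x y : RC G), RT x y

/-- C_AXA: translation lengths of powers. -/
def Stmt_C_AXA : Prop := ∀ (Λ : Type) [Finite Λ] (G : SimpleGraph Λ) (H : Per G),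
  (∀ i, ¬ H.iso (H.s i)) → ∀ (n : ℕ) (b : RC G) (l : List Λ),
  wp G l = b * (wp G H.word) ^ n * b⁻¹ → n * H.k ≤ l.length

/-- C_AXB: centralisers. -/
def Stmt_C_AXB : Prop := ∀ (Λ : Type) [Finite Λ] (G : SimpleGraph Λ) (H : Per G),
  (∀ i, ¬ H.iso (H.s i)) → ∃ (L : Subgroup (RC G)) (χ : L →* Multiplicative (Λ → ℤ)),
    L.FiniteIndex ∧ ∀ g : L, (g : RC G) * wp G H.word = wp G H.word * g → χ g = 1 →
      (g : RC G) ∈ rsub G {b | ∀ t ∈ H.word, G.Adj b t}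

/-- C_AX: the results on axes, as in PAPER_C.md. -/
def Stmt_C_AX : Prop := ∀ (Λ : Type) [Finite Λ] (G : SimpleGraph Λ) (I : Set Λ) (g : RC G),
  g ∈ rsub G I → ∃ a ∈ rsub G I, ∃ w : List Λ, (∀ t ∈ w, t ∈ I) ∧ g ^ 2 = a * wp G w * a⁻¹ ∧
  (∀ (n : ℕ) (b : RC G) (l : List Λ), wp G l = b * (wp G w) ^ n * b⁻¹ →
    n * w.length ≤ l.length) ∧
  (∃ (L : Subgroup (RC G)) (χ : L →* Multiplicative (Λ → ℤ)), L.FiniteIndex ∧
    ∀ g' : L, (g' : RC G) * wp G w = wp G w * g' → χ g' = 1 →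
      (g' : RC G) ∈ rsub G {b | ∀ t ∈ w, G.Adj b t}) ∧
  (∀ s ∈ w, ∃ t ∈ w, t ≠ s ∧ ¬ G.Adj s t)

end Pool.CS
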