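import Pool.Agent.Work.MP_64ea0f_cs.InterfaceD

set_option autoImplicit false

/-! # Part D, second file: the combined statement TSM (transfer + Smith theory), to be used for torsion elements -/

namespace Pool.CS

/-- `Γ` acts on the set `Y` with the flips `L`, permuting the letters; the subgroup `M` acts trivially
on the letters; `κ` is a development with holonomy `c` on `M` -/
structure Geo {Λ Y Γ : Type} [Group Γ] [MulAction Γ Y] {G : SimpleGraph Λ} (L : LS G Y) (al : Γ →* Equiv.Perm Λ)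
    (M : Subgroup Γ) (κ : Y → RC G) (c : M →* RC G) : Prop where
  mv : Mv L
  adj : ∀ γ a b, G.Adj a b → G.Adj (al γ a) (al γ b)
  eqv : ∀ (γ : Γ) s y, γ • L.τ s y = L.τ (al γ s) (γ • y)
  triv : ∀ m ∈ M, al m = 1
  step : ∀ s y, L.τ s y ≠ y → κ (L.τ s y) = κ y * rg G s
  hol : ∀ (m : M) y, κ (m • y) = c m * κ y
  conn : ∀ y y', Relation.ReflTransGen (fun a b => ∃ s, b = L.τ s a) y y'

/-- `(y, l)` and `(y', l)` are the same simplex modulo `M` -/
def Eqm {Λ Y Γ : Type} [Group Γ] [MulAction Γ Y] {G : SimpleGraph Λ} (L : LS G Y) (M : Subgroup Γ) (l : List (Set Λ))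
    (y y' : Y) : Prop :=
  ∃ m ∈ M, ∃ w : List Λ, (∀ s ∈ w, ∀ I ∈ l, s ∈ I) ∧ y' = m • (w.foldr L.τ y)

/-- `φ` (in degree `n`) is invariant under `M` -/
def Ivt {Λ Y Γ F : Type} [Group Γ] [MulAction Γ Y] {G : SimpleGraph Λ} (L : LS G Y) (M : Subgroup Γ) (n : ℕ)
    (φ : Y → List (Set Λ) → F) : Prop :=
  ∀ m ∈ M, ∀ y l, Fl G (mvs L y) l → l.length = n + 1 → φ (m • y) l = φ y l

/-- TSA (uses TRF): one step of the tower, for all cocycles at once. If `Fl G (mvs L y) l` has `l.length = n + 2` then `n + 2 ≤ Nat.card Λ + 1`, so only finitely many `n` matter (for the others `ψ = 0`). For fixed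
`n`: let `R` be a finite set of representatives of `M₁ \ Y`. An invariant `φ` is determined on the true flags of length `n + 2` by its values at `(r, l)`, `r ∈ R`, `l.length = n + 2`: finitely many possibilities (`Set Λ` is finite).
For each of them TRF (for the group `M₁`) gives `N`; `MC` is the intersection of these finitely many `N`. -/
def Stmt_TSA : Prop :=
  ∀ (Λ : Type) [Finite Λ] (G : SimpleGraph Λ) (F : Type) [AddCommGroup F] [Finite F] (Y : Type) (L : LS G Y)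
    (Γ : Type) [Group Γ] [MulAction Γ Y] (al : Γ →* Equiv.Perm Λ) (M : Subgroup Γ) (κ : Y → RC G) (c : M →* RC G),
    Geo L al M κ c → ∀ M₁ : Subgroup Γ, M₁ ≤ M → Finite (MulAction.orbitRel.Quotient M₁ Y) →
    ∃ MC : Subgroup (RC G), MC.Normal ∧ MC.FiniteIndex ∧
      ∀ (n : ℕ) (φ : Y → List (Set Λ) → F), TCoch L (n + 1) φ → Ivt L M₁ (n + 1) φ →
        (∀ y l, Fl G (mvs L y) l → l.length = n + 3 → del (φ y) l = 0) →
        ∃ ψ : Y → List (Set Λ) → F, TCoch L n ψ ∧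
          (∀ m : M, (m : Γ) ∈ M₁ → c m ∈ MC → ∀ y l, Fl G (mvs L y) l → l.length = n + 1 →
            ψ ((m : Γ) • y) l = ψ y l) ∧
          ∀ y l, Fl G (mvs L y) l → l.length = n + 2 → φ y l = del (ψ y) l

open Classical in
/-- TSB: the tower of a decreasing sequence of normal subgroups. `S j k` = quotient of `{(y, l) | Fl G (mvs L y) l, l.length = k + 1}` by: same `l` and `Eqm L (Ms j) l` (an equivalence relation: `M` commutes with the `τ s`;
`mvs (τ_s y)` and `mvs y` agree on cliques containing `s`, by `Mv`, if `s` moves `y`). `σ (y, l) = (σ • y, l.map (al σ '' ·))`. For `f` on `S j k` let `ex f y l' = f (mk y l')` if `(y, l')` is a simplex, zero otherwise: this is `TCoch` and invariant; `δ f (mk y l) =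
del (ex f y) l` is well defined (as in `Coch.del`). -/
def Stmt_TSB : Prop :=
  ∀ (Λ : Type) (G : SimpleGraph Λ) (p : ℕ) (F : Type) [AddCommGroup F] (Y : Type) (L : LS G Y)
    (Γ : Type) [Group Γ] [MulAction Γ Y] (al : Γ →* Equiv.Perm Λ) (M : Subgroup Γ) (κ : Y → RC G) (c : M →* RC G),
    Geo L al M κ c → ∀ σ : Γ, σ ^ p = 1 → ∀ Ms : ℕ → Subgroup Γ, (∀ j, Ms j ≤ M) → (∀ j, (Ms j).Normal) →
    (∀ j, Ms (j + 1) ≤ Ms j) →
    ∃ (T : Tow p F) (mk : ∀ (j k : ℕ) (y : Y) (l : List (Set Λ)), Fl G (mvs L y) l ∧ l.length = k + 1 → T.S j k),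
      (∀ (j k : ℕ) (x : T.S j k), ∃ y l h, x = mk j k y l h) ∧
      (∀ (j k : ℕ) (y : Y) (l : List (Set Λ)) (h : Fl G (mvs L y) l ∧ l.length = k + 1) (y' : Y) (l' : List (Set Λ))
        (h' : Fl G (mvs L y') l' ∧ l'.length = k + 1),
        mk j k y l h = mk j k y' l' h' ↔ l = l' ∧ Eqm L (Ms j) l y y') ∧
      (∀ (j k : ℕ) (y : Y) (l : List (Set Λ)) (h : Fl G (mvs L y) l ∧ l.length = k + 1),
        T.pr j k (mk (j + 1) k y l h) = mk j k y l h) ∧
      (∀ (j k : ℕ) (y : Y) (l : List (Set Λ)) (h : Fl G (mvs L y) l ∧ l.length = k + 1),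
        ∃ h', T.σ j k (mk j k y l h) = mk j k (σ • y) (l.map fun I => al σ '' I) h') ∧
      ∀ (j k : ℕ) (f : T.S j k → F) (y : Y) (l : List (Set Λ)) (h : Fl G (mvs L y) l ∧ l.length = k + 1 + 1),
        T.δ j k f (mk j (k + 1) y l h) =
          del (fun l' => if h' : Fl G (mvs L y) l' ∧ l'.length = k + 1 then f (mk j k y l' h') else 0) l

/-- the cube `(y, I)` is fixed by `σ` modulo `M` -/
def Fxm {Λ Y Γ : Type} [Group Γ] [MulAction Γ Y] {G : SimpleGraph Λ} (L : LS G Y) (al : Γ →* Equiv.Perm Λ)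
    (M : Subgroup Γ) (σ : Γ) (y : Y) (I : Set Λ) : Prop :=
  al σ '' I = I ∧ ∃ m ∈ M, ∃ w : List Λ, (∀ s ∈ w, s ∈ I) ∧ σ • y = m • (w.foldr L.τ y)

/-- TSM (uses SMITH, TSA, TSB). `Ms 0 = M₀`, `Ms (j + 1) ∈ 𝓜` from TSA and the hypothesis on `𝓜` for `Ms j` (recursion), `F = ZMod p`, `d = Nat.card Λ`, `M' = Ms d`. Given `σ`: `T, mk` from TSB. `f (mk y [I]) = 1` if `E y I` and the vertex is fixed by `σ`,
zero otherwise: a function on `S 0 0` (`E` is invariant), `f ∘ σ = f`, `δ f e = 0` for fixed edges (their faces are fixed, `E y I ↔ E y J`). The first hypothesis of SMITH: `φ y l = f (mk y l)` (zero if this is not a simplex) is `TCoch`, `Ivt`, a cocycle; TSA gives `ψ`,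
which descends to `S (j + 1) k`. The third: `f (mk y [I]) = f (mk y [∅])` by the edge `[∅, I]`, and `h y = f (mk y [∅])` has `h (τ_s y) = h y` (edge `[∅, {s}]` at both points), so it is constant by `conn`. A cube which is fixed modulo `Ms d` gives a fixed vertex of `S d 0`. -/
def Stmt_TSM : Prop :=
  ∀ (Λ : Type) [Finite Λ] (G : SimpleGraph Λ) (p : ℕ) [Fact p.Prime] (Y : Type) (L : LS G Y)
    (Γ : Type) [Group Γ] [MulAction Γ Y] (al : Γ →* Equiv.Perm Λ) (M : Subgroup Γ) (κ : Y → RC G) (c : M →* RC G)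
    (𝓜 : Set (Subgroup Γ)),
    Geo L al M κ c →
    (∀ M₁ ∈ 𝓜, M₁ ≤ M ∧ M₁.Normal ∧ Finite (MulAction.orbitRel.Quotient M₁ Y)) →
    (∀ M₁ ∈ 𝓜, ∀ MC : Subgroup (RC G), MC.Normal → MC.FiniteIndex →
      ∃ M₂ ∈ 𝓜, M₂ ≤ M₁ ∧ ∀ m : M, (m : Γ) ∈ M₂ → c m ∈ MC) →
    ∀ M₀ ∈ 𝓜, ∃ M' ∈ 𝓜, M' ≤ M₀ ∧ ∀ σ : Γ, σ ^ p = 1 → ∀ E : Y → Set Λ → Prop,
    (∀ y I, G.IsClique I → I ⊆ mvs L y → ∀ m ∈ M₀, (E (m • y) I ↔ E y I)) →
    (∀ y I, G.IsClique I → I ⊆ mvs L y → ∀ s ∈ I, (E (L.τ s y) I ↔ E y I)) →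
    (∀ y I J, G.IsClique J → J ⊆ mvs L y → I ⊂ J → Fxm L al M₀ σ y I → al σ '' J = J → (E y I ↔ E y J)) →
    ∀ y I y' I', G.IsClique I → I ⊆ mvs L y → G.IsClique I' → I' ⊆ mvs L y' →
      Fxm L al M' σ y I → Fxm L al M' σ y' I' → (E y I ↔ E y' I')

end Pool.CS
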