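import Pool.Agent.Work.MP_64ea0f_cs.InterfaceF

set_option autoImplicit false

/-! # Stage E: elements of finite order (affine-free case)

Overview. By induction on the order (RTT), the problem is local (LOC): `x` torsion, `p` prime, `y1 ^ p = x ^ p`, `y1 ≡ x` modulo a deep subgroup `M1`; find `m3 ∈ M` with `m3 y1 m3⁻¹ = x`.
After conjugation the parabolic closure of `⟨x ^ p⟩` is `par J`, finite; `x`, `y1` normalise `par J = q`-part times `NJ J`-part; the `q`-parts agree, the `NJ J`-parts `n`, `m n` have order dividing `p` and act on the cubing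
`YJ J` of the intersection of the walls of `par J`. Smith theory for the tower of quotients of `YJ J` (SMT) finishes. -/

namespace Pool.CS

/-! ## E1. Smith theory for actions on cubings -/

section
variable {Λ : Type}

/-- `n` fixes a cube: `I` is a clique of letters moving `y`, `n I = I`, `n y` is in the cube of `y` with directions `I` -/
def HasFix (G : SimpleGraph Λ) {Y : Type} (L : LS G Y) {N : Type} [Group N] [MulAction N Y] [MulAction N Λ] (n : N) : Prop :=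
  ∃ (y : Y) (I : Set Λ), (∀ a ∈ I, ∀ b ∈ I, a ≠ b → G.Adj a b) ∧ (∀ a ∈ I, L.τ a y ≠ y) ∧ (∀ a, a ∈ I ↔ n • a ∈ I) ∧
    ∃ γ ∈ rsub G I, n • y = L.r y γ

end

/-- SMT (uses GOOD, TRF, SMITH of PAPER_D): Smith theory. Proof. `d = |Λ|`. Choose `M0 ≥ M1 ≥ ... ≥ M_d` in `𝓜` as below; `M' = M_d`. `k`-flags: `(y; I_0 ⊊ ... ⊊ I_k)`, cliques of letters moving `y` (so `k ≤ d`).
`S^j_k` = flags modulo: `(y; I) ~ (m • L.r y γ; I)`, `m ∈ M_j`, `γ ∈ rsub G I_0` (`M_j` acts trivially on `Λ`). Finite (finitely many `M_j`-orbits on `Y`). Faces: omit `I_i`. `n` acts by `(y; I) ↦ (n • y; n • I)`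
(`M_j` is normal in `N`), with `σ ^ p = 1`. Tower condition (*): given `M_j`, for each of the finitely many cocycles of `S^j` of degrees `1..d` TRF gives a normal finite index subgroup of `RC G`; let `MC` be their intersection and `M_{j+1} ∈ 𝓜`
with `M_{j+1} ≤ M_j`, `c(M_{j+1}) ⊆ MC`. 0-cocycles of `S^d` are constant: `f(y; I) = f(y; ∅) = f(τ_s y; ∅)` and `Y` is one orbit.
Freeness: if `m ∈ N0` and `m • y = L.r y γ`, `γ ∈ rsub G I`, `I` a clique of letters moving `y`, then `γ² = 1`, `m² • y = m • L.r y γ = L.r (m • y) γ = y`, so `c(m²) κ y = κ y`, `m² = 1`, `m = 1`.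
`E` = classes of `(y; I)` in `S^0_0` such that for some `m ∈ M0` the cube of `(m • y; I)` is fixed by `n` (`n I = I`, `n • (m • y) = L.r (m • y) γ`, `γ ∈ rsub G I`). For a `σ`-fixed edge `(y; I_0 ⊊ I_1)`: if one of the two cubes is in `E`, translate by `M0`
so that it is really fixed by `n`; `n (y; I_0 ⊊ I_1) ~ (y; I_0 ⊊ I_1)` by some `m ∈ M0`; `m` fixes that cube, so `m = 1` and the other cube is fixed as well. Now let `a` be the class of a cube fixed by `n` and `b` the class in `S^d_0` of a cube `(y; I)` fixed by `m n`, `m ∈ M_d`: both are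
`σ`-fixed. SMITH: `b ∈ E`: there is `m0 ∈ M0` such that `n` fixes the cube of `(m0 • y; I)`, which is also fixed by `m0 (m n) m0⁻¹`. So `m0 (m n) m0⁻¹ n⁻¹ ∈ M0` fixes a cube (`M0` normal in `N`), it is `1`. -/
def Stmt_SMT : Prop :=
  ∀ (Λ : Type) [Finite Λ] (G : SimpleGraph Λ) (Y : Type) (L : LS G Y) (N : Type) [Group N] [MulAction N Y] [MulAction N Λ]
    (p : ℕ) [Fact p.Prime] (N0 : Subgroup N) (c : N0 →* RC G) (κ : Y → RC G) (𝓜 : Set (Subgroup N)),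
    (∀ (n : N) a b, G.Adj a b → G.Adj (n • a) (n • b)) →
    (∀ (n : N) a y, L.τ (n • a) (n • y) = n • L.τ a y) →
    (∀ m ∈ N0, ∀ a : Λ, m • a = a) → Function.Injective c → (∀ m ∈ N0, m ^ 2 = 1 → m = 1) →
    (∀ a y, L.τ a y ≠ y → κ (L.τ a y) = κ y * rg G a) → (∀ (m : N0) (y : Y), κ ((m : N) • y) = c m * κ y) →
    (∀ y y', ∃ γ, L.r y γ = y') → Nonempty Y →
    (∀ M ∈ 𝓜, M ≤ N0 ∧ M.Normal ∧ ∃ P : Set Y, P.Finite ∧ ∀ y : Y, ∃ m ∈ M, m • y ∈ P) →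
    (∀ M ∈ 𝓜, ∀ MC : Subgroup (RC G), MC.Normal → MC.FiniteIndex →
      ∃ M' ∈ 𝓜, M' ≤ M ∧ ∀ m : N0, (m : N) ∈ M' → c m ∈ MC) →
    ∀ M0 ∈ 𝓜, ∃ M' ∈ 𝓜, ∀ n : N, ∀ m ∈ M', n ^ p = 1 → (m * n) ^ p = 1 →
      HasFix G L n → HasFix G L (m * n) → ∃ m0 ∈ M0, m0 * (m * n) * m0⁻¹ = n

/-! ## E2. The cubing of the intersection of the walls of a finite parabolic subgroup -/

namespace Rd
variable (D : Rd)

/-- the type of vertices of `YJ J` -/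
def YT (J : Set D.S) : Type := {x : Set D.V // D.YJ J x}

/-- `L` is the restricted flip action on `YJ J` -/
def IsFlipJ (H : Subgroup D.W) (J : Set D.S) (L : LS (D.lg H) (D.YT J)) : Prop :=
  ∀ (a : D.Lb H) (x : D.YT J),
    (∀ φ, D.Mn x.1 φ → φ ∈ a.1 → D.YJ J (D.fl x.1 φ) → (L.τ a x).1 = D.fl x.1 φ) ∧
    ((∀ φ, D.Mn x.1 φ → φ ∈ a.1 → ¬ D.YJ J (D.fl x.1 φ)) → L.τ a x = x)

end Rd

/-- YJ1 (uses BAS, SGN, PAR, FPR, NST, NRM, VX1-VX4). (1) `Ps ∈ YJ J`: let `φ ∈ Ps`, `In J φ`, `ψ ∈ Ps`, `Sub ψ φ`. If `¬ In J ψ` then `On w ψ` for all `w ∈ par J` (PAR), so `On w φ`, but not for `w = rf φ`. So `In J ψ`, and if `ψ ≠ φ` then `|B φ ψ| < 1` (FPR; `ψ ≠ -φ`), against NST.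
(2) `n ∈ NJ J` permutes the positive roots supported in `J`. (3) VX4 gives `ψ`; for `φ' ∈ Ps` supported in `J`: `Mn x φ'`, `Mn y φ'`, so `φ' ≠ ψ`; if `B ψ φ' ≤ -1` and `Sub (-φ') ψ` (VX3 (1)), then `Sub (-ψ) φ'` (NST), `-ψ ∈ y`, `Mn y φ'`, so `-ψ = φ'`, but `φ' ∈ x` and `-ψ ∉ x`. So
`|B ψ φ'| < 1`, and `Mn (fl x ψ) φ'` by VX3 (2). (4) `fl x ψ ∈ YJ J` iff `|B ψ φ'| < 1` for all these `φ'`: VX3 (2), (4) (`ψ ≠ φ'` since `φ' ∈ fl x ψ`). -/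
def Stmt_YJ1 : Prop :=
  ∀ (D : Rd) (J : Set D.S), Finite (D.par J) →
    D.YJ J D.Ps ∧ (∀ n ∈ D.NJ J, ∀ x, D.YJ J x → D.YJ J (D.act n x)) ∧
    (∀ x, D.YJ J x → ∀ y, D.YJ J y → ∀ φ ∈ x, φ ∉ y →
      ∃ ψ, D.Mn x ψ ∧ ψ ∉ y ∧ D.YJ J (D.fl x ψ) ∧ (D.fl x ψ \ y).ncard + 1 = (x \ y).ncard) ∧
    (∀ x, D.YJ J x → ∀ ψ, D.Mn x ψ → (D.YJ J (D.fl x ψ) ↔ ∀ φ ∈ D.Ps, D.In J φ → |D.B ψ φ| < 1))

/-- YJ2 (uses BAS, PAR, YJ1): for a root `φ` supported in `J`, `rf (m φ) = m rf φ m⁻¹ ∈ par J`, so `m φ` is supported in `J` (PAR). `φ`, `± m φ ∈ Ps` are minimal in `Ps` (YJ1 (1)) with the same label, so `m φ = ± φ` (`Deep.self`), `m φ = φ` (`Deep.inv`). -/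
def Stmt_YJ2 : Prop :=
  ∀ (D : Rd) (H : Subgroup D.W), D.Deep H → ∀ J : Set D.S, Finite (D.par J) → ∀ m ∈ H,
    (D.par J).map (MulAut.conj m).toMonoidHom = D.par J → m ∈ D.NJ J ∧ ∀ q ∈ D.par J, m * q = q * m

/-- YJ3 (uses VX1, FPR, COF, LFN, NRM): pairs (vertex `x`, finite subset of `{φ | Mn x φ}`) form finitely many `W`-orbits (COF for `univ`, LFN). For `x ∈ YJ J` consider the pair (`x`, positive roots supported in `J`): two such pairs in the same `W`-orbit are in the same `NJ J`-orbit. `M` has finite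
index in `W`, so `M ∩ NJ J` has finitely many orbits as well. -/
def Stmt_YJ3 : Prop :=
  ∀ D : Rd, D.AF → ∀ J : Set D.S, Finite (D.par J) → ∀ M : Subgroup D.W, M.FiniteIndex →
    ∃ P : Set (Set D.V), P.Finite ∧ (∀ x ∈ P, D.YJ J x) ∧ ∀ x, D.YJ J x → ∃ m ∈ M, m ∈ D.NJ J ∧ D.act m x ∈ P

/-- YJ4 (uses VX1-VX3, LSX, YJ1): `τ a x` = the flip (LSX) if it stays in `YJ J`, otherwise `x`. `com` as in FT: if `a, b` are adjacent and `x, τ_a x, τ_b x ∈ YJ J` (global flips) then `τ_a τ_b x ∈ YJ J` (YJ1 (4)). Second part: `n ∈ NJ J` maps the label `a` to the label `n a` (`H` normal). -/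
def Stmt_YJ4 : Prop :=
  ∀ (D : Rd) (H : Subgroup D.W), D.Deep H → ∀ J : Set D.S, Finite (D.par J) →
    (∃ L : LS (D.lg H) (D.YT J), D.IsFlipJ H J L) ∧
    ∀ L : LS (D.lg H) (D.YT J), D.IsFlipJ H J L →
      (∀ n ∈ D.NJ J, ∀ a a' : D.Lb H, a'.1 = D.ρ n '' a.1 → ∀ x x' : D.YT J, x'.1 = D.act n x.1 →
        (L.τ a' x').1 = D.act n (L.τ a x).1) ∧
      (∀ x y : D.YT J, ∃ γ, L.r x γ = y)

/-- YJ5 (uses BAS, SGN, PAR, RNK, PCL, FPR, NST, NRM, VX1-VX3): a finite order element `n` of `NJ J` fixes a cube of `YJ J`. `par J ⟨n⟩` is a finite group, contained in a finite `cp g K` (PCL). `Φ' = {φ ∈ Rt | In K (g⁻¹ φ)}`: finite, `n Φ' = Φ'`, contains the roots supported in `J` (RNK). All roots of `Φ'` positive at `g` are minimal in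
`act g Ps` (YJ1 (1) for `K`). `x` = `act g Ps` with the signs of the roots of `Φ'` supported in `J` changed to positive (flips: VX3 (2), FPR); every element of `x ∩ Φ'` is minimal in `x`. `A` = `{ψ ∈ x ∩ Φ' | ¬ In J ψ}`. `act n x` differs from `x` only in `Φ'`: `act n (act g Ps)` is `act (g k) Ps`, `k ∈ par K`, and `k` changes only
the signs of roots supported in `K` (PAR); and not in the roots supported in `J`, because `n ∈ NJ J`. -/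
def Stmt_YJ5 : Prop :=
  ∀ (D : Rd) (J : Set D.S), Finite (D.par J) → ∀ n ∈ D.NJ J, (∃ k : ℕ, 0 < k ∧ n ^ k = 1) →
    ∃ (x : Set D.V) (A : Set D.V), D.YJ J x ∧ A.Finite ∧ (∀ ψ ∈ A, D.Mn x ψ ∧ ¬ D.In J ψ) ∧
      (∀ ψ ∈ A, ∀ χ ∈ A, ψ ≠ χ → |D.B ψ χ| < 1) ∧ (∀ ψ ∈ A, ∀ φ ∈ D.Ps, D.In J φ → |D.B ψ φ| < 1) ∧
      (∀ ψ ∈ A, D.ρ n ψ ∈ A ∨ -D.ρ n ψ ∈ A) ∧ (∀ ψ ∈ x, ψ ∉ D.act n x → ψ ∈ A)

/-- YJ6 (uses YJ1-YJ5, DEV, LSX, SMT): Smith theory for `YJ J`. `N` = `NJ J` (a subgroup by NRM), `Y = YT J`, action on labels `n • a = ρ n '' a`, `N0 = H ∩ NJ J`, `c`, `κ` from DEV (restricted), `𝓜` = all `M'' ∩ NJ J` with `M'' ≤ H` normal of finite index in `W`. `HasFix` from YJ5: `I` = labels of the elements of `A`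
(different elements have different labels: `Deep.self`; they are adjacent; `IsFlipJ` moves; `n • y = L.r y γ`, `γ` the product of the labels of `x \ act n x ⊆ A`). -/
def Stmt_YJ6 : Prop :=
  ∀ D : Rd, D.AF → ∀ (H : Subgroup D.W), D.Deep H → ∀ J : Set D.S, Finite (D.par J) → ∀ p : ℕ, p.Prime →
    ∀ M ≤ H, M.Normal → M.FiniteIndex → ∃ M1 ≤ H, M1.Normal ∧ M1.FiniteIndex ∧
      ∀ n ∈ D.NJ J, ∀ m ∈ M1, m ∈ D.NJ J → n ^ p = 1 → (m * n) ^ p = 1 →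
        ∃ m0 ∈ M, m0 ∈ D.NJ J ∧ m0 * (m * n) * m0⁻¹ = n

/-- LOC (uses PCL, RNK, NRM, DEEP, YJ2, YJ6). Wlog `M ≤ H`, `H` deep. PCL for the finite group `⟨x ^ p⟩`: `cp g J` with `par J` finite; conjugating `x`, `y1` by `g⁻¹` we may assume `g = 1` (`M`, `M1` are normal). `M1` from YJ6 for this `J` and `M`. `x` normalises `⟨x ^ p⟩`, so also `par J` (RNK), and so does `y1` because
`y1 ^ p = x ^ p`. `m = y1 x⁻¹ ∈ M1 ≤ H` normalises `par J`, so `m ∈ NJ J` and `m` centralises `par J` (YJ2). NRM: `q ∈ par J` with `n = q x ∈ NJ J`; `q y1 = q m x = m n ∈ NJ J`. `n ^ p ∈ par J` (as `n ∈ par J x`, `x` normalises, `x ^ p ∈ par J`) and `n ^ p ∈ NJ J`, so `n ^ p = 1` (NRM (2)); in the same way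
`(m n) ^ p = 1`. YJ6: `m0 (m n) m0⁻¹ = n`, `m0 ∈ M ∩ NJ J` centralises `par J` (YJ2, NRM (3)): `m0 y1 m0⁻¹ = m0 q⁻¹ (m n) m0⁻¹ = q⁻¹ n = x`. -/
def Stmt_LOC : Prop :=
  ∀ D : Rd, D.AF → ∀ x : D.W, (∃ k : ℕ, 0 < k ∧ x ^ k = 1) → ∀ p : ℕ, p.Prime → ∀ M : Subgroup D.W, M.Normal → M.FiniteIndex →
    ∃ M1 : Subgroup D.W, M1.Normal ∧ M1.FiniteIndex ∧ ∀ y1, y1 ^ p = x ^ p → y1 * x⁻¹ ∈ M1 →
      ∃ m3 ∈ M, m3 * y1 * m3⁻¹ = x

/-- RTT (uses RSF, LOC): induction on `n` with `x ^ n = 1`. `n = 1`: `x = 1`; if `y ≠ 1` take `M'` not containing `y` (RSF). `n = p n'`: `(x ^ p) ^ n' = 1`. Given `M`: `M1` from LOC for `x, p, M`; `M1'` from `RT (x ^ p) (y ^ p)` for `M ⊓ M1`; `M' = M1' ⊓ M1`. If `c y c⁻¹ x⁻¹ ∈ M'` then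
`c y ^ p c⁻¹ (x ^ p)⁻¹ ∈ M1'`, so there is `m1 ∈ M ⊓ M1` with `(m1 c) y ^ p (m1 c)⁻¹ = x ^ p`; `y1 = (m1 c) y (m1 c)⁻¹`, `y1 x⁻¹ ∈ M1`; LOC: `m3`; take `m = m3 m1`. -/
def Stmt_RTT : Prop :=
  ∀ D : Rd, D.AF → ∀ x y : D.W, (∃ n : ℕ, 0 < n ∧ x ^ n = 1) → RT x y

/- TOR (uses RTT): `RT x y` for `M = ⊤` and `PC x y` give a conjugating element. (`Stmt_TOR` is in InterfaceF.) -/

end Pool.CS
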