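import Pool.Agent.Work.MP_64ea0f_cs.Defs3

set_option autoImplicit false

/-! # Stage G, part 3: the folded cubing of `YJ K`

Notation. `K` with `par K` finite (`K = ∅` gives all vertices). Affine vectors `δ` (`Af δ`), roots `Fd δ`; a vertex `x` restricted to `Fd δ` is given by its thresholds (THR). A vertex which is big at `δ` can be shifted in
the `δ`-coordinates arbitrarily (SHX). We identify vertices whose `δ`-coordinates differ by a shift vector of `Shd K N δ` (multiples of `N`, orthogonal to the translations). Far vertices look like products (FAR1), so the flips descend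
to the quotient; the quotient is finite modulo any finite index subgroup of `NJ K`. -/

namespace Pool.CS

namespace Rd
variable (D : Rd)

/-- the shifted set -/
def shs (δ : D.V) (ν : D.V → ℤ) (x : Set D.V) : Set D.V :=
  {φ | (φ ∈ x ∧ φ ∉ D.Fd δ) ∨ (φ ∈ D.Fd δ ∧ φ - ((ν φ : ℝ) * D.cst δ φ) • δ ∈ x)}

/-- integer vectors on the directions of `Fd δ`: constant on directions, odd, zero on the roots of `K` -/
structure Iv (K : Set D.S) (δ : D.V) (ν : D.V → ℤ) : Prop where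
  dir : ∀ φ ∈ D.Fd δ, ∀ t : ℝ, φ + t • δ ∈ D.Fd δ → ν (φ + t • δ) = ν φ
  odd : ∀ φ ∈ D.Fd δ, ν (-φ) = -ν φ
  zro : ∀ φ ∈ D.Fd δ, D.In K φ → ν φ = 0

end Rd

/-! ## Input from parts G1, G2 (helper91) -/

/-- THR (G1): structure of `Fd δ` -/
def Stmt_THR : Prop :=
  ∀ (D : Rd) (δ : D.V), D.Af δ → ∀ φ ∈ D.Fd δ,
    0 < D.cst δ φ ∧ (∀ t : ℝ, φ + t • δ ∈ D.Rt ↔ ∃ i : ℤ, t = i * D.cst δ φ) ∧
    (∀ t : ℝ, φ + t • δ ∈ D.Rt → D.cst δ (φ + t • δ) = D.cst δ φ ∧ φ + t • δ ∈ D.Fd δ) ∧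
    -φ ∈ D.Fd δ ∧ D.cst δ (-φ) = D.cst δ φ ∧
    (∀ t : ℝ, 0 ≤ t → φ + t • δ ∈ D.Rt → D.Sub φ (φ + t • δ)) ∧
    (∀ x, D.Vx x → ∃ j : ℤ, ∀ i : ℤ, φ + ((i : ℝ) * D.cst δ φ) • δ ∈ x ↔ j ≤ i) ∧
    (∀ ψ ∈ D.Fd δ, |D.B φ ψ| < 1 ∨ ∃ t : ℝ, ψ = φ + t • δ ∨ ψ = -φ + t • δ) ∧
    (∃ A, D.Dirs δ A) ∧
    (∀ g, D.Af (D.ρ g δ) ∧ D.ρ g φ ∈ D.Fd (D.ρ g δ) ∧ D.cst (D.ρ g δ) (D.ρ g φ) = D.cst δ φ)

/-- ORT (G1): `B μ δ = 0` iff `μ ∈ Fd δ ∪ Fp δ`; `Fp δ` is orthogonal to `Fd δ`; uniform bounds `κ0 > 0` for the other values of `|B μ δ|`, and bounds for the steps and the number of directions -/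
def Stmt_ORT : Prop :=
  ∀ D : Rd, (∀ δ, D.Af δ → (∀ φ ∈ D.Fd δ, D.B φ δ = 0) ∧ (∀ μ ∈ D.Fp δ, ∀ φ ∈ D.Fd δ, D.B μ φ = 0) ∧ D.B δ δ = 0) ∧
    (∃ κ0 : ℝ, 0 < κ0 ∧ ∀ δ, D.Af δ → ∀ μ ∈ D.Rt, D.B μ δ = 0 ∨ κ0 ≤ |D.B μ δ|) ∧
    (∃ c0 c1 : ℝ, 0 < c0 ∧ ∀ δ, D.Af δ → ∀ φ ∈ D.Fd δ, c0 ≤ D.cst δ φ ∧ D.cst δ φ ≤ c1) ∧
    (∃ n : ℕ, ∀ δ, D.Af δ → ∀ A, D.Dirs δ A → A.card ≤ n)

/-- ORD (G1): two affine vectors. `B δ δ' ≤ 0`. If it is `0` and `δ ≠ δ'`, then `Fd δ` and `Fd δ'` are orthogonal (and disjoint) -/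
def Stmt_ORD : Prop :=
  ∀ (D : Rd) (δ δ' : D.V), D.Af δ → D.Af δ' → D.B δ δ' ≤ 0 ∧
    (D.B δ δ' = 0 → δ ≠ δ' → ∀ φ ∈ D.Fd δ, φ ∉ D.Fd δ' ∧ D.B φ δ' = 0 ∧ ∀ ψ ∈ D.Fd δ', D.B φ ψ = 0)

/-- BTH (G2): thresholds of big vertices are minimal (if `χ ∈ x`, `Sub χ φ`, `χ ≠ φ`: `χ ∈ Fd δ` must be parallel; `χ ∈ Fp δ` is orthogonal; otherwise `B χ δ < 0` as `x` is big and `χ ∈ x`, but `Sub χ (φ + t δ)` for all `t ≥ 0`
gives `B χ φ + t B χ δ ≥ 1`) -/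
def Stmt_BTH : Prop :=
  ∀ (D : Rd) (x : Set D.V), D.Vx x → ∀ δ, D.Af δ → D.Big x δ → ∀ φ ∈ D.Fd δ, φ ∈ x →
    φ - (D.cst δ φ) • δ ∉ x → D.Mn x φ

/-- FAR1 (G2): `C0` depends only on `D, K`. If `μ` is a root with `B μ δ > 0` and `μ ∈ x` or `Mn x (-μ)`, then `f = B μ (·) / B μ δ` satisfies `f φ ≥ - 1 / κ0` for `φ ∈ x ∩ Fd δ`; average it over the finite group generated by the
reflections in the roots of `Fd δ` supported in `K` (these are thresholds of `x`, so `f` is bounded by `1/κ0 + c1` on them, and `f` changes by at most `2 (1/κ0 + c1)` under such a reflection as `|B| ≤ 1` on `Fd δ`) -/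
def Stmt_FAR1 : Prop :=
  ∀ (D : Rd) (K : Set D.S), Finite (D.par K) → ∃ C0 : ℝ, 0 ≤ C0 ∧ ∀ x, D.YJ K x → ∀ δ, D.Far K C0 x δ →
    D.Big x δ ∧ D.Cmp K δ ∧ ∀ φ, D.Mn x φ → φ ∈ D.Fd δ ∨ φ ∈ D.Fp δ

/-- FAR2 (G2): `f = B δ' (·) / B δ' δ`: if `φ ∈ x ∩ Fd δ` then `B δ' φ ≤ 0` since `x` is big at `δ'` -/
def Stmt_FAR2 : Prop :=
  ∀ (D : Rd) (K : Set D.S) (x : Set D.V), D.Vx x → ∀ δ δ', D.Af δ → D.Af δ' → D.Big x δ' → D.Cmp K δ' →
    D.B δ δ' < 0 → D.Near K 0 x δ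

/-- FAR3 (G2): far affine vectors are finitely many (pairwise orthogonal by FAR1, FAR2: choose a root in every `Fd δ`, DIM) -/
def Stmt_FAR3 : Prop :=
  ∀ (D : Rd) (K : Set D.S), Finite (D.par K) → ∃ C0 : ℝ, ∀ C, C0 ≤ C → ∀ x, D.YJ K x → {δ | D.Far K C x δ}.Finite

/-! ## G3a. Shifts -/

/-- IVA (uses THR): algebra of shift vectors: sums, negatives, `0`, transport by `w ∈ NJ K`, divisibility of `N` -/
def Stmt_IVA : Prop :=
  ∀ (D : Rd) (K : Set D.S) (δ : D.V), D.Af δ →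
    (∀ N, D.Shd K N δ (fun _ => 0)) ∧
    (∀ N ν, D.Shd K N δ ν → D.Shd K N δ (fun φ => -ν φ) ∧ D.Iv K δ ν) ∧
    (∀ N ν ν', D.Shd K N δ ν → D.Shd K N δ ν' → D.Shd K N δ (fun φ => ν φ + ν' φ)) ∧
    (∀ N N' ν, N ∣ N' → D.Shd K N' δ ν → D.Shd K N δ ν) ∧
    (∀ N ν, D.Shd K N δ ν → ∀ w ∈ D.NJ K, D.Shd K N (D.ρ w δ) (fun φ => ν (D.ρ w⁻¹ φ)))

/-- SHX (uses THR, ORT, ORD, NST, BTH, YJ1, VX1): shifted vertices. `y = shs δ ν x`. `Vx y`: only `cmp` for `φ ∈ y ∩ Fd δ`, `μ ∈ x`, `μ ∉ Fd δ` is new: `B μ δ ≤ 0` (`x` is big); if `B μ δ = 0` then `B μ φ = 0`, NST (4); if `B μ δ < 0` and there is no `w` with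
`On w φ`, `On w μ`, then `Sub μ (-φ)`, so `Sub μ (-φ + t δ)`, `B μ (-φ) + t B μ δ ≥ 1` for all `t ≥ 0` in the progression: impossible. `y` is big. `YJ K y`: for `φ ∈ Ps` supported in `K`: `B φ δ = 0` (`Cmp`); `φ ∈ Fd δ`: `ν φ = 0`, it is still a threshold, BTH; `φ ∈ Fp δ`: if `χ ∈ y`, `Sub χ φ`, then
`χ ∉ Fd δ` (orthogonal), so `χ ∈ x`, `χ = φ`. Same for the other minimal roots. -/
def Stmt_SHX : Prop :=
  ∀ (D : Rd) (K : Set D.S), Finite (D.par K) → ∀ δ, D.Af δ → D.Cmp K δ → ∀ x, D.YJ K x → D.Big x δ →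
    ∀ ν, D.Iv K δ ν →
      D.YJ K (D.shs δ ν x) ∧ D.Big (D.shs δ ν x) δ ∧
      (∀ δ', D.Af δ' → D.B δ δ' = 0 → D.Big x δ' → D.Big (D.shs δ ν x) δ') ∧
      (∀ φ, D.Mn x φ → φ ∈ D.Fp δ → D.Mn (D.shs δ ν x) φ ∧
        (D.YJ K (D.fl x φ) → D.YJ K (D.fl (D.shs δ ν x) φ) ∧ D.shs δ ν (D.fl x φ) = D.fl (D.shs δ ν x) φ)) ∧
      (∀ φ, D.Mn x φ → φ ∈ D.Fd δ → D.Mn (D.shs δ ν x) (φ + ((ν φ : ℝ) * D.cst δ φ) • δ) ∧
        (D.YJ K (D.fl x φ) → D.YJ K (D.fl (D.shs δ ν x) (φ + ((ν φ : ℝ) * D.cst δ φ) • δ)) ∧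
          D.shs δ ν (D.fl x φ) = D.fl (D.shs δ ν x) (φ + ((ν φ : ℝ) * D.cst δ φ) • δ)))

/-- MSX (uses SHX, ORD, IVA): existence of multiple shifts (apply SHX successively) -/
def Stmt_MSX : Prop :=
  ∀ (D : Rd) (K : Set D.S), Finite (D.par K) → ∀ x, D.YJ K x → ∀ (N : ℕ) (Δ : Finset D.V) (ν : D.V → D.V → ℤ),
    (∀ δ ∈ Δ, D.Af δ ∧ D.Cmp K δ ∧ D.Big x δ) → (∀ δ ∈ Δ, ∀ δ' ∈ Δ, δ ≠ δ' → D.B δ δ' = 0) →
    (∀ δ ∈ Δ, D.Shd K N δ (ν δ)) → ∃ y, D.MSh K N Δ ν x y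

/-- MSA (uses IVA, THR, ORD): algebra of multiple shifts. (1) inverse; (2) composition if all affine vectors involved are orthogonal or equal (bigness of `x` at `δ' ∈ Δ'`: `y` is big at `δ'` and differs from `x` only in `Fd δ`, `δ ∈ Δ`, whose roots are orthogonal
to `δ'`); (3) trivial shifts can be removed; (4) equivariance under `NJ K`; (5) `N ∣ N'`; (6) a nontrivial shift by multiples of `N ≥ 2` changes at least two roots: if `x \ y` has at most one element then `x = y`. -/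
def Stmt_MSA : Prop :=
  ∀ (D : Rd) (K : Set D.S), Finite (D.par K) → ∀ N : ℕ,
    (∀ Δ ν x y, D.MSh K N Δ ν x y → D.MSh K N Δ (fun δ φ => -ν δ φ) y x) ∧
    (∀ Δ ν Δ' ν' x y z, D.MSh K N Δ ν x y → D.MSh K N Δ' ν' y z →
      (∀ δ ∈ Δ, ∀ δ' ∈ Δ', δ ≠ δ' → D.B δ δ' = 0) → D.MR K N x z) ∧
    (∀ Δ ν x y, D.MSh K N Δ ν x y → ∃ Δ', Δ' ⊆ Δ ∧ D.MSh K N Δ' ν x y ∧ ∀ δ ∈ Δ', ∃ φ ∈ D.Fd δ, ν δ φ ≠ 0) ∧
    (∀ x y, D.MR K N x y → ∀ n ∈ D.NJ K, D.MR K N (D.act n x) (D.act n y)) ∧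
    (∀ N' x y, N ∣ N' → D.MR K N' x y → D.MR K N x y) ∧
    (2 ≤ N → ∀ x y, D.MR K N x y → (∀ φ ∈ x, ∀ ψ ∈ x, φ ∉ y → ψ ∉ y → φ = ψ) → x = y) ∧
    (∀ x, D.YJ K x → D.MR K N x x)

/-- UNQ (uses THR, ORT): uniqueness of the near representative. For a direction with threshold root `φ` of `x` (`φ ∈ x`, `φ - c δ ∉ x`, so `-φ + c δ ∈ x`): `-C ≤ f φ ≤ C + c`; in `y` the threshold is `φ + ν c δ`: `-C ≤ f' φ + ν c ≤ C + c`. With `χ = f' - f` (`χ δ = 0`, `χ = 0` on the roots of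
`K` in `Fd δ`): `|ν + χ φ / c| ≤ (2 C + c) / c`, and `∑ ν χ / c = 0` (`Shd.ort`), so `∑ ν² ≤ ∑ (ν + χ/c)² ≤ n ((2 C + c1) / c0)²`, while a nonzero `ν` is at least `N` in absolute value. -/
def Stmt_UNQ : Prop :=
  ∀ (D : Rd) (K : Set D.S) (C : ℝ), 0 ≤ C → ∃ N1 : ℕ, 0 < N1 ∧ ∀ N, N1 ≤ N → ∀ Δ ν x y, D.MSh K N Δ ν x y →
    ∀ δ ∈ Δ, (∃ φ ∈ D.Fd δ, ν δ φ ≠ 0) → D.Far K C x δ ∨ D.Far K C y δ

/-- NRT (uses ORD): nearness only depends on `x ∩ Fd δ`, is monotone in `C`, and equivariant -/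
def Stmt_NRT : Prop :=
  ∀ (D : Rd) (K : Set D.S) (C : ℝ),
    (∀ x y δ, (∀ φ ∈ D.Fd δ, φ ∈ x ↔ φ ∈ y) → D.Near K C x δ → D.Near K C y δ) ∧
    (∀ C' x δ, C ≤ C' → D.Near K C x δ → D.Near K C' x δ) ∧
    (∀ x δ, D.Af δ → ∀ n ∈ D.NJ K, D.Near K C x δ → D.Near K C (D.act n x) (D.ρ n δ))

/-! ## G3b. The equivalence relation. In all statements `C` is at least the constants of FAR1, FAR3 and `N` at least the constant of UNQ. -/

/-- OK constants: `C` and `N` are large enough -/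
def OkC (D : Rd) (K : Set D.S) (C : ℝ) (N : ℕ) : Prop :=
  0 ≤ C ∧ 2 ≤ N ∧
  (∀ x, D.YJ K x → ∀ δ, D.Far K C x δ → D.Big x δ ∧ D.Cmp K δ ∧ ∀ φ, D.Mn x φ → φ ∈ D.Fd δ ∨ φ ∈ D.Fp δ) ∧
  (∀ x, D.YJ K x → {δ | D.Far K C x δ}.Finite) ∧
  (∀ Δ ν x y, D.MSh K N Δ ν x y → ∀ δ ∈ Δ, (∃ φ ∈ D.Fd δ, ν δ φ ≠ 0) → D.Far K C x δ ∨ D.Far K C y δ)

/-- OKC (uses FAR1, FAR3, UNQ, NRT): the constants exist, every large `N` is fine -/
def Stmt_OKC : Prop :=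
  ∀ (D : Rd) (K : Set D.S), Finite (D.par K) → ∃ C : ℝ, ∃ N1 : ℕ, ∀ N, N1 ≤ N → OkC D K C N

/-- FR1 (uses FAR2, ORD, NRT): far coordinates under multiple shifts. Let `MSh K N Δ ν x y`. (1) If `x` is far at `δ'` and `δ ∈ Δ` then `δ = δ'` or `B δ δ' = 0` (`x` is big at `δ`; FAR2 with the roles: `B δ' δ < 0` would give `Near K 0 x δ'`, NRT). (2) So if moreover `δ' ∉ Δ`, `y` agrees with
`x` on `Fd δ'` and is far at `δ'`. (3) two vectors at which `x` is far are equal or orthogonal. -/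
def Stmt_FR1 : Prop :=
  ∀ (D : Rd) (K : Set D.S), Finite (D.par K) → ∀ C N, OkC D K C N →
    (∀ Δ ν x y, D.MSh K N Δ ν x y → ∀ δ', D.Far K C x δ' →
      (∀ δ ∈ Δ, δ ≠ δ' → D.B δ δ' = 0) ∧ (δ' ∉ Δ → (∀ φ ∈ D.Fd δ', φ ∈ x ↔ φ ∈ y) ∧ D.Far K C y δ')) ∧
    (∀ x, D.YJ K x → ∀ δ δ', D.Far K C x δ → D.Far K C x δ' → δ ≠ δ' → D.B δ δ' = 0)

/-- RD1 (uses FR1, MSX, MSA, NRT, IVA): existence of a reduced core. For every `δ` at which `x` is far (finitely many, pairwise orthogonal) choose `ν δ` such that the shifted vertex is near at `δ` if this is possible, `0` otherwise. Let `z` be the shifted vertex. Reduced: let `z` be far at `δ'`, `MSh Δ' ν' z y`, `y` near at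
`δ'`. If `x` is near at `δ'`: `z` is big at all `δ` (far at `x`) and far at `δ'`, so they are orthogonal or equal to `δ'` (FR1), not equal; so `x`, `z` agree on `Fd δ'`: contradiction. So `x` is far at `δ'`; the `δ'`-coordinates of `y` are those of `x` shifted by `ν δ' + ν' δ'`, so it was possible to make them near, and `z` is near
at `δ'`: contradiction. Moreover all `δ` used are far at `x`. -/
def Stmt_RD1 : Prop :=
  ∀ (D : Rd) (K : Set D.S), Finite (D.par K) → ∀ C N, OkC D K C N → ∀ x, D.YJ K x →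
    ∃ z Δ ν, D.Red K C N z ∧ D.MSh K N Δ ν x z ∧ ∀ δ ∈ Δ, D.Far K C x δ

/-- RD2 (uses FR1, MSX, MSA, NRT, IVA): (1) nontrivial shifts from a reduced `z` to `x` are at vectors at which `x` is far (OkC: `z` or `x` is far; if `x` is near, `z` is far, against `Red`). (2) [shortest proof (helper79): compose (possible since nontrivial shifts of both are at vectors far at `x`), remove the trivial shifts; by OkC at every remaining `δ` one of `z`, `z'` is far, and `Red` of that one forbids that the other one is near at `δ`] two reduced cores of `x` are related, by nontrivial shifts at vectors far at both: let `Δ` (from `z` to `x`), `Δ'` (from `z'` to `x`) be without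
trivial shifts. All elements are far at `x`, so they are pairwise orthogonal or equal; compose (MSA). `z` is far at `δ ∈ Δ`: if `δ ∉ Δ'`, `z'` agrees with `x` on `Fd δ`, so it is far at `δ`, and shifting it by `- ν δ` (MSX) gives the coordinates of `z`; since `z'` is reduced, these are not near. (3) if `z, z'` are reduced, `MR z z'`, `MR z' w`
then `MR z w`. (4) if `MR u x` there is a reduced `z` with `MR z u`, `MR z x` (RD1 for `u`, vectors far at `u` are orthogonal or equal to those of the shift from `u` to `x` by FR1). -/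
def Stmt_RD2 : Prop :=
  ∀ (D : Rd) (K : Set D.S), Finite (D.par K) → ∀ C N, OkC D K C N →
    (∀ z, D.Red K C N z → ∀ x Δ ν, D.MSh K N Δ ν z x → ∀ δ ∈ Δ, (∃ φ ∈ D.Fd δ, ν δ φ ≠ 0) → D.Far K C x δ) ∧
    (∀ z z', D.Red K C N z → D.Red K C N z' → ∀ x, D.MR K N z x → D.MR K N z' x →
      ∃ Δ ν, D.MSh K N Δ ν z z' ∧ ∀ δ ∈ Δ, D.Far K C z δ ∧ D.Far K C z' δ) ∧
    (∀ z z' w, D.Red K C N z → D.Red K C N z' → D.MR K N z z' → D.MR K N z' w → D.MR K N z w) ∧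
    (∀ u x, D.MR K N u x → ∃ z, D.Red K C N z ∧ D.MR K N z u ∧ D.MR K N z x)

/-- EQV (uses RD1, RD2, MSA): `Eqv` is an equivalence relation containing `MR`, invariant under `NJ K`, and finer for multiples of `N` -/
def Stmt_EQV : Prop :=
  ∀ (D : Rd) (K : Set D.S), Finite (D.par K) → ∀ C N, OkC D K C N →
    (∀ x, D.YJ K x → D.Eqv K C N x x) ∧ (∀ x y, D.Eqv K C N x y → D.Eqv K C N y x) ∧
    (∀ x y z, D.Eqv K C N x y → D.Eqv K C N y z → D.Eqv K C N x z) ∧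
    (∀ x y, D.MR K N x y → D.Eqv K C N x y) ∧
    (∀ x y, D.Eqv K C N x y → ∀ n ∈ D.NJ K, D.Eqv K C N (D.act n x) (D.act n y)) ∧
    (∀ N' x y, N ∣ N' → 0 < N' → D.Eqv K C N' x y → D.Eqv K C N x y)

/-- PRL (uses THR, BAS): labels are periodic. `T = rf (φ + c δ) * rf φ` maps `φ + t δ` to `φ + (t + 2 c) δ`; `T ^ q ∈ H`, `q` the index of `H`. So `N0 = 2 q` works. -/
def Stmt_PRL : Prop :=
  ∀ (D : Rd) (H : Subgroup D.W), H.Normal → H.FiniteIndex → ∃ N0 : ℕ, 0 < N0 ∧ ∀ δ, D.Af δ → ∀ φ ∈ D.Fd δ, ∀ i : ℤ,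
    φ + ((N0 * i : ℝ) * D.cst δ φ) • δ ∈ D.lab H φ

/-- MVE (uses PRL, RD2, SHX, MSA, YJ1): moves lift to the reduced core. Remove the trivial shifts of `Δ`. By RD2 (1) `x` is far at all `δ ∈ Δ`, so `φ ∈ Fd δ` or `φ ∈ Fp δ` (OkC). If `φ ∈ Fd δ` for a `δ ∈ Δ` then `φ ∈ Fp δ'` for the other ones (ORD); `φ' = φ - ν c δ`; otherwise `φ' = φ`. SHX (repeatedly, in the direction
from `x` to `z`, with `-ν`): `Mn z φ'`, `YJ K (fl z φ')`, and `fl z φ'`, `fl x φ` are related by the same shifts (flips in roots of `Fd δ ∪ Fp δ` do not affect bigness at `δ`). -/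
def Stmt_MVE : Prop :=
  ∀ (D : Rd) (K : Set D.S), Finite (D.par K) → ∀ C N, OkC D K C N → ∀ H : Subgroup D.W,
    (∀ δ, D.Af δ → ∀ φ ∈ D.Fd δ, ∀ i : ℤ, φ + ((N * i : ℝ) * D.cst δ φ) • δ ∈ D.lab H φ) →
    ∀ z x, D.Red K C N z → D.MR K N z x → ∀ φ, D.Mn x φ → D.YJ K (D.fl x φ) →
      ∃ φ', D.Mn z φ' ∧ D.YJ K (D.fl z φ') ∧ φ' ∈ D.lab H φ ∧ D.MR K N (D.fl z φ') (D.fl x φ)

/-- NMV (uses MVE, RD2, MSA, VX2): a move changes the class. Suppose `Eqv x (fl x φ)`, `z` the common reduced core. MVE: `MR (fl z φ') (fl x φ)`. RD2 (4): reduced `z2` with `MR z2 (fl z φ')`, `MR z2 (fl x φ)`. RD2 (2): `z, z2` are related by shifts at vectors far at `z2`, at which all shifts from `z2` are orthogonal or equal (FR1), so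
`MR z (fl z φ')` by MSA (2). They differ in one root, so they are equal (MSA (6)): contradiction to VX2. -/
def Stmt_NMV : Prop :=
  ∀ (D : Rd) (K : Set D.S), Finite (D.par K) → ∀ C N, OkC D K C N → ∀ H : Subgroup D.W,
    (∀ δ, D.Af δ → ∀ φ ∈ D.Fd δ, ∀ i : ℤ, φ + ((N * i : ℝ) * D.cst δ φ) • δ ∈ D.lab H φ) →
    ∀ x φ, D.YJ K x → D.Mn x φ → D.YJ K (D.fl x φ) → ¬ D.Eqv K C N x (D.fl x φ)

/-- FRE (uses RD2, EQV, MSA, FR1, YJ2, THR, VX1, DEV): freeness. Let `z` be a reduced core of `x`, then `h z` is a reduced core of `h x`; `MR z (h z)` by shifts far at both (RD2 (2)). So the finite set `E` of vectors far at `z` is the same for `h z`, `h` permutes `E`. Choose `k > 0` such that `h ^ k` fixes every `δ ∈ E` and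
every direction of `Fd δ` (`Dirs`, finite). `MSh Δ ν z (h ^ k z)` with `Δ ⊆ E` (compose). For `δ ∈ Δ` let `χ v = π (h ^ k v - v)`, `π` a functional with `π δ = 1`: `h ^ k φ = φ + χ φ • δ` for `φ ∈ Fd δ`, `χ δ = 0`, and `χ φ = 0` for roots `φ` of `K` (`h ^ k` centralises `par K`, YJ2: it fixes these roots). Comparing thresholds:
`χ φ = ν δ φ * cst δ φ`. `Shd.ort` for `χ`: `∑ (ν δ α)² = 0`. So `h ^ k z = z`, `c (h ^ k) = 1` (DEV, κ), `h ^ k = 1`, `h = 1`. -/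
def Stmt_FRE : Prop :=
  ∀ (D : Rd) (K : Set D.S), Finite (D.par K) → ∀ C N, OkC D K C N → ∀ H : Subgroup D.W, D.Deep H →
    ∀ x, D.YJ K x → ∀ h ∈ H, h ∈ D.NJ K → D.Eqv K C N x (D.act h x) → h = 1

/-- KMC (uses PRL, SHX, THR, DEV, VX1): `κ` modulo `MC` is constant on classes. `N2 = 2 q e`, `q` the index of `H`, `e` the index of `MC` (`g ^ e ∈ MC` for all `g`). It suffices to treat a shift `ν` at one `δ`, nonzero in one direction `± φ` only, `ν φ = n > 0` a multiple of `N2` (with `Iv`, not `Shd`; SHX). All intermediate vertices (`ν φ = 0, 1, ..., n`) are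
vertices by SHX and successive ones differ by the flip of the threshold; so `κ y = κ x * (product of the labels of φ, φ + c δ, ..., φ + (n-1) c δ)`; these labels have period `2 q`, so the product is an `e`-th power, in `MC`. For a multiple shift do this for all `δ ∈ Δ` and all directions one after the other. -/
def Stmt_KMC : Prop :=
  ∀ (D : Rd) (H : Subgroup D.W), D.Deep H → ∀ L : LS (D.lg H) D.X, D.IsFlip H L → ∀ b κ c, D.Dev H L b κ c →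
    ∀ MC : Subgroup (RC (D.lg H)), MC.Normal → MC.FiniteIndex → ∃ N2 : ℕ, 0 < N2 ∧ ∀ (K : Set D.S) (N : ℕ), Finite (D.par K) → N2 ∣ N → 0 < N →
      ∀ x y : D.X, D.MR K N x.1 y.1 → (κ x)⁻¹ * κ y ∈ MC

/-- FOR (uses stage G2 general finiteness, LAT; see PAPER_G.md): finitely many orbits on classes -/
def Stmt_FOR : Prop :=
  ∀ (D : Rd) (K : Set D.S), Finite (D.par K) → ∀ (N : ℕ), 0 < N → ∀ M : Subgroup D.W, M.Normal → M.FiniteIndex →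
    ∃ P : Set (Set D.V), P.Finite ∧ (∀ y ∈ P, D.YJ K y) ∧
      ∀ x, D.YJ K x → ∃ m ∈ M, m ∈ D.NJ K ∧ ∃ y ∈ P, D.MR K N (D.act m x) y

/-! ## G3c. The quotient -/

/-- QLS (no dependencies): quotient of an action of involutions by a relation. `τ' a [y] = [τ a y']` for a representative `y'` moved by `a` if there is one, otherwise `[y]`. `com` for adjacent `a, b`: if both move the class, they move a common representative `y` (`core`), and (automatic from `com`, `inv` of `L`) `b` moves `τ a y`: fine. If only `a` moves the class and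
`b` moves the class of `τ a y`: `a` and `b` move a common representative `z` of that class, `τ a z` is in the class of `y` and `b` moves it: contradiction. -/
def Stmt_QLS : Prop :=
  ∀ (Λ : Type) (G : SimpleGraph Λ) (Y : Type) (L : LS G Y) (r : Y → Y → Prop), Equivalence r →
    (∀ a y y', r y y' → L.τ a y ≠ y → L.τ a y' ≠ y' → r (L.τ a y) (L.τ a y')) →
    (∀ a y, L.τ a y ≠ y → ¬ r y (L.τ a y)) →
    (∀ y, ∃ z, r y z ∧ ∀ a y', r y y' → L.τ a y' ≠ y' → L.τ a z ≠ z) →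
    ∃ (Q : Type) (q : Y → Q) (LQ : LS G Q), Function.Surjective q ∧ (∀ x y, q x = q y ↔ r x y) ∧
      (∀ a x, L.τ a x ≠ x → LQ.τ a (q x) = q (L.τ a x) ∧ LQ.τ a (q x) ≠ q x) ∧
      (∀ v, ∃ x, q x = v ∧ ∀ a, LQ.τ a v ≠ v → L.τ a x ≠ x)

/-- FLD (uses OKC, EQV, PRL, MVE, NMV, FRE, KMC, FOR, QLS, YJ4, RD2): the folding theorem. `ι` = all `N > 0` which are multiples of the constants of OKC (large), PRL; `r` = `Eqv K C N`. `core`: the reduced core `z` (MVE). First condition of QLS: if `a` moves `y` by `φ` and `y'` by `φ''`, `z` a common reduced core: MVE gives `φ', φ'''` minimal in `z` with the same label, so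
`φ' = φ'''` (`Deep.self`), and `fl y φ`, `fl y' φ''` are both related to `fl z φ'`. -/
def Stmt_FLD : Prop :=
  ∀ (D : Rd) (H : Subgroup D.W), D.Deep H → ∀ L : LS (D.lg H) D.X, D.IsFlip H L → ∀ b κ c, D.Dev H L b κ c →
    Function.Injective c → ∀ K : Set D.S, Finite (D.par K) → ∀ LJ : LS (D.lg H) (D.YT K), D.IsFlipJ H K LJ →
    ∃ (ι : Type) (Q : ι → Type) (q : ∀ i, D.YT K → Q i) (LQ : ∀ i, LS (D.lg H) (Q i)), Nonempty ι ∧
      (∀ i, Function.Surjective (q i)) ∧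
      (∀ i, ∀ n ∈ D.NJ K, ∀ x y x' y' : D.YT K, x'.1 = D.act n x.1 → y'.1 = D.act n y.1 → q i x = q i y → q i x' = q i y') ∧
      (∀ i a x, LJ.τ a x ≠ x → (LQ i).τ a (q i x) = q i (LJ.τ a x) ∧ (LQ i).τ a (q i x) ≠ q i x) ∧
      (∀ i v, ∃ x, q i x = v ∧ ∀ a, (LQ i).τ a v ≠ v → LJ.τ a x ≠ x) ∧
      (∀ i, ∀ h ∈ H, h ∈ D.NJ K → ∀ x x' : D.YT K, x'.1 = D.act h x.1 → q i x' = q i x → h = 1) ∧
      (∀ i, ∀ M : Subgroup D.W, M.Normal → M.FiniteIndex → ∃ P : Set (Q i), P.Finite ∧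
        ∀ x : D.YT K, ∃ m ∈ M, m ∈ D.NJ K ∧ ∃ x' : D.YT K, x'.1 = D.act m x.1 ∧ q i x' ∈ P) ∧
      (∀ i, ∀ MC : Subgroup (RC (D.lg H)), MC.Normal → MC.FiniteIndex →
        ∃ j, (∀ x y, q j x = q j y → q i x = q i y) ∧
          ∀ x y : D.YT K, q j x = q j y → (κ ⟨x.1, x.2.1⟩)⁻¹ * κ ⟨y.1, y.2.1⟩ ∈ MC)

end Pool.CS
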