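import Pool.Agent.Work.MP_64ea0f_cs.InterfaceG3

set_option autoImplicit false

/-! # Stage G, part 4: the general case of stages B, E, F, and the final theorem -/

namespace Pool.CS

/-! ## G4a. Deep subgroups, RT, full topology -/

/-- DEEPG (part G2): deep subgroups exist in general (the second part of `Stmt_DEEP` does not need `AF`) -/
def Stmt_DEEPG : Prop := ∀ D : Rd, ∃ H, D.Deep H

/-- RTWG (uses LBF, LSX, DEV, YJ4, FLD, RTC2, VX1-VX4): `RT` for squares of elements of a deep subgroup. `FLD` for `K = ∅`: `YJ ∅ x ↔ Vx x`, `NJ ∅` is everything, `LJ` = `L`. Fix `i`, `Q = Q i`, `q`, `LQ`. `LQ.r (q b) (κ x) = q x` for all vertices `x` (induction on `(x \ Ps).ncard` along moves). `LQ` commutes with the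
induced action of `H` on `Q` (labels are `H`-invariant). `KC = {γ | ∃ m ∈ H, LQ.r (q b) γ = q (m b)}` has finite index in `RC`, `r γ = m` is well defined (freeness), `r (c h) = h`: this is VRC, and the rest is the proof of RTW2 (helper29). -/
def Stmt_RTWG : Prop :=
  ∀ (D : Rd) (H : Subgroup D.W), D.Deep H → ∀ x ∈ H, ∀ y ∈ H, RT (x ^ 2) (y ^ 2)

/-- FTG (uses RES, DEEPG, LBF, LSX, DEV, YJ4, FLD, PAR, NST, VX1-VX4): `par J` has the full profinite topology. RES: `D'`, `i`, `f`; `ι : V' → V` the linear map `e s ↦ e (i s)`: it is equivariant, preserves the forms, and identifies the roots (positive roots) of `D'` with those of `D` supported in `J`. `H` deep for `D`, `H' = f⁻¹ H` is deep for `D'`: for a vertex `x'`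
of `D'`, `ext x' = ι x' ∪ {φ ∈ Ps | ¬ In J φ}` is a vertex of `D` and `Mn x' φ → Mn (ext x') (ι φ)` (if `χ ∈ Ps` is not supported in `J` and `Sub χ (ι φ)`: all `w ∈ par J` are on the positive side of `χ`, but not all on that of `ι φ`). Fix `i`, `Q`, `q`, `LQ` from FLD for `D', H', K = ∅`. For a label `a` of `(D, H)` define on `Q`: `T a v = LQ.τ a' v`
if `a'` is a label of `(D', H')` with `ι a' ⊆ a` (i.e. `ι φ ∈ a` for some `φ ∈ a'`) which moves `v`, otherwise `v`. Unique: a representative `x'` of `v` is moved by all letters which move `v` (FLD); two such `a'` would give two minimal roots of `ext x'` with the same `H`-label (`Deep.self`). `T` is an `LS (D.lg H) Q`: if `a, b` are adjacent, `a', b'` below `a, b` both move `v`,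
then they are adjacent (`Deep.osc` for `ext x'`); if `a'` moves `v`, and `b'` moves `LQ.τ a' v` then, as `a'` moves it back, `b'` moves `v`. Let `κ`, `c` be from DEV for `D, H`. Claim: `T.r (q b') (κ (ext x')) = q x'` for all `x'` (induction on `(x' \ Ps').ncard`). In particular for `h = f h' ∈ H ⊓ par J`: `T.r (q b') (c h) = q (h' b')`. `N' = f⁻¹ N ⊓ H'`;
`L_N = {γ | ∃ m ∈ N', T.r (q b') γ = q (m b')}` has finite index in `RC (D.lg H)` (`N'` contains a normal finite index subgroup of `D'.W`, FLD: finitely many orbits on `Q`). `M` = a normal finite index subgroup of `D.W` contained in `c⁻¹ (L_N) ≤ H`: if `h = f h' ∈ M ⊓ par J` then `q (h' b') = q (m b')`, `m ∈ N'`, so `h' = m` by freeness. -/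
def Stmt_FTG : Prop :=
  ∀ (D : Rd) (J : Set D.S) (N : Subgroup D.W), N ≤ D.par J → N.relIndex (D.par J) ≠ 0 →
    ∃ M : Subgroup D.W, M.Normal ∧ M.FiniteIndex ∧ M ⊓ D.par J ≤ N

/-! ## G4b. Smith theory with towers -/

/-- SMT2 (uses GOOD, TRF-type transfer, SMITH): as `Stmt_SMT`, for a directed system `Y i` (`i : ι`) with groups `M i`; freeness of `M i` on `Y i` replaces `κ`. The transfer step: let `φ` be a cocycle of degree `≥ 1` on the true flags of `Y i`, invariant under `M i`. GOOD: `r*φ = δψ` on `V × RC/MC`, `V = M i \ Y i` (r*φ as in TRF). Take `j, π, κ'` for `i`, `MC`. On `Y j`: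
`ψ' (y; I) = ψ (([π y], κ' y); I)` for true flags: invariant under `M j` and under `τ_s`, `s ∈ I_0` (a moved letter: `π (τ_s y) = τ_s (π y)`, `κ' (τ_s y) = κ' y * s`), and `δψ' = π*φ` since letters moving `y` move `π y`. Finitely many cocycles: intersect the `MC`. Tower of length `d = |Λ|`. Freeness: if `m ∈ M i` and `m • y = L.r y γ`,
`γ ∈ rsub G I`, `I` a clique, then `m² • y = L.r (m • y) γ = y`, `m² = 1`, `m = 1` (`M i` acts trivially on labels, so it commutes with `L.r`). The rest is the proof of `Stmt_SMT` (helper53). -/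
def Stmt_SMT2 : Prop :=
  ∀ (Λ : Type) [Finite Λ] (G : SimpleGraph Λ) (N : Type) [Group N] [MulAction N Λ] (p : ℕ) [Fact p.Prime]
    (ι : Type) (Y : ι → Type) [∀ i, MulAction N (Y i)] (L : ∀ i, LS G (Y i)) (M : ι → Subgroup N),
    (∀ (n : N) a b, G.Adj a b → G.Adj (n • a) (n • b)) →
    (∀ i (n : N) a (y : Y i), (L i).τ (n • a) (n • y) = n • (L i).τ a y) →
    (∀ i, (M i).Normal) → (∀ i, ∀ m ∈ M i, ∀ a : Λ, m • a = a) →
    (∀ i, ∀ m ∈ M i, ∀ y : Y i, m • y = y → m = 1) → (∀ i, ∀ m ∈ M i, m ^ 2 = 1 → m = 1) →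
    (∀ i (y y' : Y i), ∃ γ, (L i).r y γ = y') → (∀ i, Nonempty (Y i)) →
    (∀ i, ∃ P : Set (Y i), P.Finite ∧ ∀ y : Y i, ∃ m ∈ M i, m • y ∈ P) →
    (∀ i, ∀ MC : Subgroup (RC G), ∀ hMC : MC.Normal, MC.FiniteIndex → ∃ j, M j ≤ M i ∧
      ∃ π : Y j → Y i, (∀ (n : N) y, π (n • y) = n • π y) ∧
        (∀ a y, (L j).τ a y ≠ y → (L i).τ a (π y) = π ((L j).τ a y) ∧ (L i).τ a (π y) ≠ π y) ∧
        ∃ κ : Y j → RC G ⧸ MC, (∀ a y, (L j).τ a y ≠ y → κ ((L j).τ a y) = κ y * QuotientGroup.mk' MC (rg G a)) ∧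
          ∀ m ∈ M j, ∀ y, κ (m • y) = κ y) →
    ∀ i, ∃ j, M j ≤ M i ∧ ∀ n : N, ∀ m ∈ M j, n ^ p = 1 → (m * n) ^ p = 1 →
      HasFix G (L j) n → HasFix G (L j) (m * n) → ∃ m0 ∈ M i, m0 * (m * n) * m0⁻¹ = n

/-- YJ6G (uses YJ1, YJ2, YJ4, YJ5, DEV, LSX, NRM, LBF, FLD, SMT2): as YJ6, with the index set `{M'' ≤ H normal of finite index} × ι`, `Y (M'', i) = Q i`, `M (M'', i) = M'' ∩ NJ J`. The action of `NJ J` on `Q i` comes from FLD (second item, surjectivity). The connectedness and fixed cubes are transported by `q i` from `YT J`: all letters of the fixed cube move `x`, so they move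
`q i x`, and `LQ.r (q x) γ = q (LJ.r x γ)` for `γ` in the group of the cube. `κ' (q j x) = κ x` modulo `MC`; `M'''` = a normal subgroup of finite index in `M'' ⊓ c⁻¹ MC`. -/
def Stmt_YJ6G : Prop :=
  ∀ (D : Rd) (H : Subgroup D.W), D.Deep H → ∀ J : Set D.S, Finite (D.par J) → ∀ p : ℕ, p.Prime →
    ∀ M ≤ H, M.Normal → M.FiniteIndex → ∃ M1 ≤ H, M1.Normal ∧ M1.FiniteIndex ∧
      ∀ n ∈ D.NJ J, ∀ m ∈ M1, m ∈ D.NJ J → n ^ p = 1 → (m * n) ^ p = 1 →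
        ∃ m0 ∈ M, m0 ∈ D.NJ J ∧ m0 * (m * n) * m0⁻¹ = n

/-- LOCG: as LOC, without `AF` (uses PCL, RNK, NRM, DEEPG, DEEP (second part), YJ2, YJ6G) -/
def Stmt_LOCG : Prop :=
  ∀ (D : Rd) (x : D.W), (∃ k : ℕ, 0 < k ∧ x ^ k = 1) → ∀ p : ℕ, p.Prime → ∀ M : Subgroup D.W, M.Normal → M.FiniteIndex →
    ∃ M1 : Subgroup D.W, M1.Normal ∧ M1.FiniteIndex ∧ ∀ y1, y1 ^ p = x ^ p → y1 * x⁻¹ ∈ M1 →
      ∃ m3 ∈ M, m3 * y1 * m3⁻¹ = x

/-- TORG (uses RSF, LOCG): RTT and TOR without `AF` -/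
def Stmt_TORG : Prop :=
  (∀ (D : Rd) (x y : D.W), (∃ n : ℕ, 0 < n ∧ x ^ n = 1) → RT x y) ∧
  ∀ (D : Rd) (x y : D.W), (∃ n : ℕ, 0 < n ∧ x ^ n = 1) → PC x y → IsConj x y

/-! ## G4c. Elements of infinite order -/

/-- KCY (as KCZ; uses BAS, CSU, CMP, PFF, FPR): now without `AF`, for connected non-isotropic `u`. The only change is the last step: if `B u' (e t) = 0` for all `t ∈ Z` then `B (u - u') (e t) = 0` for `t ∈ Z`, all terms are `≤ 0`, so `k r t = 0` for `r ∈ supp u \ Z`, `t ∈ Z`; `supp u` is connected, so `Z = supp u`,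
`u' = u`, `B u u = ∑ u t * B u (e t) = 0`: contradiction. -/
def Stmt_KCY : Prop :=
  ∀ D : Rd, ∀ u ∈ D.Kc, D.Conn {s | u s ≠ 0} → D.B u u ≠ 0 → ∀ μ1 ∈ D.Ps, ∀ μ2 ∈ D.Ps, D.B u μ1 = 0 → D.B u μ2 = 0 →
    D.B μ1 μ2 ≤ -1 → D.In (D.perp {s | u s ≠ 0}) μ1 ∧ D.In (D.perp {s | u s ≠ 0}) μ2

/-- NFY (as NFC; uses BAS, SGN, CMP, CSU, PFF). Wlog `β ∈ Ps`. `u` = restriction of `β` to `J`; for every component `Z` of `J` meeting its support, `u'` = restriction to `Z`: `B u' (e s) = B u (e s) ≥ 0` on `Z`, not `> 0` anywhere (PFF, `NoFin`), so `B u (e s) = 0` for all `s ∈ J`, `B (β - u) (e s) = 0` for `s ∈ J`, so `β - u` is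
supported in `perp J`. CSU: `β` is supported in `perp J` or in `J`; in the second case `β = u`, `B β β = ∑ β s * B β (e s) = 0`: contradiction. -/
def Stmt_NFY : Prop :=
  ∀ (D : Rd) (J : Set D.S), D.NoFin J → ∀ β ∈ D.Rt, (∀ s ∈ J, D.B β (D.e s) = 0) → D.In (D.perp J) β

/-- THY (uses BAS): an irreducible root system is not covered by two hyperplanes. Let `U` be the span of `{γ ∈ Rt | In K γ, χ1 γ ≠ 0}`. For `s ∈ K`: `e s ∈ U` or `e s` is orthogonal to `U`: if `χ1 (e s) ≠ 0` clear; otherwise, if `B (e s) γ ≠ 0` for a `γ` with `χ1 γ ≠ 0`, then `χ1 (σ_s γ) = χ1 γ ≠ 0` and `e s` is in the span of `γ, σ_s γ`. By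
`Conn K` all `e s ∈ U` (if `χ1 ≠ 0` on `V_K`), and `χ2 = 0` on `U`. -/
def Stmt_THY : Prop :=
  ∀ (D : Rd) (K : Set D.S), D.Conn K → ∀ χ1 χ2 : D.V →ₗ[ℝ] ℝ, (∀ γ ∈ D.Rt, D.In K γ → χ1 γ = 0 ∨ χ2 γ = 0) →
    (∀ v, D.In K v → χ1 v = 0) ∨ (∀ v, D.In K v → χ2 v = 0)

/-- PSD (uses BAS): if `u ∈ Kc`, `B u u = 0`, `supp u` connected then the form is positive semidefinite on `V_{supp u}` with radical `ℝ u` (`B v v = (1/2) ∑_{r ≠ t} (-k r t) u r u t (v r / u r - v t / u t)²` for `v` supported in `supp u`, as `B u (e t) = 0` there), so for roots `φ, ψ` supported in `supp u`: `|B φ ψ| ≤ 1`, and `|B φ ψ| = 1` iff `ψ ∓ φ ∈ ℝ u` -/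
def Stmt_PSD : Prop :=
  ∀ (D : Rd) (u : D.V), u ∈ D.Kc → D.B u u = 0 → D.Conn {s | u s ≠ 0} → u ≠ 0 →
    (∀ s, u s ≠ 0 → D.B u (D.e s) = 0) ∧ (∀ s, u s = 0 → D.B u (D.e s) = 0 → s ∈ D.perp {s | u s ≠ 0}) ∧
    (∀ v, D.In {s | u s ≠ 0} v → 0 ≤ D.B v v ∧ (D.B v v = 0 → ∃ t : ℝ, v = t • u)) ∧
    (∀ φ ∈ D.Rt, ∀ ψ ∈ D.Rt, D.In {s | u s ≠ 0} φ → D.In {s | u s ≠ 0} ψ → |D.B φ ψ| ≤ 1 ∧
      (D.B φ ψ = 1 → ∃ t : ℝ, ψ = φ + t • u) ∧ (D.B φ ψ = -1 → ∃ t : ℝ, ψ = -φ + t • u))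

/-- F3CY (uses the deps of F3C with KCY, NFY instead of KCZ, NFC, and THY, PSD, DIM): the core, without `AF`. `g α = α`, `h β = β` by T1, T2 for `N = 1`. (1), (2) as in F3C: `u = w (α_n - α_{-n}) ∈ Kc`, its support `J'` is connected (CSU: the positive roots `w α_n`, `-w α_{-n}` have connected supports and are not orthogonal). If `B u u ≠ 0`: (3), (4) as in F3C with KCY, NFY.
Suppose `B u u = 0`. Let `ε = w⁻¹ u`. PSD: `α_{i+1} - α_i = c_i ε`, `c_i ≠ 0` for `-n ≤ i < n` (take `n ≥ 2`; `B α_i α_{i+1} ≥ 1`, both supported in `w⁻¹ V_{J'}` by CVX); so `h ε = γ ε`, `γ ≠ 0`, and `w h w⁻¹ u = γ u`; IMC (2): `γ u ≥ u`, so `γ > 0`, `γ u ∈ Kc`, IMC (3): `γ = 1`; so `h ε = ε` and `w h w⁻¹ ∈ par {s | B u (e s) = 0}`,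
`{s | B u (e s) = 0} = J' ∪ perp J'` (IMC (3), PSD). `Ess`: `par J ≤ cp w⁻¹ (J' ∪ perp J')`; as in (4), `w V_K ⊆ V_{J'}` (`K` connected, `w α ∈ V_{J'}`). `ε ∈ V_K` (`h α - α`, `h ∈ par J` preserves `V_K`), `g ε = ε` (`g (h α - α) = h α - α`). There are finitely many classes of roots of `V_K` modulo `ℝ ε` (DIM, PSD), permuted by `h` and `g`; so for some `N > 0`,
`h ^ N v - v`, `g ^ N v - v ∈ ℝ ε` for all `v ∈ V_K`: `h ^ N γ = γ + χ1 γ • ε`, `g ^ N γ = γ + χ2 γ • ε` with linear `χ1, χ2` (apply a functional `π` with `π ε = 1`). If `χ1 γ > 0` then `Trn (h ^ N) γ`: `B γ (h ^ (N n) γ) = 1`, so they are nested (NST), and `w h ^ (N n) γ = w γ + n χ1 γ u` is positive for `n` large and negative for `-n` large, so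
`Sub γ (h ^ (N n) γ)`. T1: `g γ = γ`, `χ2 γ = 0`. If `χ1 γ < 0` use `-γ`. THY: `χ1 = 0` or `χ2 = 0` on `V_K`; but `χ1 α ≠ 0` and `χ2 β ≠ 0`. -/
def Stmt_F3CY : Prop :=
  ∀ (D : Rd) (J K : Set D.S) (h g : D.W), D.Ess J h → g ∈ D.par J → K ⊆ J → D.Conn K →
    (∀ s ∈ K, ∀ t ∈ J \ K, D.k s t = 0) → h * g = g * h →
    (∀ N : ℕ, 0 < N → ∀ γ ∈ D.Rt, D.Trn (h ^ N) γ → D.ρ g γ = γ) →
    (∀ N : ℕ, 0 < N → ∀ γ ∈ D.Rt, D.Trn (g ^ N) γ → D.ρ h γ = γ) →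
    ∀ α ∈ D.Rt, ∀ β ∈ D.Rt, D.In K α → D.In K β → D.Trn h α → D.Trn g β → False

/-- F3Y (as F3, with F3CY; F3G for powers): T1 for `h ^ 2`, `g ^ 2`: let `Trn (h ^ (2 N)) γ`; `x0 = b · a2`. By TRN (2) and since `x0` differs from `Ps` in finitely many roots, `h ^ (2 N i) γ ∈ x0` for `i` large and `∉ x0` for `-i` large; so for some `i`, `γ' = h ^ (2 N i) γ ∈ x0`, `γ' ∉ h ^ (2 N) x0`. F3G for `h ^ (2 N)`, word `w` repeated `N` times, and
`g ^ 2`, `l`: `g ^ 2 γ' = γ'`, so `g ^ 2 γ = γ`. -/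
def Stmt_F3Y : Prop :=
  ∀ (D : Rd) (H : Subgroup D.W), D.Deep H → ∀ L : LS (D.lg H) D.X, D.IsFlip H L →
    ∀ b κ c, D.Dev H L b κ c → Function.Injective c →
    ∀ (J : Set D.S) (h : H) (a : RC (D.lg H)) (w : List (D.Lb H)), D.Ess J h.1 →
      c (h ^ 2) = a * wp (D.lg H) w * a⁻¹ → Ax1 (D.lg H) w →
      ∀ g : H, g.1 ∈ D.par J → a⁻¹ * c g * a ∈ rsub (D.lg H) {b | ∀ s ∈ w, (D.lg H).Adj b s} → g = 1

/-- GAMY (as GAM, with F3Y) -/
def Stmt_GAMY : Prop :=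
  ∀ (D : Rd) (H : Subgroup D.W), D.Deep H → ∀ (J : Set D.S), ∀ h ∈ H, D.Ess J h →
    ∃ A : Subgroup D.W, A ≤ D.par J ⊓ Subgroup.centralizer {h} ∧
      (∃ M0 : Subgroup D.W, M0.Normal ∧ M0.FiniteIndex ∧ M0 ⊓ (D.par J ⊓ Subgroup.centralizer {h}) ≤ A) ∧
      (∀ x ∈ A, ∀ y ∈ A, x * y = y * x) ∧ A.FG ∧
      ∀ N ≤ A, N.relIndex A ≠ 0 → ∃ M : Subgroup D.W, M.Normal ∧ M.FiniteIndex ∧ M ⊓ A ≤ N

/-- INFY (as INF, with TORG, RTWG, DEEPG, FTG, GAMY) -/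
def Stmt_INFY : Prop := ∀ (D : Rd) (x y : D.W), (¬ ∃ n : ℕ, 0 < n ∧ x ^ n = 1) → PC x y → IsConj x y

/-- CSY (uses TORG, INFY): every based root system group is conjugacy separable -/
def Stmt_CSY : Prop := ∀ D : Rd, CSep D.W

/-- FIN (uses RDX, INT, CSY): the frozen statement S01727 -/
def Stmt_FIN : Prop :=
  ∀ (B : Type) [Finite B] (M : CoxeterMatrix B) (g h : M.Group), ¬ IsConj g h →
    ∃ (F : Type) (_ : Group F) (_ : Finite F) (φ : M.Group →* F), ¬ IsConj (φ g) (φ h)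

end Pool.CS
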